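import Mathlib
import Pool.Agent.Lib.MP_89bcae_ag.Ze.Defs
import Pool.Agent.Lib.MP_89bcae_ag.Ze.DefsR
import Pool.Agent.Lib.MP_89bcae_ag.Tk.K002

/-!
# The elliptic surfaces `y ^ 2 = x ((x - a(t)) ^ 2 - t)`
-/

open Polynomial IsDedekindDomain

open scoped Classical

namespace Pool.Agent.Lib.MP_89bcae_ag.Xs

open Pool.Agent.Lib.MP_89bcae_ag.Ze

section

variable {k : Type} [Field k]

/-- The polynomial `x ((x - a(t)) ^ 2 - t)`, in `x` with coefficients in `k[t]`. -/
noncomputable def surf (a : k[X]) : k[X][X] := X * ((X - C a) ^ 2 - C X)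

/-- The polynomial `a(s ^ 2) + s`. -/
noncomputable def alpha (a : k[X]) : k[X] := a.comp (X ^ 2) + X

/-- The degree of `a` is even and at least `4`, the polynomial `a(s ^ 2) + s` has no multiple roots, and all the even
permutations of its roots in `F` are induced by automorphisms of `F` over `k`; the characteristic is not `2`. -/
structure IsExample (F : Type) [Field F] [Algebra k F] (a : k[X]) : Prop where
  two_ne_zero : (2 : k) ≠ 0
  four_le : 4 ≤ a.natDegree
  even : Even a.natDegree
  separable : (alpha a).Separable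
  galois : ∀ g : Equiv.Perm ((alpha a).rootSet F), g ∈ alternatingGroup ((alpha a).rootSet F) →
    ∃ σ : F ≃ₐ[k] F, ∀ s : (alpha a).rootSet F, σ (s : F) = g s

lemma IsExample.natDegree_ne_zero {F : Type} [Field F] [Algebra k F] {a : k[X]} (h : IsExample F a) :
    a.natDegree ≠ 0 := by
  have := h.four_le
  omega

end

section

variable {F L : Type} [Field F] [Field L] [Algebra F[X] L] [IsFractionRing F[X] L]

/-- The order of the zero at `t = r` of an element of `L = F(t)`. -/
noncomputable def ord (r : F) (x : L) : ℤ := -(WithZero.log ((Sup.plc r).valuation L x))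

/-- The valuation ring of `L = F(t)` given by the point `t = r`. -/
noncomputable def Or (L : Type) [Field L] [Algebra F[X] L] [IsFractionRing F[X] L] (r : F) : ValuationSubring L :=
  ((Sup.plc r).valuation L).valuationSubring

lemma expand_inj : Function.Injective ((algebraMap F[X] L).comp (expand F 2 : F[X] →+* F[X])) :=
  (IsFractionRing.injective F[X] L).comp (expand_injective two_pos)

/-- The homomorphism of `L = F(t)` which maps `t` to `t ^ 2`. -/
noncomputable def sq (F L : Type) [Field F] [Field L] [Algebra F[X] L] [IsFractionRing F[X] L] : L →+* L :=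
  IsFractionRing.lift (expand_inj (F := F) (L := L))

lemma sq_algebraMap (q : F[X]) : sq F L (algebraMap F[X] L q) = algebraMap F[X] L (expand F 2 q) :=
  IsFractionRing.lift_algebraMap _ q

lemma comp_neg_inj : Function.Injective ((algebraMap F[X] L).comp (compRingHom (-X : F[X]))) := by
  refine (IsFractionRing.injective F[X] L).comp fun p q h => ?_
  have h1 : (p.comp (-X)).comp (-X) = (q.comp (-X)).comp (-X) := congrArg (fun u => u.comp (-X)) h
  rwa [comp_assoc, comp_assoc, neg_comp, X_comp, neg_neg, comp_X, comp_X] at h1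

/-- The automorphism of `L = F(t)` which maps `t` to `- t`. -/
noncomputable def ng (F L : Type) [Field F] [Field L] [Algebra F[X] L] [IsFractionRing F[X] L] : L →+* L :=
  IsFractionRing.lift (comp_neg_inj (F := F) (L := L))

lemma ng_algebraMap (q : F[X]) : ng F L (algebraMap F[X] L q) = algebraMap F[X] L (q.comp (-X)) :=
  IsFractionRing.lift_algebraMap _ q

end

section

variable {k F L : Type} [Field k] [Field F] [Algebra k F] [Field L] [Algebra F[X] L] [IsFractionRing F[X] L]

/-- The polynomial `a(t)`, in `F[t]`. -/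
noncomputable def aF (F : Type) [Field F] [Algebra k F] (a : k[X]) : F[X] := a.map (algebraMap k F)

/-- The polynomial `a(s ^ 2) + s`, in `F[s]`. -/
noncomputable def alF (F : Type) [Field F] [Algebra k F] (a : k[X]) : F[X] := expand F 2 (aF F a) + X

lemma alF_eq (a : k[X]) : alF F a = (alpha a).map (algebraMap k F) := by
  unfold alF alpha aF
  rw [Polynomial.map_add, map_X, Polynomial.map_comp, Polynomial.map_pow, map_X, expand_eq_comp_X_pow]

/-- The polynomial `x ((x - a(t)) ^ 2 - t)` over `L = F(t)`. -/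
lemma poly_surf (a : k[X]) : poly F L (surf a) =
    X * ((X - C (algebraMap F[X] L (aF F a))) ^ 2 - C (algebraMap F[X] L X)) := by
  unfold poly surf Zs.ext aF
  simp only [Polynomial.map_mul, Polynomial.map_sub, Polynomial.map_pow, map_X, map_C, coe_mapRingHom]

/-- The component `x = 0`. -/
noncomputable def pi1 (F L : Type) [Field F] [Algebra k F] [Field L] [Algebra F[X] L] [IsFractionRing F[X] L] (a : k[X]) :
    AdjoinRoot (poly F L (surf a)) →+* L :=
  AdjoinRoot.lift (RingHom.id L) 0 (by
    rw [poly_surf, eval₂_mul, eval₂_X, zero_mul])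

lemma pi1_mk (a : k[X]) (A : L[X]) : pi1 F L a (AdjoinRoot.mk _ A) = A.eval 0 := by
  unfold pi1
  rw [AdjoinRoot.lift_mk, eval₂_id]

/-- The component `(x - a(t)) ^ 2 = t`, with the parameter `s`, where `t = s ^ 2` and `x = a(s ^ 2) + s`. -/
noncomputable def pi0 (F L : Type) [Field F] [Algebra k F] [Field L] [Algebra F[X] L] [IsFractionRing F[X] L] (a : k[X]) :
    AdjoinRoot (poly F L (surf a)) →+* L :=
  AdjoinRoot.lift (sq F L) (algebraMap F[X] L (alF F a)) (by
    rw [poly_surf, eval₂_mul, eval₂_sub, eval₂_pow, eval₂_sub, eval₂_X, eval₂_C, eval₂_C, sq_algebraMap, sq_algebraMap,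
      expand_X, alF, map_add, add_sub_cancel_left, ← map_pow, sub_self, mul_zero])

lemma pi0_mk (a : k[X]) (A : L[X]) :
    pi0 F L a (AdjoinRoot.mk _ A) = A.eval₂ (sq F L) (algebraMap F[X] L (alF F a)) := by
  unfold pi0
  rw [AdjoinRoot.lift_mk]

end

/-! ### The group of even subsets -/

/-- The constant functions. -/
def Cst (X : Type) : AddSubgroup (X → ZMod 2) where
  carrier := {f | ∃ c, ∀ x, f x = c}
  zero_mem' := ⟨0, fun _ => rfl⟩
  add_mem' := by
    rintro f g ⟨c, hc⟩ ⟨d, hd⟩
    exact ⟨c + d, fun x => by rw [Pi.add_apply, hc, hd]⟩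
  neg_mem' := by
    rintro f ⟨c, hc⟩
    exact ⟨-c, fun x => by rw [Pi.neg_apply, hc]⟩

/-- The group `H` acts on the module `ℤ_2 ^ r` through `a`, and this action, modulo `2`, is the action, through `q`, of the
alternating group on the functions of sum `0` modulo the constant functions. -/
structure HLift {X : Type} [Fintype X] {H : Type} [Group H] {r : ℕ}
    (a : H →* ((Fin r → ℤ_[2]) ≃ₗ[ℤ_[2]] (Fin r → ℤ_[2]))) (q : H →* alternatingGroup X)
    (p : (Fin r → ℤ_[2]) →+ (X → ZMod 2) ⧸ Cst X) : Prop where
  surj : Function.Surjective q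
  inj : ∀ h, a h = 1 → q h = 1 → h = 1
  ker : ∀ v, p v = 0 ↔ ∃ w, v = w + w
  ran : ∀ y, (∃ v, p v = y) ↔ ∃ f : X → ZMod 2, ∑ x, f x = 0 ∧ QuotientAddGroup.mk f = y
  act : ∀ h v (f : X → ZMod 2), p v = QuotientAddGroup.mk f →
    p (a h v) = QuotientAddGroup.mk fun x => f (((q h : Equiv.Perm X)⁻¹ : Equiv.Perm X) x)

end Pool.Agent.Lib.MP_89bcae_ag.Xs
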