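import Mathlib
import Pool.Agent.Lib.MP_89bcae_ag.Xs.Defs

/-!
# The orders of the rational functions at the points of the line
-/

open Polynomial IsDedekindDomain

open scoped Classical

namespace Pool.Agent.Lib.MP_89bcae_ag.Xs

section

variable {F L : Type} [Field F] [Field L] [Algebra F[X] L] [IsFractionRing F[X] L]

lemma ord_mul (r : F) {x y : L} (hx : x ≠ 0) (hy : y ≠ 0) : ord r (x * y) = ord r x + ord r y := by
  unfold ord
  rw [map_mul, WithZero.log_mul ((Valuation.ne_zero_iff _).mpr hx) ((Valuation.ne_zero_iff _).mpr hy)]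
  ring

lemma ord_one (r : F) : ord r (1 : L) = 0 := by
  unfold ord
  rw [map_one, WithZero.log_one, neg_zero]

lemma ord_pow (r : F) (x : L) (n : ℕ) : ord r (x ^ n) = n * ord r x := by
  unfold ord
  rw [map_pow, WithZero.log_pow]
  simp

lemma ord_inv (r : F) (x : L) : ord r x⁻¹ = -ord r x := by
  unfold ord
  rw [map_inv₀, WithZero.log_inv]

lemma ord_algebraMap (r : F) {q : F[X]} (hq : q ≠ 0) : ord r (algebraMap F[X] L q) = q.rootMultiplicity r := by
  obtain ⟨q', hq', hqr⟩ := exists_eq_pow_rootMultiplicity_mul_and_not_dvd q hq r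
  have e1 : (Sup.plc r).intValuation (X - C r) = WithZero.exp (-1 : ℤ) :=
    (Sup.plc r).intValuation_singleton (X_sub_C_ne_zero r) rfl
  have e2 : (Sup.plc r).intValuation q' = 1 := by
    rw [HeightOneSpectrum.intValuation_eq_one_iff]
    change q' ∉ Ideal.span {X - C r}
    rw [Ideal.mem_span_singleton]
    exact hqr
  unfold ord
  rw [HeightOneSpectrum.valuation_of_algebraMap]
  conv_lhs => rw [hq']
  rw [map_mul, map_pow, e1, e2, mul_one, WithZero.log_pow, WithZero.log_exp]
  simp

lemma isEquiv_Or (r : F) : ((Sup.plc r).valuation L).IsEquiv (Or L r).valuation :=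
  Valuation.isEquiv_valuation_valuationSubring _

lemma ord_eq_of_valuation {r : F} {x y : L} (hx : x ≠ 0) (hy : y ≠ 0)
    (h : (Or L r).valuation x = (Or L r).valuation y) : ord r x = ord r y := by
  unfold ord
  rw [(isEquiv_Or (L := L) r).val_eq.mpr h]

lemma algebraMap_mem_Or (r : F) (q : F[X]) : algebraMap F[X] L q ∈ Or L r := by
  unfold Or
  rw [Valuation.mem_valuationSubring_iff]
  exact HeightOneSpectrum.valuation_le_one _ _

lemma valuation_lt_one {r : F} {q : F[X]} (h : q.eval r = 0) : (Or L r).valuation (algebraMap F[X] L q) < 1 := by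
  rw [← (isEquiv_Or (L := L) r).lt_one_iff_lt_one, HeightOneSpectrum.valuation_of_algebraMap,
    HeightOneSpectrum.intValuation_lt_one_iff_mem]
  change q ∈ Ideal.span {X - C r}
  rw [Ideal.mem_span_singleton, dvd_iff_isRoot]
  exact h

/-- A polynomial with even root multiplicities is a square. -/
private lemma ord_sq_poly [IsAlgClosed F] {q : F[X]} (h : ∀ r : F, Even (q.rootMultiplicity r)) :
    ∃ y : F[X], q = y ^ 2 := by
  obtain ⟨c, hc⟩ := IsAlgClosed.exists_pow_nat_eq q.leadingCoeff two_pos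
  refine ⟨C c * ∏ m ∈ q.roots.toFinset, (X - C m) ^ (q.roots.count m / 2), ?_⟩
  rw [mul_pow, ← C_pow, hc, ← Finset.prod_pow]
  conv_lhs => rw [(IsAlgClosed.splits q).eq_prod_roots, Finset.prod_multiset_map_count]
  congr 1
  apply Finset.prod_congr rfl
  intro m _
  rw [← pow_mul, Nat.div_mul_cancel]
  rw [count_roots]
  exact (h m).two_dvd

/-- An element with even orders is a square. -/
theorem exists_sq [IsAlgClosed F] {x : L} (hx : x ≠ 0) (h : ∀ r : F, Even (ord r x)) : ∃ y : L, x = y ^ 2 := by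
  obtain ⟨p, q, hq, rfl⟩ := IsFractionRing.div_surjective (A := F[X]) x
  have hq0 : q ≠ 0 := nonZeroDivisors.ne_zero hq
  have hp0 : p ≠ 0 := by
    rintro rfl
    apply hx
    rw [map_zero, zero_div]
  have hp1 : algebraMap F[X] L p ≠ 0 := fun h0 => hp0 ((IsFractionRing.to_map_eq_zero_iff).mp h0)
  have hq1 : algebraMap F[X] L q ≠ 0 := fun h0 => hq0 ((IsFractionRing.to_map_eq_zero_iff).mp h0)
  obtain ⟨y, hy⟩ := ord_sq_poly (q := p * q) (fun r => by
    have h1 := h r
    rw [div_eq_mul_inv, ord_mul r hp1 (inv_ne_zero hq1), ord_inv, ord_algebraMap r hp0, ord_algebraMap r hq0,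
      ← sub_eq_add_neg, Int.even_sub, Int.even_coe_nat, Int.even_coe_nat] at h1
    rw [rootMultiplicity_mul (mul_ne_zero hp0 hq0), Nat.even_add]
    exact h1)
  refine ⟨algebraMap F[X] L y / algebraMap F[X] L q, ?_⟩
  rw [div_pow, ← map_pow, ← hy, map_mul]
  field_simp

end

end Pool.Agent.Lib.MP_89bcae_ag.Xs
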