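import Mathlib

/-!
# The polynomials `X ^ n - X - 1` have at most one double root modulo each maximal ideal
-/

open Polynomial

open scoped Classical

namespace Pool.Agent.Lib.MP_89bcae_ag.Xs

private lemma Col_natDegree {D : Type} [CommRing D] [IsDomain D] {n : ℕ} (hn : 2 ≤ n) :
    (X ^ n - X - 1 : D[X]).natDegree = n := by
  have h : (X ^ n - X - 1 : D[X]) = X ^ n - (X + C 1) := by
    rw [C_1]
    ring
  rw [h, natDegree_sub_eq_left_of_natDegree_lt, natDegree_X_pow]
  rw [natDegree_X_pow, natDegree_X_add_C]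
  omega

private lemma Col_ne_zero {D : Type} [CommRing D] [IsDomain D] {n : ℕ} (hn : 2 ≤ n) :
    (X ^ n - X - 1 : D[X]) ≠ 0 := by
  intro h
  have := Col_natDegree (D := D) hn
  rw [h, natDegree_zero] at this
  omega

private lemma Col_deriv {D : Type} [CommRing D] (n : ℕ) :
    derivative (X ^ n - X - 1 : D[X]) = C (n : D) * X ^ (n - 1) - 1 := by
  rw [derivative_sub, derivative_sub, derivative_X_pow, derivative_X, derivative_one, sub_zero]

/-- a double root `a` of `X ^ n - X - 1` satisfies `a (n - 1) = - n` and `n ≠ 0`, `n - 1 ≠ 0` -/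
private lemma Col_double {D : Type} [CommRing D] [IsDomain D] {n : ℕ} (hn : 2 ≤ n) {a : D}
    (h0 : (X ^ n - X - 1 : D[X]).IsRoot a)
    (h1 : (derivative (X ^ n - X - 1 : D[X])).IsRoot a) :
    (n : D) * a ^ (n - 1) = 1 ∧ a * ((n : D) - 1) = -n ∧ (n : D) - 1 ≠ 0 := by
  rw [Col_deriv] at h1
  simp only [IsRoot, eval_sub, eval_pow, eval_X, eval_one, eval_mul, eval_C] at h0 h1
  have e1 : (n : D) * a ^ (n - 1) = 1 := by linear_combination h1
  have e0 : a ^ n = a * a ^ (n - 1) := by
    conv_lhs => rw [show n = (n - 1) + 1 by omega, pow_succ, mul_comm]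
  have e2 : a * ((n : D) - 1) = -n := by
    rw [e0] at h0
    linear_combination (-(n : D)) * h0 + a * e1
  refine ⟨e1, e2, ?_⟩
  intro h
  rw [h, mul_zero] at e2
  have h3 : (n : D) = 0 := by linear_combination e2
  rw [h3, zero_mul] at e1
  exact zero_ne_one e1

private lemma Col_three {D : Type} [CommRing D] {f : D[X]} {a : D} (hd : (X - C a) ^ 3 ∣ f) :
    f.IsRoot a ∧ (derivative f).IsRoot a ∧ (derivative (derivative f)).IsRoot a := by
  obtain ⟨g, rfl⟩ := hd
  have h1 : (X - C a : D[X]) ^ 3 * g = (X - C a) * ((X - C a) * ((X - C a) * g)) := by ring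
  rw [h1]
  refine ⟨?_, ?_, ?_⟩
  · rw [IsRoot, eval_mul, eval_sub, eval_X, eval_C, sub_self, zero_mul]
  · simp only [IsRoot, derivative_mul, derivative_X_sub_C, eval_add,
      eval_mul, eval_sub, eval_X, eval_C, sub_self, zero_mul, add_zero, one_mul]
  · simp only [IsRoot, derivative_mul, derivative_X_sub_C, derivative_add, eval_add,
      eval_mul, eval_sub, eval_X, eval_C, sub_self, zero_mul, add_zero, one_mul]

private lemma Col_mult_le {D : Type} [CommRing D] [IsDomain D] {n : ℕ} (hn : 2 ≤ n) (a : D) :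
    (X ^ n - X - 1 : D[X]).rootMultiplicity a ≤ 2 := by
  by_contra hcon
  push Not at hcon
  have hd : (X - C a) ^ 3 ∣ (X ^ n - X - 1 : D[X]) :=
    (pow_dvd_pow _ hcon).trans (pow_rootMultiplicity_dvd _ _)
  obtain ⟨hd0, hr1, hd2⟩ := Col_three hd
  obtain ⟨e1, e2, e3⟩ := Col_double hn hd0 hr1
  rw [Col_deriv, derivative_sub, derivative_C_mul, derivative_X_pow, derivative_one,
    sub_zero] at hd2
  simp only [IsRoot, eval_mul, eval_C, eval_pow, eval_X] at hd2
  have hn0 : (n : D) ≠ 0 := by
    intro h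
    rw [h, zero_mul] at e1
    exact zero_ne_one e1
  have ha : a ≠ 0 := by
    intro h
    rw [h, zero_pow (by omega), mul_zero] at e1
    exact zero_ne_one e1
  rcases mul_eq_zero.1 hd2 with h | h
  · exact hn0 h
  · rcases mul_eq_zero.1 h with h | h
    · rw [Nat.cast_sub (by omega), Nat.cast_one] at h
      exact e3 h
    · exact ha (eq_zero_of_pow_eq_zero h)

private lemma Col_card {D : Type} [CommRing D] [IsDomain D] {n : ℕ} (hn : 2 ≤ n)
    (h : (X ^ n - X - 1 : D[X]).Splits) :
    n ≤ (X ^ n - X - 1 : D[X]).roots.toFinset.card + 1 := by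
  have hne := Col_ne_zero (D := D) hn
  have hc : (X ^ n - X - 1 : D[X]).roots.card = n := by
    rw [← h.natDegree_eq_card_roots, Col_natDegree hn]
  have key : ∃ a0 : D, ∀ a : D, (X ^ n - X - 1 : D[X]).roots.count a ≤
      1 + if a = a0 then 1 else 0 := by
    by_cases hex : ∃ a0 : D, 1 < (X ^ n - X - 1 : D[X]).rootMultiplicity a0
    · obtain ⟨a0, ha0⟩ := hex
      refine ⟨a0, fun a => ?_⟩
      rw [count_roots]
      by_cases ha : a = a0
      · rw [if_pos ha]
        exact Col_mult_le hn a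
      · rw [if_neg ha, add_zero]
        by_contra hcon
        push Not at hcon
        obtain ⟨r0, r1⟩ := (one_lt_rootMultiplicity_iff_isRoot hne).1 ha0
        obtain ⟨s0, s1⟩ := (one_lt_rootMultiplicity_iff_isRoot hne).1 hcon
        obtain ⟨-, e2, e3⟩ := Col_double hn r0 r1
        obtain ⟨-, f2, -⟩ := Col_double hn s0 s1
        apply ha
        have : (a - a0) * ((n : D) - 1) = 0 := by linear_combination f2 - e2
        rcases mul_eq_zero.1 this with h | h
        · exact sub_eq_zero.1 h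
        · exact absurd h e3
    · push Not at hex
      refine ⟨0, fun a => ?_⟩
      rw [count_roots]
      exact (hex a).trans (Nat.le_add_right _ _)
  obtain ⟨a0, ha0⟩ := key
  calc n = (X ^ n - X - 1 : D[X]).roots.card := hc.symm
    _ = ∑ a ∈ (X ^ n - X - 1 : D[X]).roots.toFinset, (X ^ n - X - 1 : D[X]).roots.count a :=
        (Multiset.toFinset_sum_count_eq _).symm
    _ ≤ ∑ a ∈ (X ^ n - X - 1 : D[X]).roots.toFinset, (1 + if a = a0 then 1 else 0) :=
        Finset.sum_le_sum fun a _ => ha0 a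
    _ = (X ^ n - X - 1 : D[X]).roots.toFinset.card +
          ∑ a ∈ (X ^ n - X - 1 : D[X]).roots.toFinset, (if a = a0 then 1 else 0) := by
        rw [Finset.sum_add_distrib, Finset.sum_const, smul_eq_mul, mul_one]
    _ ≤ (X ^ n - X - 1 : D[X]).roots.toFinset.card + 1 := by
        apply Nat.add_le_add_left
        rw [Finset.sum_ite_eq']
        split_ifs
        · exact le_rfl
        · exact Nat.zero_le _

private lemma Col_map {D : Type} [CommRing D] [Algebra ℤ D] (n : ℕ) :
    (X ^ n - X - 1 : ℤ[X]).map (algebraMap ℤ D) = X ^ n - X - 1 := by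
  rw [Polynomial.map_sub, Polynomial.map_sub, Polynomial.map_pow, map_X, Polynomial.map_one]

/-- S-Q2 (file `Xs/Col.lean`): the roots have at most one collision. -/
theorem collision {S : Type} [CommRing S] [IsDomain S] [CharZero S] {n : ℕ} (hn : 2 ≤ n)
    (hS : ((X ^ n - X - 1 : ℤ[X]).map (algebraMap ℤ S)).Splits) (m : Ideal S) [m.IsMaximal] :
    ((X ^ n - X - 1 : ℤ[X]).rootSet S).ncard ≤ ((X ^ n - X - 1 : ℤ[X]).rootSet (S ⧸ m)).ncard + 1 := by
  have hq : (X ^ n - X - 1 : (S ⧸ m)[X]).Splits := by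
    rw [Col_map] at hS
    have := hS.map (Ideal.Quotient.mk m)
    rwa [Polynomial.map_sub, Polynomial.map_sub, Polynomial.map_pow, map_X,
      Polynomial.map_one] at this
  have h1 : ((X ^ n - X - 1 : ℤ[X]).rootSet S).ncard ≤ n := by
    rw [rootSet, aroots, Col_map, Set.ncard_coe_finset]
    refine (Multiset.toFinset_card_le _).trans ((card_roots' _).trans ?_)
    rw [Col_natDegree hn]
  have h2 : ((X ^ n - X - 1 : ℤ[X]).rootSet (S ⧸ m)).ncard =
      (X ^ n - X - 1 : (S ⧸ m)[X]).roots.toFinset.card := by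
    rw [rootSet, aroots, Col_map, Set.ncard_coe_finset]
  rw [h2]
  exact h1.trans (Col_card hn hq)

end Pool.Agent.Lib.MP_89bcae_ag.Xs
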