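import Mathlib

/-!
# The Galois group of a number field is generated by the inertia groups
-/

open Polynomial

open scoped Pointwise

namespace Pool.Agent.Lib.MP_89bcae_ag.Xs

/-- S-Q1: the Galois group is generated by the inertia groups. -/
theorem iSup_inertia (K : Type) [Field K] [NumberField K] [IsGalois ℚ K] :
    ⨆ m : MaximalSpectrum (NumberField.RingOfIntegers K), m.asIdeal.inertia (K ≃ₐ[ℚ] K) = ⊤ := by
  set H : Subgroup (K ≃ₐ[ℚ] K) :=
    ⨆ m : MaximalSpectrum (NumberField.RingOfIntegers K), m.asIdeal.inertia (K ≃ₐ[ℚ] K) with hH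
  let E : IntermediateField ℚ K := FixedPoints.intermediateField H
  have hHg : IsGaloisGroup H E K := IsGaloisGroup.subgroup (K ≃ₐ[ℚ] K) ℚ K H
  have hE : Module.finrank ℚ E = 1 := by
    by_contra hne
    obtain ⟨P, hP, hun⟩ :=
      NumberField.exists_not_isUnramifiedAt_int (K := E) (𝒪 := NumberField.RingOfIntegers E) hne
    apply hun
    have hPp : P.IsPrime := hP.isPrime
    obtain ⟨Q, hQ, hQP⟩ :=
      Ideal.exists_maximal_ideal_liesOver_of_isIntegral (S := NumberField.RingOfIntegers K) P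
    have hQp : Q.IsPrime := hQ.isPrime
    let p : Ideal ℤ := P.under ℤ
    have hPl : P.LiesOver p := ⟨rfl⟩
    have hQl : Q.LiesOver p := Ideal.LiesOver.trans Q P p
    have hHo : IsGaloisGroup H (NumberField.RingOfIntegers E) (NumberField.RingOfIntegers K) :=
      IsGaloisGroup.of_isFractionRing H (NumberField.RingOfIntegers E) (NumberField.RingOfIntegers K) E K
    have hGo : IsGaloisGroup (K ≃ₐ[ℚ] K) ℤ (NumberField.RingOfIntegers K) :=
      IsGaloisGroup.of_isFractionRing (K ≃ₐ[ℚ] K) ℤ (NumberField.RingOfIntegers K) ℚ K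
    have e1 : Nat.card (Q.inertia (K ≃ₐ[ℚ] K)) = Q.ramificationIdx ℤ := by
      rw [Ideal.card_inertia_eq_ramificationIdxIn (G := (K ≃ₐ[ℚ] K)) p Q,
        Ideal.ramificationIdxIn_eq_ramificationIdx p Q (K ≃ₐ[ℚ] K)]
    have e2 : Nat.card (Q.inertia H) = Q.ramificationIdx (NumberField.RingOfIntegers E) := by
      rw [Ideal.card_inertia_eq_ramificationIdxIn (G := H) P Q,
        Ideal.ramificationIdxIn_eq_ramificationIdx P Q H]
    have hle : Q.inertia (K ≃ₐ[ℚ] K) ≤ H :=
      le_iSup (fun m : MaximalSpectrum (NumberField.RingOfIntegers K) => m.asIdeal.inertia (K ≃ₐ[ℚ] K)) ⟨Q, hQ⟩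
    have e3 : Nat.card (Q.inertia H) = Nat.card (Q.inertia (K ≃ₐ[ℚ] K)) := by
      have h1 : Q.inertia H = (Q.inertia (K ≃ₐ[ℚ] K)).subgroupOf H := by
        ext g
        rfl
      rw [h1]
      exact Nat.card_congr (Subgroup.subgroupOfEquivOfLe hle).toEquiv
    have e4 : Q.ramificationIdx ℤ = P.ramificationIdx ℤ * Q.ramificationIdx (NumberField.RingOfIntegers E) :=
      Ideal.ramificationIdx_tower P Q
    have e5 : 0 < Q.ramificationIdx (NumberField.RingOfIntegers E) := by
      rw [← e2]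
      exact Nat.card_pos
    rw [← Ideal.ramificationIdx_eq_one_iff]
    rw [← e1, ← e3, e2] at e4
    exact (Nat.eq_of_mul_eq_mul_right e5 (by rw [one_mul]; exact e4)).symm
  have h1 : Nat.card H = Module.finrank E K := IsGaloisGroup.card_eq_finrank H E K
  have h2 : Nat.card (K ≃ₐ[ℚ] K) = Module.finrank ℚ K := IsGaloisGroup.card_eq_finrank (K ≃ₐ[ℚ] K) ℚ K
  have h3 := Module.finrank_mul_finrank ℚ E K
  rw [hE, one_mul, ← h1, ← h2] at h3
  exact Subgroup.eq_top_of_card_eq _ h3

end Pool.Agent.Lib.MP_89bcae_ag.Xs
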