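import Mathlib
import Pool.Agent.Lib.MP_89bcae_ag.Xs.Ine
import Pool.Agent.Lib.MP_89bcae_ag.Xs.Col

/-!
# The Galois group of the polynomial `X ^ n - X - 1` over `ℚ` is the symmetric group
-/

open Polynomial

open scoped Classical NumberField

namespace Pool.Agent.Lib.MP_89bcae_ag.Xs

theorem selmer_monic {n : ℕ} (hn : 2 ≤ n) : (X ^ n - X - 1 : ℤ[X]).Monic := by
  have h1 : (X ^ n - X - 1 : ℤ[X]) = X ^ n - (X + C 1) := by
    rw [C_1]
    ring
  rw [h1]
  refine monic_X_pow_sub ?_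
  rw [degree_X_add_C]
  exact_mod_cast hn

theorem selmer_map {R : Type*} [CommRing R] (n : ℕ) :
    (X ^ n - X - 1 : ℤ[X]).map (algebraMap ℤ R) = X ^ n - X - 1 := by simp

theorem mem_rootSet_int {R : Type*} [CommRing R] [IsDomain R] [CharZero R] {n : ℕ} (hn : 2 ≤ n) (x : R) :
    x ∈ (X ^ n - X - 1 : ℤ[X]).rootSet R ↔ x ^ n - x - 1 = 0 := by
  rw [mem_rootSet]
  constructor
  · rintro ⟨_, h⟩
    simpa using h
  · intro h
    exact ⟨(selmer_monic hn).ne_zero, by simpa using h⟩

theorem selmer_surj (K : Type) [Field K] [NumberField K] {n : ℕ} (hn : 2 ≤ n)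
    (hsf : IsSplittingField ℚ K (X ^ n - X - 1 : ℚ[X])) :
    Function.Surjective (MulAction.toPermHom (K ≃ₐ[ℚ] K) ((X ^ n - X - 1 : ℤ[X]).rootSet (𝓞 K))) := by
  have hirr : Irreducible (X ^ n - X - 1 : ℚ[X]) := X_pow_sub_X_sub_one_irreducible_rat (by omega)
  have hgal : IsGalois ℚ K := IsGalois.of_separable_splitting_field (p := (X ^ n - X - 1 : ℚ[X])) hirr.separable
  have hsplK : ((X ^ n - X - 1 : ℤ[X]).map (algebraMap ℤ K)).Splits := by
    have h1 := hsf.splits
    rw [selmer_map]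
    simpa using h1
  have hspl : ((X ^ n - X - 1 : ℤ[X]).map (algebraMap ℤ (𝓞 K))).Splits := by
    refine Splits.of_splits_map_of_injective (i := algebraMap (𝓞 K) K) NumberField.RingOfIntegers.coe_injective ?_ ?_
    · rw [Polynomial.map_map, ← IsScalarTower.algebraMap_eq ℤ (𝓞 K) K]
      exact hsplK
    · intro z hz
      rw [Polynomial.map_map, ← IsScalarTower.algebraMap_eq ℤ (𝓞 K) K, mem_roots', IsRoot.def,
        eval_map_algebraMap] at hz
      exact ⟨⟨z, X ^ n - X - 1, selmer_monic hn, hz.2⟩, rfl⟩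
  have htr : MulAction.IsPretransitive (K ≃ₐ[ℚ] K) ((X ^ n - X - 1 : ℤ[X]).rootSet (𝓞 K)) := by
    refine ⟨fun x y => ?_⟩
    have hx := (mem_rootSet_int hn _).1 x.2
    have hy := (mem_rootSet_int hn _).1 y.2
    have hxK : (((x : 𝓞 K) : K)) ^ n - ((x : 𝓞 K) : K) - 1 = 0 := by
      have := congrArg (algebraMap (𝓞 K) K) hx
      simpa using this
    have hyK : (((y : 𝓞 K) : K)) ^ n - ((y : 𝓞 K) : K) - 1 = 0 := by
      have := congrArg (algebraMap (𝓞 K) K) hy
      simpa using this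
    have hmin : minpoly ℚ ((y : 𝓞 K) : K) = X ^ n - X - 1 := by
      symm
      refine minpoly.eq_of_irreducible_of_monic hirr (by simpa using hyK) ?_
      have h1 := (selmer_monic hn).map (algebraMap ℤ ℚ)
      rwa [selmer_map] at h1
    obtain ⟨σ, hσ⟩ := minpoly.exists_algEquiv_of_root (K := ℚ) (x := ((x : 𝓞 K) : K)) (y := ((y : 𝓞 K) : K))
      (Algebra.IsAlgebraic.isAlgebraic _) (by rw [hmin]; simpa using hxK)
    refine ⟨σ, Subtype.ext ?_⟩
    apply NumberField.RingOfIntegers.coe_injective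
    exact hσ
  exact hspl.surjective_toPermHom_of_iSup_inertia_eq_top
    (fun m => collision hn hspl m.asIdeal) (iSup_inertia K)

/-- S-Q3 (file `Xs/Sel.lean`, from S-Q1, S-Q2). -/
theorem selmer_gal {F : Type} [Field F] [Algebra ℚ F] [IsAlgClosure ℚ F] {n : ℕ} (hn : 2 ≤ n)
    (g : Equiv.Perm ((X ^ n - X - 1 : ℚ[X]).rootSet F)) :
    ∃ σ : F ≃ₐ[ℚ] F, ∀ s : (X ^ n - X - 1 : ℚ[X]).rootSet F, σ (s : F) = g s := by
  have hchar : CharZero F := algebraRat.charZero F
  rename_i i _
  obtain rfl : i = DivisionRing.toRatAlgebra := Subsingleton.elim _ _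
  have hF : IsAlgClosed F := IsAlgClosure.isAlgClosed ℚ
  have hFn : Normal ℚ F := IsAlgClosure.normal ℚ F
  have hsplF : ((X ^ n - X - 1 : ℚ[X]).map (algebraMap ℚ F)).Splits := IsAlgClosed.splits _
  obtain ⟨K, hK1, hK2, hK3, hK4, hK5⟩ : ∃ (K : Type) (_ : Field K) (_ : CharZero K) (_ : Algebra K F),
      IsSplittingField ℚ K (X ^ n - X - 1 : ℚ[X]) ∧ ∀ s ∈ (X ^ n - X - 1 : ℚ[X]).rootSet F,
        ∃ z : K, algebraMap K F z = s := by
    refine ⟨IntermediateField.adjoin ℚ ((X ^ n - X - 1 : ℚ[X]).rootSet F), inferInstance, inferInstance,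
      inferInstance, ?_, fun s hs => ⟨⟨s, IntermediateField.subset_adjoin _ _ hs⟩, rfl⟩⟩
    convert IntermediateField.adjoin_rootSet_isSplittingField hsplF
    exact Subsingleton.elim _ _
  have hfin : FiniteDimensional ℚ K := IsSplittingField.finiteDimensional K (X ^ n - X - 1 : ℚ[X])
  have hnf : NumberField K := { to_charZero := hK2, to_finiteDimensional := hfin }
  have hirr : Irreducible (X ^ n - X - 1 : ℚ[X]) := X_pow_sub_X_sub_one_irreducible_rat (by omega)
  have hgal : IsGalois ℚ K := IsGalois.of_separable_splitting_field (p := (X ^ n - X - 1 : ℚ[X])) hirr.separable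
  have hroot : ∀ s : F, s ∈ (X ^ n - X - 1 : ℚ[X]).rootSet F ↔ s ^ n - s - 1 = 0 := by
    intro s
    rw [mem_rootSet]
    constructor
    · rintro ⟨_, h⟩
      simpa using h
    · intro h
      exact ⟨hirr.ne_zero, by simpa using h⟩
  have hinj : Function.Injective (algebraMap K F) := (algebraMap K F).injective
  let e0 : (X ^ n - X - 1 : ℤ[X]).rootSet (𝓞 K) → (X ^ n - X - 1 : ℚ[X]).rootSet F := fun x =>
    ⟨algebraMap K F ((x : 𝓞 K) : K), (hroot _).2 (by
      have h1 := (mem_rootSet_int hn _).1 x.2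
      have h2 := congrArg (fun z : 𝓞 K => algebraMap K F (z : K)) h1
      simpa using h2)⟩
  have he0 : Function.Bijective e0 := by
    constructor
    · intro x y h
      have h1 : algebraMap K F ((x : 𝓞 K) : K) = algebraMap K F ((y : 𝓞 K) : K) := congrArg Subtype.val h
      exact Subtype.ext (NumberField.RingOfIntegers.coe_injective (hinj h1))
    · intro s
      obtain ⟨z, hz⟩ := hK5 s s.2
      have h1 : z ^ n - z - 1 = 0 := by
        apply hinj
        have h2 := (hroot _).1 s.2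
        rw [← hz] at h2
        simpa using h2
      have hint : IsIntegral ℤ z := ⟨X ^ n - X - 1, selmer_monic hn, by simpa using h1⟩
      refine ⟨⟨⟨z, hint⟩, (mem_rootSet_int hn _).2 ?_⟩, Subtype.ext hz⟩
      apply NumberField.RingOfIntegers.coe_injective
      simpa using h1
  let e := Equiv.ofBijective e0 he0
  obtain ⟨τ, hτ⟩ := selmer_surj K hn hK4 ((e.trans g).trans e.symm)
  refine ⟨τ.liftNormal F, fun s => ?_⟩
  obtain ⟨x, rfl⟩ := e.surjective s
  have h1 : τ.liftNormal F (algebraMap K F ((x : 𝓞 K) : K)) = algebraMap K F (τ ((x : 𝓞 K) : K)) :=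
    AlgEquiv.liftNormal_commutes _ _ _
  have h2 : τ • x = e.symm (g (e x)) := congrArg (fun f : Equiv.Perm _ => f x) hτ
  have h3 : e (τ • x) = g (e x) := by rw [h2, Equiv.apply_symm_apply]
  exact h1.trans (congrArg Subtype.val h3)

end Pool.Agent.Lib.MP_89bcae_ag.Xs
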