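import Mathlib
import Pool.Agent.Lib.MP_89bcae_ag.Xs.Defs

/-!
# The Galois group and the orders of the zeros
-/

open Polynomial IsDedekindDomain

open scoped Classical

namespace Pool.Agent.Lib.MP_89bcae_ag.Xs

open Pool.Agent.Lib.MP_89bcae_ag.Ze

/-! ### The homomorphisms of `AdjoinRoot p` given by homomorphisms of the field of the coefficients -/

section

variable {L : Type} [Field L] {p : L[X]}

/-- The homomorphism of `L[x] / (p)` given by a homomorphism of the field `L` which fixes `p`. -/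
noncomputable def cHom (s : L →+* L) (hs : p.map s = p) : AdjoinRoot p →+* AdjoinRoot p :=
  AdjoinRoot.lift ((AdjoinRoot.of p).comp s) (AdjoinRoot.root p) (by
    rw [← eval₂_map, hs]
    exact AdjoinRoot.eval₂_root p)

lemma cHom_mk (s : L →+* L) (hs : p.map s = p) (A : L[X]) :
    cHom s hs (AdjoinRoot.mk p A) = AdjoinRoot.mk p (A.map s) := by
  unfold cHom
  rw [AdjoinRoot.lift_mk, ← eval₂_map]
  induction A.map s using Polynomial.induction_on' with
  | add A B hA hB => rw [eval₂_add, hA, hB, map_add]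
  | monomial n a =>
    rw [eval₂_monomial, ← C_mul_X_pow_eq_monomial, map_mul, map_pow, AdjoinRoot.mk_C, AdjoinRoot.mk_X]

lemma cHom_algebraMap (s : L →+* L) (hs : p.map s = p) (a : L) :
    cHom s hs (algebraMap L (AdjoinRoot p) a) = algebraMap L (AdjoinRoot p) (s a) := by
  have h1 : ∀ a : L, algebraMap L (AdjoinRoot p) a = AdjoinRoot.mk p (C a) := fun a => AdjoinRoot.mk_C a
  rw [h1, h1, cHom_mk, map_C]

lemma cHom_root (s : L →+* L) (hs : p.map s = p) :
    cHom s hs (AdjoinRoot.root p) = AdjoinRoot.root p := by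
  rw [← AdjoinRoot.mk_X, cHom_mk, map_X]

end

section

variable {k F L : Type} [Field k] [Field F] [Algebra k F] [Field L] [Algebra F[X] L] [IsFractionRing F[X] L]

lemma hom_ext_L {R : Type} [CommRing R] {φ ψ : L →+* R}
    (h : ∀ c : F, φ (algebraMap F[X] L (C c)) = ψ (algebraMap F[X] L (C c)))
    (h' : φ (algebraMap F[X] L X) = ψ (algebraMap F[X] L X)) : φ = ψ :=
  IsLocalization.ringHom_ext (nonZeroDivisors F[X]) (Polynomial.ringHom_ext h h')

/-- The homomorphism of `L = F(t)` given by an automorphism of `F`. -/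
noncomputable def cR (L : Type) [Field L] [Algebra F[X] L] [IsFractionRing F[X] L] (σ : F ≃+* F) : L →+* L :=
  ((Sup.coefL L σ : L ≃+* L) : L →+* L)

lemma cR_algebraMap (σ : F ≃+* F) (q : F[X]) :
    cR L σ (algebraMap F[X] L q) = algebraMap F[X] L (q.map (σ : F →+* F)) :=
  Sup.coefL_algebraMap _ σ q

lemma cR_C (σ : F ≃+* F) (c : F) : cR L σ (algebraMap F[X] L (C c)) = algebraMap F[X] L (C (σ c)) := by
  rw [cR_algebraMap, map_C]
  rfl

lemma cR_X (σ : F ≃+* F) : cR L σ (algebraMap F[X] L X) = algebraMap F[X] L X := by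
  rw [cR_algebraMap, map_X]

lemma cR_sq (σ : F ≃+* F) : (sq F L).comp (cR L σ) = (cR L σ).comp (sq F L) := by
  refine hom_ext_L (F := F) (fun c => ?_) ?_
  · rw [RingHom.comp_apply, RingHom.comp_apply, cR_C, sq_algebraMap, sq_algebraMap, expand_C, expand_C, cR_C]
  · rw [RingHom.comp_apply, RingHom.comp_apply, cR_X, sq_algebraMap, expand_X, map_pow, map_pow, cR_X]

lemma cR_comp {σ τ : F ≃+* F} (h : ∀ c, σ (τ c) = c) : (cR L σ).comp (cR L τ) = RingHom.id L := by
  refine hom_ext_L (F := F) (fun c => ?_) ?_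
  · rw [RingHom.comp_apply, cR_C, cR_C, h]
    rfl
  · rw [RingHom.comp_apply, cR_X, cR_X]
    rfl

lemma comp_algebraMap (σ : F ≃ₐ[k] F) : ((σ : F ≃+* F) : F →+* F).comp (algebraMap k F) = algebraMap k F :=
  RingHom.ext fun c => σ.commutes c

lemma cR_poly (f : k[X][X]) (σ : F ≃ₐ[k] F) : (poly F L f).map (cR L (σ : F ≃+* F)) = poly F L f := by
  unfold poly Zs.ext
  rw [Polynomial.map_map, Polynomial.map_map, Polynomial.map_map]
  congr 1
  refine RingHom.ext fun p => ?_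
  show cR L (σ : F ≃+* F) (algebraMap F[X] L (p.map (algebraMap k F))) = algebraMap F[X] L (p.map (algebraMap k F))
  rw [cR_algebraMap, Polynomial.map_map, comp_algebraMap]

lemma cR_alF (a : k[X]) (σ : F ≃ₐ[k] F) :
    cR L (σ : F ≃+* F) (algebraMap F[X] L (alF F a)) = algebraMap F[X] L (alF F a) := by
  rw [cR_algebraMap, alF_eq, Polynomial.map_map, comp_algebraMap]

lemma cHom_cHom (f : k[X][X]) {σ τ : F ≃ₐ[k] F} (h : ∀ c, σ (τ c) = c) (u : AdjoinRoot (poly F L f)) :
    cHom (cR L (σ : F ≃+* F)) (cR_poly f σ) (cHom (cR L (τ : F ≃+* F)) (cR_poly f τ) u) = u := by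
  obtain ⟨A, rfl⟩ := AdjoinRoot.mk_surjective u
  rw [cHom_mk, cHom_mk, Polynomial.map_map, cR_comp (L := L) (σ := (σ : F ≃+* F)) (τ := (τ : F ≃+* F)) h,
    Polynomial.map_id]

/-- The automorphism of the algebra `L[x] / (f)` given by an automorphism of `F`. -/
noncomputable def cAut (L : Type) [Field L] [Algebra F[X] L] [IsFractionRing F[X] L] (f : k[X][X]) (σ : F ≃ₐ[k] F) :
    AdjoinRoot (poly F L f) ≃+* AdjoinRoot (poly F L f) :=
  RingEquiv.ofRingHom (cHom (cR L (σ : F ≃+* F)) (cR_poly f σ))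
    (cHom (cR L (σ.symm : F ≃+* F)) (cR_poly f σ.symm))
    (RingHom.ext fun u => cHom_cHom f σ.apply_symm_apply u)
    (RingHom.ext fun u => cHom_cHom f σ.symm_apply_apply u)

lemma cAut_apply (f : k[X][X]) (σ : F ≃ₐ[k] F) (u : AdjoinRoot (poly F L f)) :
    cAut L f σ u = cHom (cR L (σ : F ≃+* F)) (cR_poly f σ) u := rfl

lemma cAut_const (f : k[X][X]) (σ : F ≃ₐ[k] F) (c : F) :
    cAut L f σ (algebraMap L (AdjoinRoot (poly F L f)) (algebraMap F[X] L (C c))) =
      algebraMap L (AdjoinRoot (poly F L f)) (algebraMap F[X] L (C (σ c))) := by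
  rw [cAut_apply, cHom_algebraMap, cR_C]
  rfl

lemma cAut_mem (f : k[X][X]) (σ : F ≃ₐ[k] F) : cAut L f σ ∈ galois 2 k F (poly F L f) := by
  refine ⟨fun c => ?_, fun c hc => ?_, ?_, ?_, fun c => ⟨σ c, cAut_const f σ c⟩, fun c => ⟨σ.symm c, ?_⟩⟩
  · rw [cAut_const, σ.commutes]
  · rw [cAut_const]
    rcases sq_eq_one_iff.mp hc with h | h
    · rw [h, map_one]
    · rw [h, map_neg, map_one]
  · rw [cAut_apply, cHom_algebraMap, cR_X]
  · rw [cAut_apply, cHom_root]
  · rw [cAut_const, σ.apply_symm_apply]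

lemma pi0_cAut (a : k[X]) (σ : F ≃ₐ[k] F) (u : AdjoinRoot (poly F L (surf a))) :
    pi0 F L a (cAut L (surf a) σ u) = cR L (σ : F ≃+* F) (pi0 F L a u) := by
  obtain ⟨A, rfl⟩ := AdjoinRoot.mk_surjective u
  rw [cAut_apply, cHom_mk, pi0_mk, pi0_mk, eval₂_map, cR_sq, hom_eval₂, cR_alF]

theorem exists_galois (a : k[X]) (σ : F ≃ₐ[k] F) :
    ∃ γ ∈ galois 2 k F (poly F L (surf a)), ∀ (u : AdjoinRoot (poly F L (surf a))) (r : F),
      ord (σ r) (pi0 F L a (γ u)) = ord r (pi0 F L a u) := by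
  refine ⟨cAut L (surf a) σ, cAut_mem _ σ, fun u r => ?_⟩
  rw [pi0_cAut]
  unfold ord
  exact congrArg (fun v => -(WithZero.log v)) (Sup.valuation_coefL L (σ : F ≃+* F) r (pi0 F L a u))

end

end Pool.Agent.Lib.MP_89bcae_ag.Xs
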