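import Mathlib
import Pool.Agent.Lib.MP_89bcae_ag.Xs.Defs

/-!
# The valuation ring at infinity of `F(t)`
-/

open Polynomial IsDedekindDomain

open scoped Classical

namespace Pool.Agent.Lib.MP_89bcae_ag.Xs

section

variable {F L : Type} [Field F] [Field L] [Algebra F[X] L] [IsFractionRing F[X] L]

private lemma Inf_intVal (r : F) {q : F[X]} (hq : q ≠ 0) :
    (Sup.plc r).intValuation q = WithZero.exp (-(q.rootMultiplicity r : ℤ)) := by
  obtain ⟨p, hp, hpr⟩ := exists_eq_pow_rootMultiplicity_mul_and_not_dvd q hq r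
  have e1 : (Sup.plc r).intValuation (X - C r) = WithZero.exp (-1 : ℤ) :=
    (Sup.plc r).intValuation_singleton (X_sub_C_ne_zero r) rfl
  have e2 : (Sup.plc r).intValuation p = 1 := by
    rw [HeightOneSpectrum.intValuation_eq_one_iff]
    change p ∉ Ideal.span {X - C r}
    rw [Ideal.mem_span_singleton]
    exact hpr
  have h1 : (Sup.plc r).intValuation q = (Sup.plc r).intValuation ((X - C r) ^ q.rootMultiplicity r * p) :=
    congrArg _ hp
  rw [h1, map_mul, map_pow, e1, e2, mul_one, ← WithZero.exp_nsmul]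
  congr 1
  simp

private lemma Inf_ord (r : F) {p q : F[X]} (hp : p ≠ 0) (hq : q ≠ 0) :
    ord r (algebraMap F[X] L p / algebraMap F[X] L q) = p.rootMultiplicity r - q.rootMultiplicity r := by
  unfold ord
  rw [map_div₀, HeightOneSpectrum.valuation_of_algebraMap, HeightOneSpectrum.valuation_of_algebraMap,
    Inf_intVal r hp, Inf_intVal r hq, ← WithZero.exp_sub, WithZero.log_exp]
  ring

private lemma Inf_sum [IsAlgClosed F] {p : F[X]} {S : Finset F} (h : ∀ r ∈ p.roots, r ∈ S) :
    ∑ r ∈ S, (p.rootMultiplicity r : ℤ) = p.natDegree := by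
  have h1 := Multiset.sum_count_eq_card h
  rw [IsAlgClosed.card_roots_eq_natDegree] at h1
  rw [← h1]
  push_cast
  refine Finset.sum_congr rfl fun r _ => ?_
  rw [count_roots]

/-- The valuation ring at infinity, and the parity of the sum of the orders. -/
theorem exists_inf (F L : Type) [Field F] [Field L] [Algebra F[X] L] [IsFractionRing F[X] L] [IsAlgClosed F] :
    ∃ O : ValuationSubring L, (∀ c : F, algebraMap F[X] L (C c) ∈ O) ∧ O.valuation ((algebraMap F[X] L X)⁻¹) < 1 ∧
      ∀ (x : L), x ≠ 0 → ∀ T : Finset F, (∀ r ∉ T, Even (ord r x)) →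
        (∃ w : Lˣ, O.valuation x = O.valuation ((w : L) ^ 2)) → Even (∑ r ∈ T, ord r x) := by
  let e : L ≃ₐ[F[X]] RatFunc F := IsLocalization.algEquiv (nonZeroDivisors F[X]) L (RatFunc F)
  let v : Valuation L (WithZero (Multiplicative ℤ)) := (RatFunc.inftyValuation F).comap (e : L →+* RatFunc F)
  have hv : ∀ p : F[X], p ≠ 0 → v (algebraMap F[X] L p) = WithZero.exp (p.natDegree : ℤ) := by
    intro p hp
    have h1 : v (algebraMap F[X] L p) = RatFunc.inftyValuation F (e (algebraMap F[X] L p)) := rfl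
    rw [h1, e.commutes, RatFunc.inftyValuation_apply, RatFunc.inftyValuation.polynomial F hp]
  have hequiv := Valuation.isEquiv_valuation_valuationSubring v
  refine ⟨v.valuationSubring, fun c => ?_, ?_, ?_⟩
  · rw [Valuation.mem_valuationSubring_iff]
    by_cases hc : c = 0
    · rw [hc, C_0, map_zero, map_zero]
      exact zero_le_one
    · rw [hv _ (C_ne_zero.2 hc), natDegree_C]
      simp
  · rw [← hequiv.lt_one_iff_lt_one, map_inv₀, hv _ X_ne_zero, natDegree_X, ← WithZero.exp_neg, ← WithZero.exp_zero,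
      WithZero.exp_lt_exp]
    norm_num
  · intro x hx T hT hw
    obtain ⟨w, hw⟩ := hw
    have h1 : v x = v ((w : L) ^ 2) := hequiv.eq_iff.2 hw
    have hvw : v (w : L) ≠ 0 := (Valuation.ne_zero_iff v).2 w.ne_zero
    obtain ⟨p, q, hq, rfl⟩ := IsFractionRing.div_surjective (A := F[X]) x
    have hq0 : q ≠ 0 := nonZeroDivisors.ne_zero hq
    have hp0 : p ≠ 0 := by
      rintro rfl
      apply hx
      rw [map_zero, zero_div]
    have h2 : (p.natDegree : ℤ) - q.natDegree = 2 * WithZero.log (v (w : L)) := by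
      have h3 := congrArg WithZero.log h1
      rw [map_div₀, hv p hp0, hv q hq0, ← WithZero.exp_sub, WithZero.log_exp, map_pow, WithZero.log_pow] at h3
      rw [h3]
      simp
    let S : Finset F := T ∪ (p.roots.toFinset ∪ q.roots.toFinset)
    have hTS : T ⊆ S := Finset.subset_union_left
    have hpS : ∀ r ∈ p.roots, r ∈ S := fun r hr =>
      Finset.mem_union_right _ (Finset.mem_union_left _ (Multiset.mem_toFinset.2 hr))
    have hqS : ∀ r ∈ q.roots, r ∈ S := fun r hr =>
      Finset.mem_union_right _ (Finset.mem_union_right _ (Multiset.mem_toFinset.2 hr))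
    have h4 : ∑ r ∈ S, ord r (algebraMap F[X] L p / algebraMap F[X] L q) = p.natDegree - q.natDegree := by
      rw [Finset.sum_congr rfl fun r _ => Inf_ord r hp0 hq0, Finset.sum_sub_distrib, Inf_sum hpS, Inf_sum hqS]
    have h5 := Finset.sum_sdiff hTS (f := fun r => ord r (algebraMap F[X] L p / algebraMap F[X] L q))
    have h6 : Even (∑ r ∈ S \ T, ord r (algebraMap F[X] L p / algebraMap F[X] L q)) := by
      refine Finset.even_sum _ fun r hr => hT r (Finset.mem_sdiff.1 hr).2
    have h7 : Even (∑ r ∈ S, ord r (algebraMap F[X] L p / algebraMap F[X] L q)) := by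
      rw [h4, h2]
      exact even_two_mul _
    rw [← h5] at h7
    exact (Int.even_add.1 h7).1 h6

end

end Pool.Agent.Lib.MP_89bcae_ag.Xs
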