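import Mathlib
import Pool.Agent.Lib.MP_89bcae_ag.Xs.Defs

/-!
# Numbers of invariant functions (row 89bS-G8b)
-/

open scoped Classical

namespace Pool.Agent.Lib.MP_89bcae_ag.Xs

section

variable {X : Type} [Fintype X]

private theorem G8b_gen {W A : Type} [Fintype A] (σ : W → W) (i : A → W) (ρ : W → A)
    (h1 : ∀ a, ρ (i a) = a) (h2 : ∀ x, ρ (σ x) = ρ x)
    (h3 : ∀ f : W → ZMod 2, (∀ x, f (σ x) = f x) → ∀ x, f (i (ρ x)) = f x) :
    Nat.card {f : W → ZMod 2 // ∀ x, f (σ x) = f x} = 2 ^ Fintype.card A := by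
  have e : {f : W → ZMod 2 // ∀ x, f (σ x) = f x} ≃ (A → ZMod 2) :=
    { toFun := fun f a => f.1 (i a)
      invFun := fun g => ⟨fun x => g (ρ x), fun x => congrArg g (h2 x)⟩
      left_inv := by
        rintro ⟨f, hf⟩
        refine Subtype.ext ?_
        funext x
        exact h3 f hf x
      right_inv := by
        intro g
        funext a
        change g (ρ (i a)) = g a
        rw [h1] }
  rw [Nat.card_congr e, Nat.card_eq_fintype_card, Fintype.card_fun, ZMod.card]

private theorem G8b_gen2 (σ : X → X) (T : Finset X) (ρ : X → X)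
    (h0 : ∀ x, ρ x ∉ T) (h1 : ∀ x, x ∉ T → ρ x = x) (h2 : ∀ x, ρ (σ x) = ρ x)
    (h3 : ∀ f : X → ZMod 2, (∀ x, f (σ x) = f x) → ∀ x, f (ρ x) = f x) :
    Nat.card {f : X → ZMod 2 // ∀ x, f (σ x) = f x} * 2 ^ T.card = 2 ^ Fintype.card X := by
  have h := G8b_gen (A := {x : X // x ∉ T}) σ (fun x => x.1) (fun x => ⟨ρ x, h0 x⟩)
    (fun x => Subtype.ext (h1 x.1 x.2)) (fun x => Subtype.ext (h2 x)) h3
  rw [h, ← pow_add]
  congr 1
  have h5 := Finset.card_compl_add_card T
  rw [← h5, Fintype.card_subtype]
  congr 2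
  ext x
  simp

/-- the three points of a three-cycle -/
private theorem G8b_pts {σ : Equiv.Perm X} (hσ : σ.IsThreeCycle) :
    ∃ a b c : X, a ≠ b ∧ a ≠ c ∧ b ≠ c ∧ σ a = b ∧ σ b = c ∧ σ c = a ∧
      (∀ x, x ≠ a → x ≠ b → x ≠ c → σ x = x) := by
  have h3 : σ.support.card = 3 := hσ.card_support
  obtain ⟨a, ha⟩ : σ.support.Nonempty := by
    rw [← Finset.card_pos, h3]
    norm_num
  have ho : σ ^ 3 = 1 := by
    rw [← hσ.orderOf]
    exact pow_orderOf_eq_one σ
  have hc3 : ∀ x, σ (σ (σ x)) = x := by
    intro x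
    have h := congrArg (fun π : Equiv.Perm X => π x) ho
    simpa [pow_succ, Equiv.Perm.mul_apply] using h
  have hab : σ a ≠ a := Equiv.Perm.mem_support.1 ha
  have hbc : σ (σ a) ≠ σ a := fun h => hab (σ.injective h)
  have hac : σ (σ a) ≠ a := by
    intro h
    have h1 := hc3 a
    rw [h] at h1
    exact hab h1
  refine ⟨a, σ a, σ (σ a), hab.symm, hac.symm, hbc.symm, rfl, rfl, hc3 a, ?_⟩
  intro x hx1 hx2 hx3
  by_contra hx
  have hsub : ({a, σ a, σ (σ a), x} : Finset X) ⊆ σ.support := by
    intro y hy
    simp only [Finset.mem_insert, Finset.mem_singleton] at hy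
    rw [Equiv.Perm.mem_support]
    rcases hy with rfl | rfl | rfl | rfl
    · exact hab
    · exact hbc
    · exact fun h => hbc (σ.injective h)
    · exact hx
  have hcard := Finset.card_le_card hsub
  rw [h3, Finset.card_insert_of_notMem, Finset.card_insert_of_notMem,
    Finset.card_insert_of_notMem, Finset.card_singleton] at hcard
  · omega
  · rw [Finset.mem_singleton]
    exact fun h => hx3 h.symm
  · simp only [Finset.mem_insert, Finset.mem_singleton, not_or]
    exact ⟨hbc.symm, fun h => hx2 h.symm⟩
  · simp only [Finset.mem_insert, Finset.mem_singleton, not_or]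
    exact ⟨hab.symm, hac.symm, fun h => hx1 h.symm⟩

/-- S-G8b (file `Xs/Cnt.lean`): the functions invariant under a cycle of length 3. -/
theorem card_inv_three {σ : Equiv.Perm X} (hσ : σ.IsThreeCycle) :
    Nat.card {f : X → ZMod 2 // ∀ x, f (σ x) = f x} * 4 = 2 ^ Fintype.card X := by
  obtain ⟨a, b, c, hab, hac, hbc, e1, e2, e3, hfix⟩ := G8b_pts hσ
  have h := G8b_gen2 (fun x => σ x) {b, c} (fun x => if x = b ∨ x = c then a else x)
    (by
      intro x
      by_cases hx : x = b ∨ x = c
      · rw [if_pos hx]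
        simp [hab, hac]
      · rw [if_neg hx]
        simpa using hx)
    (by
      intro x hx
      rw [if_neg]
      simpa using hx)
    (by
      intro x
      by_cases hx1 : x = a
      · rw [hx1, e1, if_pos (Or.inl rfl), if_neg]
        simp [hab, hac]
      · by_cases hx2 : x = b
        · rw [hx2, e2, if_pos (Or.inr rfl), if_pos (Or.inl rfl)]
        · by_cases hx3 : x = c
          · rw [hx3, e3, if_pos (Or.inr rfl), if_neg]
            simp [hab, hac]
          · rw [hfix x hx1 hx2 hx3])
    (by
      intro f hf x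
      by_cases hx : x = b ∨ x = c
      · rw [if_pos hx]
        have f1 := hf a
        have f2 := hf b
        simp only [e1, e2] at f1 f2
        rcases hx with rfl | rfl
        · exact f1.symm
        · exact (f2.trans f1).symm
      · rw [if_neg hx])
  rw [Finset.card_pair hbc] at h
  exact h

/-- S-G8b: the functions invariant under the product of two disjoint cycles of length 3. -/
theorem card_inv_two_three {σ τ : Equiv.Perm X} (hσ : σ.IsThreeCycle) (hτ : τ.IsThreeCycle) (h : σ.Disjoint τ) :
    Nat.card {f : X → ZMod 2 // ∀ x, f ((σ * τ) x) = f x} * 16 = 2 ^ Fintype.card X := by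
  obtain ⟨a, b, c, hab, hac, hbc, e1, e2, e3, hfix⟩ := G8b_pts hσ
  obtain ⟨a', b', c', hab', hac', hbc', e1', e2', e3', hfix'⟩ := G8b_pts hτ
  have ta : τ a = a := by
    rcases h a with h1 | h1
    · exact absurd (e1.symm.trans h1) hab.symm
    · exact h1
  have tb : τ b = b := by
    rcases h b with h1 | h1
    · exact absurd (e2.symm.trans h1) hbc.symm
    · exact h1
  have tc : τ c = c := by
    rcases h c with h1 | h1
    · exact absurd (e3.symm.trans h1) hac
    · exact h1
  have sa : σ a' = a' := by
    rcases h a' with h1 | h1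
    · exact h1
    · exact absurd (e1'.symm.trans h1) hab'.symm
  have sb : σ b' = b' := by
    rcases h b' with h1 | h1
    · exact h1
    · exact absurd (e2'.symm.trans h1) hbc'.symm
  have sc : σ c' = c' := by
    rcases h c' with h1 | h1
    · exact h1
    · exact absurd (e3'.symm.trans h1) hac'
  have ne : ∀ x, (x = a ∨ x = b ∨ x = c) → x ≠ a' ∧ x ≠ b' ∧ x ≠ c' := by
    intro x hx
    have hm : σ x ≠ x := by
      rcases hx with rfl | rfl | rfl
      · rw [e1]; exact hab.symm
      · rw [e2]; exact hbc.symm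
      · rw [e3]; exact hac
    refine ⟨?_, ?_, ?_⟩
    · rintro rfl; exact hm sa
    · rintro rfl; exact hm sb
    · rintro rfl; exact hm sc
  obtain ⟨n1, n2, n3⟩ := ne a (Or.inl rfl)
  obtain ⟨n4, n5, n6⟩ := ne b (Or.inr (Or.inl rfl))
  obtain ⟨n7, n8, n9⟩ := ne c (Or.inr (Or.inr rfl))
  have hg := G8b_gen2 (fun x => σ (τ x)) {b, c, b', c'}
    (fun x => if x = b ∨ x = c then a else if x = b' ∨ x = c' then a' else x)
    (by
      intro x
      by_cases hx : x = b ∨ x = c
      · rw [if_pos hx]
        simp [hab, hac, n2, n3]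
      · rw [if_neg hx]
        by_cases hx' : x = b' ∨ x = c'
        · rw [if_pos hx']
          simp [hab', hac', n4.symm, n7.symm]
        · rw [if_neg hx']
          simp only [Finset.mem_insert, Finset.mem_singleton]
          tauto)
    (by
      intro x hx
      simp only [Finset.mem_insert, Finset.mem_singleton] at hx
      rw [if_neg (by tauto), if_neg (by tauto)])
    (by
      intro x
      by_cases x1 : x = a
      · rw [x1, ta, e1, if_pos (Or.inl rfl), if_neg (by tauto), if_neg (by tauto)]
      by_cases x2 : x = b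
      · rw [x2, tb, e2, if_pos (Or.inr rfl), if_pos (Or.inl rfl)]
      by_cases x3 : x = c
      · rw [x3, tc, e3, if_neg (by tauto), if_neg (by tauto), if_pos (Or.inr rfl)]
      by_cases x4 : x = a'
      · rw [x4, e1', sb, if_neg (fun h => h.elim (fun h => n5 h.symm) (fun h => n8 h.symm)),
          if_pos (Or.inl rfl), if_neg (fun h => h.elim (fun h => n4 h.symm) (fun h => n7 h.symm)),
          if_neg (by tauto)]
      by_cases x5 : x = b'
      · rw [x5, e2', sc, if_neg (fun h => h.elim (fun h => n6 h.symm) (fun h => n9 h.symm)),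
          if_pos (Or.inr rfl), if_neg (fun h => h.elim (fun h => n5 h.symm) (fun h => n8 h.symm)),
          if_pos (Or.inl rfl)]
      by_cases x6 : x = c'
      · rw [x6, e3', sa, if_neg (fun h => h.elim (fun h => n4 h.symm) (fun h => n7 h.symm)),
          if_neg (by tauto), if_neg (fun h => h.elim (fun h => n6 h.symm) (fun h => n9 h.symm)),
          if_pos (Or.inr rfl)]
      · rw [hfix' x x4 x5 x6, hfix x x1 x2 x3])
    (by
      intro f hf x
      have f1 := hf a
      have f2 := hf b
      have f3 := hf a'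
      have f4 := hf b'
      simp only [ta, tb, e1, e2, e1', e2', sb, sc] at f1 f2 f3 f4
      by_cases hx : x = b ∨ x = c
      · rw [if_pos hx]
        rcases hx with rfl | rfl
        · exact f1.symm
        · exact (f2.trans f1).symm
      · rw [if_neg hx]
        by_cases hx' : x = b' ∨ x = c'
        · rw [if_pos hx']
          rcases hx' with rfl | rfl
          · exact f3.symm
          · exact (f4.trans f3).symm
        · rw [if_neg hx'])
  have hTc : ({b, c, b', c'} : Finset X).card = 4 := by
    rw [Finset.card_insert_of_notMem, Finset.card_insert_of_notMem, Finset.card_pair hbc']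
    · simp [n8, n9]
    · simp [hbc, n5, n6]
  rw [hTc] at hg
  exact hg

/-- S-G8b: the functions invariant under a transitive permutation of the second factor. -/
theorem card_inv_shift {Z Y : Type} [Fintype Z] [Fintype Y] [Nonempty Y] (s : Equiv.Perm Y)
    (hs : ∀ y y', ∃ k : ℕ, (s ^ k) y = y') :
    Nat.card {f : Z × Y → ZMod 2 // ∀ x, f (x.1, s x.2) = f x} = 2 ^ Fintype.card Z := by
  obtain ⟨y₀⟩ := (inferInstance : Nonempty Y)
  refine G8b_gen (fun x : Z × Y => (x.1, s x.2)) (fun z => (z, y₀)) (fun x => x.1)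
    (fun z => rfl) (fun x => rfl) ?_
  intro f hf x
  obtain ⟨z, y⟩ := x
  obtain ⟨k, hk⟩ := hs y₀ y
  have key : ∀ k : ℕ, f (z, (s ^ k) y₀) = f (z, y₀) := by
    intro k
    induction k with
    | zero => rfl
    | succ k ih =>
      rw [pow_succ', Equiv.Perm.mul_apply]
      exact (hf (z, (s ^ k) y₀)).trans ih
  rw [← hk]
  exact (key k).symm

end

end Pool.Agent.Lib.MP_89bcae_ag.Xs
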