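import Mathlib
import Pool.Agent.Lib.MP_89bcae_ag.Xs.Defs

/-! ### The number of invariant functions of an element of odd order -/

open scoped Classical

namespace Pool.Agent.Lib.MP_89bcae_ag.Xs

section

/-- `|F / 2 F| = 2 ^ rank F`, in the form: if the kernel of `u` is `2 F`, the range of `u` has `2 ^ rank F` elements. -/
lemma Fix_card_range {F A : Type} [AddCommGroup F] [Module ℤ_[2] F] [Module.Free ℤ_[2] F] [Module.Finite ℤ_[2] F]
    [AddCommGroup A] (u : F →+ A) (hu : ∀ v, u v = 0 ↔ ∃ w, v = w + w) :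
    Nat.card u.range = 2 ^ Module.finrank ℤ_[2] F := by
  have b := Module.finBasis ℤ_[2] F
  have key : ∃ t : F →+ (Fin (Module.finrank ℤ_[2] F) → ZMod 2), Function.Surjective t ∧
      ∀ v, t v = 0 ↔ ∃ w, v = w + w := by
    refine ⟨{ toFun := fun v i => PadicInt.toZMod (b.repr v i)
              map_zero' := by ext i; simp
              map_add' := by intro v w; ext i; simp }, ?_, ?_⟩
    · intro y
      have h1 : ∀ i, ∃ z : ℤ_[2], PadicInt.toZMod z = y i := fun i => ZMod.ringHom_surjective _ (y i)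
      choose z hz using h1
      refine ⟨b.equivFun.symm z, ?_⟩
      ext i
      show PadicInt.toZMod (b.repr (b.equivFun.symm z) i) = y i
      have h2 : b.repr (b.equivFun.symm z) i = z i := by
        have := congrFun (b.equivFun.apply_symm_apply z) i
        rwa [Module.Basis.equivFun_apply] at this
      rw [h2, hz]
    · intro v
      constructor
      · intro h
        have h1 : ∀ i, ∃ z : ℤ_[2], b.repr v i = z + z := by
          intro i
          have h2 : PadicInt.toZMod (b.repr v i) = 0 := congrFun h i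
          have h3 : b.repr v i ∈ RingHom.ker (PadicInt.toZMod (p := 2)) := h2
          rw [PadicInt.ker_toZMod, PadicInt.maximalIdeal_eq_span_p, Ideal.mem_span_singleton] at h3
          obtain ⟨z, hz⟩ := h3
          exact ⟨z, by rw [hz]; push_cast; ring⟩
        choose z hz using h1
        refine ⟨b.equivFun.symm z, ?_⟩
        apply b.equivFun.injective
        rw [map_add, LinearEquiv.apply_symm_apply]
        ext i
        rw [Module.Basis.equivFun_apply, hz i]
        rfl
      · rintro ⟨w, rfl⟩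
        ext i
        show PadicInt.toZMod (b.repr (w + w) i) = 0
        rw [map_add, Finsupp.add_apply, map_add]
        exact CharTwo.add_self_eq_zero _
  obtain ⟨t, ht, ht0⟩ := key
  have hker : u.ker = t.ker := by
    ext v
    rw [AddMonoidHom.mem_ker, AddMonoidHom.mem_ker, hu, ht0]
  have e1 : Nat.card (F ⧸ u.ker) = Nat.card u.range :=
    Nat.card_congr (QuotientAddGroup.quotientKerEquivRange u).toEquiv
  have e2 : Nat.card (F ⧸ t.ker) = Nat.card (Fin (Module.finrank ℤ_[2] F) → ZMod 2) :=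
    Nat.card_congr (QuotientAddGroup.quotientKerEquivOfSurjective t ht).toEquiv
  rw [← e1, hker, e2]
  simp

/-- order of the source of a homomorphism -/
lemma Fix_card_hom {A B : Type} [AddCommGroup A] [AddCommGroup B] (t : A →+ B) :
    Nat.card A = Nat.card t.range * Nat.card t.ker := by
  rw [AddSubgroup.card_eq_card_quotient_mul_card_addSubgroup t.ker,
    Nat.card_congr (QuotientAddGroup.quotientKerEquivRange t).toEquiv]

variable {X : Type} [Fintype X]

/-- the invariant functions -/
def FixI (σ : Equiv.Perm X) : AddSubgroup (X → ZMod 2) where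
  carrier := {f | ∀ x, f (σ x) = f x}
  zero_mem' := fun _ => rfl
  add_mem' := by
    intro f g hf hg x
    rw [Pi.add_apply, hf, hg, Pi.add_apply]
  neg_mem' := by
    intro f hf x
    rw [Pi.neg_apply, hf, Pi.neg_apply]

/-- the sum of the translates of a function under the powers of `σ` -/
def FixAv (σ : Equiv.Perm X) (m : ℕ) (f : X → ZMod 2) : X → ZMod 2 :=
  fun x => ∑ k ∈ Finset.range m, f ((σ⁻¹ ^ k) x)

omit [Fintype X] in
lemma FixAv_mem {σ : Equiv.Perm X} {m : ℕ} (hσ : σ ^ m = 1) (f : X → ZMod 2) : FixAv σ m f ∈ FixI σ := by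
  intro x
  unfold FixAv
  have h1 : ∀ k, f ((σ⁻¹ ^ (k + 1)) (σ x)) = f ((σ⁻¹ ^ k) x) := by
    intro k
    rw [pow_succ, Equiv.Perm.mul_apply, Equiv.Perm.inv_def, Equiv.symm_apply_apply]
  have h2 : (σ⁻¹ ^ m) (σ x) = σ x := by
    rw [inv_pow, hσ, inv_one, Equiv.Perm.one_apply]
  have h3 := Finset.sum_range_succ (fun k => f ((σ⁻¹ ^ k) (σ x))) m
  have h4 := Finset.sum_range_succ' (fun k => f ((σ⁻¹ ^ k) (σ x))) m
  rw [h3] at h4
  simp only [h1, pow_zero, Equiv.Perm.one_apply] at h4
  rw [h2] at h4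
  exact add_right_cancel h4

lemma FixAv_sum (σ : Equiv.Perm X) {m : ℕ} (hm : Odd m) (f : X → ZMod 2) : ∑ x, FixAv σ m f x = ∑ x, f x := by
  unfold FixAv
  rw [Finset.sum_comm]
  have h1 : ∀ k ∈ Finset.range m, ∑ x, f ((σ⁻¹ ^ k) x) = ∑ x, f x := fun k _ =>
    Equiv.sum_comp (σ⁻¹ ^ k) f
  rw [Finset.sum_congr rfl h1, Finset.sum_const, Finset.card_range, nsmul_eq_mul, ZMod.natCast_eq_one_iff_odd.mpr hm,
    one_mul]

variable {H : Type} [Group H] [Finite H] {r : ℕ}

/-- S-G8a (file `Xs/Fix.lean`): the rank of the fixed points of an element of odd order. -/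
theorem card_fix (hX : Fintype.card X ≠ 0) (hX' : Even (Fintype.card X))
    {a : H →* ((Fin r → ℤ_[2]) ≃ₗ[ℤ_[2]] (Fin r → ℤ_[2]))} {q : H →* alternatingGroup X}
    {p : (Fin r → ℤ_[2]) →+ (X → ZMod 2) ⧸ Cst X} (h : HLift a q p) {g : H} {m : ℕ} (hm : Odd m) (hg : g ^ m = 1) :
    Nat.card {f : X → ZMod 2 // ∀ x, f ((q g : Equiv.Perm X) x) = f x} =
      4 * 2 ^ Module.finrank ℤ_[2]
        (LinearMap.ker ((a g : (Fin r → ℤ_[2]) →ₗ[ℤ_[2]] (Fin r → ℤ_[2])) - 1)) := by
  have hσ : (q g : Equiv.Perm X) ^ m = 1 := by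
    have h1 : (q g) ^ m = 1 := by rw [← map_pow, hg, map_one]
    have h2 := congrArg (Subtype.val) h1
    rw [SubgroupClass.coe_pow] at h2
    exact h2
  set σ : Equiv.Perm X := (q g : Equiv.Perm X) with hσd
  have hxe : Nonempty X := Fintype.card_pos_iff.mp (Nat.pos_of_ne_zero hX)
  have hstart : Nat.card {f : X → ZMod 2 // ∀ x, f (σ x) = f x} = Nat.card (FixI σ) := rfl
  rw [hstart]
  -- the sum
  let s : FixI σ →+ ZMod 2 :=
    { toFun := fun f => ∑ x, (f : X → ZMod 2) x
      map_zero' := by simp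
      map_add' := by
        intro f g
        simp [Finset.sum_add_distrib] }
  have hs : Function.Surjective s := by
    have h1 : ∃ f, s f = 1 := by
      obtain ⟨x0⟩ := hxe
      refine ⟨⟨FixAv σ m (Pi.single x0 1), FixAv_mem hσ _⟩, ?_⟩
      show ∑ x, FixAv σ m (Pi.single x0 1) x = 1
      rw [FixAv_sum σ hm]
      simp
    obtain ⟨f, hf⟩ := h1
    intro y
    have hy : y = 0 ∨ y = 1 := by
      revert y
      decide
    rcases hy with rfl | rfl
    · exact ⟨0, map_zero s⟩
    · exact ⟨f, hf⟩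
  have c1 : Nat.card (FixI σ) = 2 * Nat.card s.ker := by
    rw [Fix_card_hom s, AddMonoidHom.range_eq_top.mpr hs]
    congr 1
    rw [Nat.card_congr AddSubgroup.topEquiv.toEquiv]
    simp
  -- the homomorphism to the quotient
  let t : s.ker →+ (X → ZMod 2) ⧸ Cst X :=
    (QuotientAddGroup.mk' (Cst X)).comp ((FixI σ).subtype.comp s.ker.subtype)
  have ht : ∀ f : s.ker, t f = QuotientAddGroup.mk ((f : FixI σ) : X → ZMod 2) := fun f => rfl
  have hcst : ∀ c : ZMod 2, (fun _ : X => c) ∈ FixI σ := fun c x => rfl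
  have hcst0 : ∀ c : ZMod 2, (⟨fun _ : X => c, hcst c⟩ : FixI σ) ∈ s.ker := by
    intro c
    rw [AddMonoidHom.mem_ker]
    show ∑ _x : X, c = 0
    rw [Finset.sum_const, Finset.card_univ, nsmul_eq_mul, ZMod.natCast_eq_zero_iff_even.mpr hX', zero_mul]
  have c2 : Nat.card t.ker = 2 := by
    have e : ZMod 2 ≃ t.ker :=
      Equiv.ofBijective (fun c => ⟨⟨⟨fun _ : X => c, hcst c⟩, hcst0 c⟩, by
        rw [AddMonoidHom.mem_ker, ht]
        exact (QuotientAddGroup.eq_zero_iff _).mpr ⟨c, fun _ => rfl⟩⟩) (by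
        constructor
        · intro c d hcd
          obtain ⟨x0⟩ := hxe
          have h1 := congrArg (fun z : t.ker => ((z : s.ker) : FixI σ).1 x0) hcd
          exact h1
        · rintro ⟨⟨⟨f, hf⟩, hf0⟩, hft⟩
          rw [AddMonoidHom.mem_ker, ht] at hft
          obtain ⟨c, hc⟩ := (QuotientAddGroup.eq_zero_iff _).mp hft
          refine ⟨c, ?_⟩
          apply Subtype.ext
          apply Subtype.ext
          apply Subtype.ext
          funext x
          exact (hc x).symm)
    rw [← Nat.card_congr e]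
    simp
  have c3 : Nat.card s.ker = 2 * Nat.card t.range := by
    rw [Fix_card_hom t, c2, mul_comm]
  -- the fixed points
  set F := LinearMap.ker ((a g : (Fin r → ℤ_[2]) →ₗ[ℤ_[2]] (Fin r → ℤ_[2])) - 1) with hF
  have memF : ∀ v : Fin r → ℤ_[2], v ∈ F ↔ a g v = v := by
    intro v
    rw [hF, LinearMap.mem_ker, LinearMap.sub_apply, sub_eq_zero]
    rfl
  let u : F →+ (X → ZMod 2) ⧸ Cst X := p.comp F.subtype.toAddMonoidHom
  have hu : ∀ v : F, u v = p (v : Fin r → ℤ_[2]) := fun v => rfl
  have hu0 : ∀ v, u v = 0 ↔ ∃ w, v = w + w := by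
    intro v
    rw [hu, h.ker]
    constructor
    · rintro ⟨w, hw⟩
      have hv := (memF _).mp v.2
      have h1 : a g w = w := by
        rw [hw, map_add] at hv
        have h2 : (2 : ℤ_[2]) • (a g w - w) = 0 := by
          rw [two_smul]
          have : a g w - w + (a g w - w) = (a g w + a g w) - (w + w) := by abel
          rw [this, hv, sub_self]
        have h3 : a g w - w = 0 := by
          rcases smul_eq_zero.mp h2 with h4 | h4
          · exact absurd h4 two_ne_zero
          · exact h4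
        exact sub_eq_zero.mp h3
      exact ⟨⟨w, (memF w).mpr h1⟩, Subtype.ext hw⟩
    · rintro ⟨w, rfl⟩
      exact ⟨w, rfl⟩
  have c4 : Nat.card u.range = 2 ^ Module.finrank ℤ_[2] F := Fix_card_range u hu0
  -- the ranges are equal
  have two0 : ∀ y : (X → ZMod 2) ⧸ Cst X, y + y = 0 := by
    intro y
    obtain ⟨f, rfl⟩ := QuotientAddGroup.mk_surjective y
    rw [← QuotientAddGroup.mk_add]
    have : f + f = 0 := by
      funext x
      exact CharTwo.add_self_eq_zero _
    rw [this]
    rfl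
  have oddm : ∀ y : (X → ZMod 2) ⧸ Cst X, m • y = y := by
    intro y
    obtain ⟨n, hn⟩ := hm
    rw [hn, add_smul, mul_comm, mul_smul, two_smul, two0, smul_zero, one_smul, zero_add]
  have actk : ∀ (k : ℕ) (v : Fin r → ℤ_[2]) (f : X → ZMod 2), p v = QuotientAddGroup.mk f →
      p (a (g ^ k) v) = QuotientAddGroup.mk fun x => f ((σ⁻¹ ^ k) x) := by
    intro k v f hv
    rw [h.act (g ^ k) v f hv]
    have h1 : ((q (g ^ k) : Equiv.Perm X)⁻¹ : Equiv.Perm X) = σ⁻¹ ^ k := by
      rw [map_pow, SubgroupClass.coe_pow, inv_pow]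
    rw [h1]
  have hrange : u.range = t.range := by
    ext y
    rw [AddMonoidHom.mem_range, AddMonoidHom.mem_range]
    constructor
    · rintro ⟨v, rfl⟩
      -- y = p v, v fixed
      obtain ⟨f, hf, hfv⟩ := (h.ran (u v)).mp ⟨v, rfl⟩
      have hpv : p (v : Fin r → ℤ_[2]) = QuotientAddGroup.mk f := hfv.symm
      have hinv : ∀ k : ℕ, (QuotientAddGroup.mk fun x => f ((σ⁻¹ ^ k) x) : (X → ZMod 2) ⧸ Cst X) = u v := by
        intro k
        rw [← actk k v f hpv]
        have h1 : a (g ^ k) (v : Fin r → ℤ_[2]) = v := by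
          induction k with
          | zero => rw [pow_zero, map_one]; rfl
          | succ k ih =>
            rw [pow_succ, map_mul]
            show a (g ^ k) (a g v) = v
            rw [(memF _).mp v.2, ih]
        rw [h1]
        rfl
      refine ⟨⟨⟨FixAv σ m f, FixAv_mem hσ f⟩, ?_⟩, ?_⟩
      · rw [AddMonoidHom.mem_ker]
        show ∑ x, FixAv σ m f x = 0
        rw [FixAv_sum σ hm, hf]
      · rw [ht]
        show (QuotientAddGroup.mk (FixAv σ m f) : (X → ZMod 2) ⧸ Cst X) = u v
        have h1 : FixAv σ m f = ∑ k ∈ Finset.range m, fun x => f ((σ⁻¹ ^ k) x) := by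
          funext x
          rw [Finset.sum_apply]
          rfl
        rw [h1]
        have h2 : (QuotientAddGroup.mk (∑ k ∈ Finset.range m, fun x => f ((σ⁻¹ ^ k) x)) : (X → ZMod 2) ⧸ Cst X) =
            ∑ k ∈ Finset.range m, (QuotientAddGroup.mk fun x => f ((σ⁻¹ ^ k) x) : (X → ZMod 2) ⧸ Cst X) :=
          map_sum (QuotientAddGroup.mk' (Cst X)) _ _
        rw [h2, Finset.sum_congr rfl fun k _ => hinv k, Finset.sum_const, Finset.card_range, oddm]
    · rintro ⟨⟨⟨f, hfI⟩, hf0⟩, rfl⟩
      rw [ht]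
      show ∃ v, u v = QuotientAddGroup.mk f
      obtain ⟨v, hv⟩ := (h.ran (QuotientAddGroup.mk f)).mpr ⟨f, hf0, rfl⟩
      have hfk : ∀ k : ℕ, (fun x => f ((σ⁻¹ ^ k) x)) = f := by
        intro k
        induction k with
        | zero => rfl
        | succ k ih =>
          funext x
          rw [pow_succ', Equiv.Perm.mul_apply]
          have h1 := hfI (σ⁻¹ ((σ⁻¹ ^ k) x))
          have h2 : σ (σ⁻¹ ((σ⁻¹ ^ k) x)) = (σ⁻¹ ^ k) x := σ.apply_symm_apply _
          rw [h2] at h1
          rw [← h1]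
          exact congrFun ih x
      have hsum : a g (∑ k ∈ Finset.range m, a (g ^ k) v) = ∑ k ∈ Finset.range m, a (g ^ k) v := by
        have h1 : a g (∑ k ∈ Finset.range m, a (g ^ k) v) = ∑ k ∈ Finset.range m, a (g ^ (k + 1)) v := by
          rw [map_sum]
          refine Finset.sum_congr rfl fun k _ => ?_
          rw [pow_succ', map_mul]
          rfl
        rw [h1]
        have h3 := Finset.sum_range_succ (fun k => a (g ^ k) v) m
        have h4 := Finset.sum_range_succ' (fun k => a (g ^ k) v) m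
        rw [h3] at h4
        have h5 : a (g ^ m) v = a (g ^ 0) v := by rw [hg, pow_zero]
        rw [h5] at h4
        exact (add_right_cancel h4).symm
      refine ⟨⟨∑ k ∈ Finset.range m, a (g ^ k) v, (memF _).mpr hsum⟩, ?_⟩
      show p (∑ k ∈ Finset.range m, a (g ^ k) v) = QuotientAddGroup.mk f
      rw [map_sum, Finset.sum_congr rfl fun k _ => (actk k v f hv).trans (congrArg _ (hfk k)), Finset.sum_const,
        Finset.card_range, oddm]
  rw [c1, c3, ← hrange, c4]
  ring

end

end Pool.Agent.Lib.MP_89bcae_ag.Xs
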