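import Mathlib
import Pool.Agent.Lib.MP_89bcae_ag.Xs.Defs

/-!
# The heart of the permutation module modulo two
-/

open scoped Classical

namespace Pool.Agent.Lib.MP_89bcae_ag.Xs

section

variable {X : Type} [Fintype X]

private lemma g1_exists_notMem {s : Finset X} (h : s.card < Fintype.card X) : ∃ x, x ∉ s := by
  by_contra hcon
  push Not at hcon
  have : s = Finset.univ := Finset.eq_univ_iff_forall.2 hcon
  rw [this, Finset.card_univ] at h
  exact lt_irrefl _ h

private lemma g1_perm {a b c : X} :
    Equiv.swap a b * Equiv.swap a c ∈ alternatingGroup X ∨ a = b ∨ a = c := by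
  by_cases h1 : a = b
  · exact Or.inr (Or.inl h1)
  by_cases h2 : a = c
  · exact Or.inr (Or.inr h2)
  left
  rw [Equiv.Perm.mem_alternatingGroup, Equiv.Perm.sign_mul, Equiv.Perm.sign_swap h1,
    Equiv.Perm.sign_swap h2]
  decide

/-- `e_x + e_y` -/
private noncomputable def g1_pair (x y : X) : X → ZMod 2 := fun z => (if z = x then 1 else 0) + (if z = y then 1 else 0)

omit [Fintype X] in
private lemma g1_pair_self (x : X) : g1_pair x x = 0 := by
  funext z
  unfold g1_pair
  show _ = (0 : ZMod 2)
  split_ifs <;> decide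

private lemma g1_zmod (u v : ZMod 2) : u = v ∨ u = v + 1 := by
  revert u v
  decide

/-- transport of a pair -/
private lemma g1_transport {M : AddSubgroup (X → ZMod 2)}
    (hst : ∀ g ∈ alternatingGroup X, ∀ f ∈ M, (fun x => f (g⁻¹ x)) ∈ M)
    {u v w z : X} (huw : u ≠ w) (hvw : v ≠ w) (huz : u ≠ z) (hvz : v ≠ z) (hwz : w ≠ z)
    (huv : u ≠ v) (h : g1_pair u v ∈ M) : g1_pair u w ∈ M := by
  -- the permutation v -> w -> z -> v : swap v z * swap v w maps v to w, w to z
  have hg : Equiv.swap v z * Equiv.swap v w ∈ alternatingGroup X := by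
    rcases g1_perm (a := v) (b := z) (c := w) with h1 | h1 | h1
    · exact h1
    · exact absurd h1 hvz
    · exact absurd h1 hvw
  have := hst _ hg _ h
  have e : (fun x => g1_pair u v ((Equiv.swap v z * Equiv.swap v w)⁻¹ x)) = g1_pair u w := by
    funext x
    unfold g1_pair
    have h1 : ((Equiv.swap v z * Equiv.swap v w)⁻¹ x = u) ↔ x = u := by
      rw [Equiv.Perm.inv_eq_iff_eq]
      constructor
      · rintro rfl
        rw [Equiv.Perm.mul_apply, Equiv.swap_apply_of_ne_of_ne huv huw,
          Equiv.swap_apply_of_ne_of_ne huv huz]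
      · rintro rfl
        rw [Equiv.Perm.mul_apply, Equiv.swap_apply_of_ne_of_ne huv huw,
          Equiv.swap_apply_of_ne_of_ne huv huz]
    have h2 : ((Equiv.swap v z * Equiv.swap v w)⁻¹ x = v) ↔ x = w := by
      rw [Equiv.Perm.inv_eq_iff_eq, Equiv.Perm.mul_apply, Equiv.swap_apply_left,
        Equiv.swap_apply_of_ne_of_ne hvw.symm hwz]
    simp only [h1, h2]
  rw [e] at this
  exact this

/-- S-G1 (file `Xs/Hrt.lean`): a stable group of functions with sum `0` with a nonconstant element contains all of them. -/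
theorem heart_irreducible (hX : 6 ≤ Fintype.card X) (hX' : Even (Fintype.card X)) (M : AddSubgroup (X → ZMod 2))
    (hM : ∀ f ∈ M, ∑ x, f x = 0) (hst : ∀ g ∈ alternatingGroup X, ∀ f ∈ M, (fun x => f (g⁻¹ x)) ∈ M)
    {f : X → ZMod 2} (hf : f ∈ M) (hf' : f ∉ Cst X) : ∀ f' : X → ZMod 2, ∑ x, f' x = 0 → f' ∈ M := by
  -- two points with different values
  have hab : ∃ a b, f a ≠ f b := by
    by_contra hcon
    push Not at hcon
    have hne : Nonempty X := Fintype.card_pos_iff.1 (by omega)
    obtain ⟨x0⟩ := hne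
    exact hf' ⟨f x0, fun x => hcon x x0⟩
  obtain ⟨a, b, hab⟩ := hab
  have hne : a ≠ b := fun h => hab (by rw [h])
  obtain ⟨c, hc⟩ := g1_exists_notMem (s := ({a, b} : Finset X)) (by
    have := Finset.card_le_two (a := a) (b := b)
    omega)
  simp only [Finset.mem_insert, Finset.mem_singleton, not_or] at hc
  obtain ⟨hca, hcb⟩ := hc
  -- the three-cycle a -> c -> b -> a
  have hg : Equiv.swap a b * Equiv.swap a c ∈ alternatingGroup X := by
    rcases g1_perm (a := a) (b := b) (c := c) with h1 | h1 | h1
    · exact h1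
    · exact absurd h1 hne
    · exact absurd h1.symm hca
  have hmem := M.add_mem (hst _ hg _ hf) hf
  set g := Equiv.swap a b * Equiv.swap a c with hgdef
  have ia : g⁻¹ a = b := by
    rw [Equiv.Perm.inv_eq_iff_eq, hgdef, Equiv.Perm.mul_apply,
      Equiv.swap_apply_of_ne_of_ne hne.symm (Ne.symm hcb), Equiv.swap_apply_right]
  have ib : g⁻¹ b = c := by
    rw [Equiv.Perm.inv_eq_iff_eq, hgdef, Equiv.Perm.mul_apply, Equiv.swap_apply_right,
      Equiv.swap_apply_left]
  have ic : g⁻¹ c = a := by
    rw [Equiv.Perm.inv_eq_iff_eq, hgdef, Equiv.Perm.mul_apply, Equiv.swap_apply_left,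
      Equiv.swap_apply_of_ne_of_ne hca hcb]
  have ix : ∀ x, x ≠ a → x ≠ b → x ≠ c → g⁻¹ x = x := by
    intro x h1 h2 h3
    rw [Equiv.Perm.inv_eq_iff_eq, hgdef, Equiv.Perm.mul_apply,
      Equiv.swap_apply_of_ne_of_ne h1 h3, Equiv.swap_apply_of_ne_of_ne h1 h2]
  -- M contains a pair
  have hpair : ∃ u v, u ≠ v ∧ g1_pair u v ∈ M := by
    have hfab : f b = f a + 1 := by
      rcases g1_zmod (f b) (f a) with h | h
      · exact absurd h.symm hab
      · exact h
    have two : ∀ t : ZMod 2, t + t = 0 := by decide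
    have e1 : ∀ t : ZMod 2, t + 1 + t = 1 := by decide
    have e2 : ∀ t : ZMod 2, t + (t + 1) = 1 := by decide
    rcases g1_zmod (f c) (f a) with h | h
    · refine ⟨a, b, hne, ?_⟩
      have e : (fun x => f (g⁻¹ x)) + f = g1_pair a b := by
        funext x
        rw [Pi.add_apply]
        unfold g1_pair
        by_cases k1 : x = a
        · rw [k1, ia, if_pos rfl, if_neg hne, hfab, e1]
          rfl
        by_cases k2 : x = b
        · rw [k2, ib, if_neg hne.symm, if_pos rfl, h, hfab, e2]
          rfl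
        by_cases k3 : x = c
        · rw [k3, ic, if_neg hca, if_neg hcb, h, two]
          rfl
        · rw [ix x k1 k2 k3, if_neg k1, if_neg k2, two]
          rfl
      rw [← e]
      exact hmem
    · refine ⟨a, c, fun h => hca h.symm, ?_⟩
      have e : (fun x => f (g⁻¹ x)) + f = g1_pair a c := by
        funext x
        rw [Pi.add_apply]
        unfold g1_pair
        by_cases k1 : x = a
        · rw [k1, ia, if_pos rfl, if_neg (Ne.symm hca), hfab, e1]
          rfl
        by_cases k3 : x = c
        · rw [k3, ic, if_neg hca, if_pos rfl, h, e2]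
          rfl
        by_cases k2 : x = b
        · rw [k2, ib, if_neg hne.symm, if_neg (Ne.symm hcb), h, hfab, two]
          rfl
        · rw [ix x k1 k2 k3, if_neg k1, if_neg k3, two]
          rfl
      rw [← e]
      exact hmem
  obtain ⟨u, v, huv, hp⟩ := hpair
  -- all pairs with u
  have hall : ∀ w, g1_pair u w ∈ M := by
    intro w
    by_cases h1 : u = w
    · rw [← h1, g1_pair_self]
      exact M.zero_mem
    by_cases h2 : v = w
    · rw [← h2]
      exact hp
    obtain ⟨z, hz⟩ := g1_exists_notMem (s := ({u, v, w} : Finset X)) (by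
      have := Finset.card_le_three (a := u) (b := v) (c := w)
      omega)
    simp only [Finset.mem_insert, Finset.mem_singleton, not_or] at hz
    exact g1_transport hst h1 h2 (Ne.symm hz.1) (Ne.symm hz.2.1) (Ne.symm hz.2.2) huv hp
  intro f' hf0
  have e : f' = ∑ x, if f' x = 0 then 0 else g1_pair u x := by
    funext y
    rw [Finset.sum_apply]
    have e1 : ∀ x, (if f' x = 0 then (0 : X → ZMod 2) else g1_pair u x) y =
        f' x * (if y = u then 1 else 0) + (if y = x then f' x else 0) := by
      intro x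
      rcases g1_zmod (f' x) 0 with h | h
      · rw [if_pos h, h, zero_mul, ite_self, zero_add]
        rfl
      · rw [zero_add] at h
        rw [h, if_neg (by decide), one_mul]
        rfl
    rw [Finset.sum_congr rfl (fun x _ => e1 x), Finset.sum_add_distrib, ← Finset.sum_mul, hf0,
      zero_mul, zero_add, Finset.sum_ite_eq, if_pos (Finset.mem_univ y)]
  rw [e]
  refine M.sum_mem fun x _ => ?_
  split_ifs
  · exact M.zero_mem
  · exact hall x

/-- S-G1: the alternating group acts faithfully on the functions of sum `0` modulo the constants. -/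
theorem heart_faithful (hX : 5 ≤ Fintype.card X) {g : Equiv.Perm X}
    (h : ∀ f : X → ZMod 2, ∑ x, f x = 0 → (fun x => f (g⁻¹ x) - f x) ∈ Cst X) : g = 1 := by
  by_contra hg
  have hex : ∃ a, g a ≠ a := by
    by_contra hcon
    push Not at hcon
    exact hg (Equiv.ext hcon)
  obtain ⟨a, ha⟩ := hex
  obtain ⟨c, hc⟩ := g1_exists_notMem (s := ({a, g a} : Finset X)) (by
    have := Finset.card_le_two (a := a) (b := g a)
    omega)
  simp only [Finset.mem_insert, Finset.mem_singleton, not_or] at hc
  obtain ⟨hca, hcb⟩ := hc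
  obtain ⟨d, hd⟩ := g1_exists_notMem (s := ({a, g a, c, g c} : Finset X)) (by
    have := Finset.card_le_four (a := a) (b := g a) (c := c) (d := g c)
    omega)
  simp only [Finset.mem_insert, Finset.mem_singleton, not_or] at hd
  have hsum : ∑ x, g1_pair a c x = 0 := by
    unfold g1_pair
    rw [Finset.sum_add_distrib, Finset.sum_ite_eq', Finset.sum_ite_eq', if_pos (Finset.mem_univ _),
      if_pos (Finset.mem_univ _)]
    decide
  obtain ⟨t, ht⟩ := h _ hsum
  have h1 := ht (g a)
  have h2 := ht d
  have i1 : g⁻¹ d ≠ a := by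
    intro hh
    rw [Equiv.Perm.inv_eq_iff_eq] at hh
    exact hd.2.1 hh
  have i2 : g⁻¹ d ≠ c := by
    intro hh
    rw [Equiv.Perm.inv_eq_iff_eq] at hh
    exact hd.2.2.2 hh
  have i3 : g⁻¹ (g a) = a := by rw [Equiv.Perm.inv_eq_iff_eq]
  simp only [i3] at h1
  unfold g1_pair at h1 h2
  simp only [if_true, if_neg (Ne.symm hca), if_neg ha, if_neg (Ne.symm hcb)] at h1
  simp only [if_neg i1, if_neg i2, if_neg hd.1, if_neg hd.2.2.1] at h2
  rw [← h1] at h2
  revert h2
  decide

/-- S-G1: the order of the heart. -/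
theorem card_heart (hX : 2 ≤ Fintype.card X) (hX' : Even (Fintype.card X)) {r : ℕ}
    (p : (Fin r → ℤ_[2]) →+ (X → ZMod 2) ⧸ Cst X) (hker : ∀ v, p v = 0 ↔ ∃ w, v = w + w)
    (hran : ∀ y, (∃ v, p v = y) ↔ ∃ f : X → ZMod 2, ∑ x, f x = 0 ∧ QuotientAddGroup.mk f = y) :
    r + 2 = Fintype.card X := by
  have hne : Nonempty X := Fintype.card_pos_iff.1 (by omega)
  obtain ⟨x0⟩ := hne
  -- reduction modulo 2
  set π : (Fin r → ℤ_[2]) →+ (Fin r → ZMod 2) :=
    { toFun := fun v i => PadicInt.toZMod (v i)
      map_zero' := by funext i; exact map_zero _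
      map_add' := fun v w => by funext i; exact map_add _ _ _ } with hπ
  have hπs : Function.Surjective π := by
    intro y
    refine ⟨fun i => ((y i).val : ℤ_[2]), ?_⟩
    funext i
    show PadicInt.toZMod (((y i).val : ℕ) : ℤ_[2]) = y i
    rw [map_natCast, ZMod.natCast_zmod_val]
  have hk : p.ker = π.ker := by
    ext v
    rw [AddMonoidHom.mem_ker, AddMonoidHom.mem_ker, hker]
    constructor
    · rintro ⟨w, rfl⟩
      rw [map_add]
      funext i
      exact CharTwo.add_self_eq_zero _
    · intro hv
      have h1 : ∀ i, ∃ w : ℤ_[2], v i = w + w := by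
        intro i
        have h2 : PadicInt.toZMod (v i) = 0 := congrFun hv i
        have h3 : v i ∈ RingHom.ker (PadicInt.toZMod (p := 2)) := h2
        rw [PadicInt.ker_toZMod, PadicInt.maximalIdeal_eq_span_p, Ideal.mem_span_singleton] at h3
        obtain ⟨w, hw⟩ := h3
        refine ⟨w, ?_⟩
        rw [hw]
        push_cast
        ring
      choose w hw using h1
      exact ⟨w, funext hw⟩
  have hc1 : Nat.card p.range = 2 ^ r := by
    rw [← AddSubgroup.index_ker, hk, AddSubgroup.index_ker]
    have : π.range = ⊤ := AddMonoidHom.range_eq_top.2 hπs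
    rw [this, Nat.card_congr (AddSubgroup.topEquiv).toEquiv, Nat.card_eq_fintype_card,
      Fintype.card_fun, ZMod.card, Fintype.card_fin]
  -- the sum
  set s : (X → ZMod 2) →+ ZMod 2 :=
    { toFun := fun f => ∑ x, f x
      map_zero' := Finset.sum_const_zero
      map_add' := fun f g => Finset.sum_add_distrib } with hs
  have hss : Function.Surjective s := by
    intro y
    refine ⟨fun x => if x = x0 then y else 0, ?_⟩
    show ∑ x, (if x = x0 then y else 0) = y
    rw [Finset.sum_ite_eq', if_pos (Finset.mem_univ _)]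
  have hc2 : Nat.card s.ker * 2 = 2 ^ Fintype.card X := by
    have h1 := AddSubgroup.card_mul_index s.ker
    rw [AddSubgroup.index_ker] at h1
    have : s.range = ⊤ := AddMonoidHom.range_eq_top.2 hss
    rw [this, Nat.card_congr (AddSubgroup.topEquiv).toEquiv, Nat.card_zmod,
      Nat.card_eq_fintype_card (α := X → ZMod 2), Fintype.card_fun, ZMod.card] at h1
    exact h1
  -- the restriction of the projection
  set q : s.ker →+ (X → ZMod 2) ⧸ Cst X := (QuotientAddGroup.mk' (Cst X)).comp s.ker.subtype with hq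
  have hr : q.range = p.range := by
    ext y
    rw [AddMonoidHom.mem_range, AddMonoidHom.mem_range, hran]
    constructor
    · rintro ⟨⟨f, hf⟩, rfl⟩
      exact ⟨f, hf, rfl⟩
    · rintro ⟨f, hf, rfl⟩
      exact ⟨⟨f, hf⟩, rfl⟩
  have hconst : ∀ c : ZMod 2, (fun _ : X => c) ∈ s.ker := by
    intro c
    rw [AddMonoidHom.mem_ker]
    show ∑ _x : X, c = 0
    rw [Finset.sum_const, Finset.card_univ]
    obtain ⟨m, hm⟩ := hX'
    rw [hm, add_smul]
    exact CharTwo.add_self_eq_zero _
  have hc3 : Nat.card q.ker = 2 := by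
    have e : ZMod 2 ≃ q.ker :=
      { toFun := fun c => ⟨⟨fun _ => c, hconst c⟩, by
          rw [AddMonoidHom.mem_ker]
          show QuotientAddGroup.mk (fun _ : X => c) = (0 : (X → ZMod 2) ⧸ Cst X)
          rw [QuotientAddGroup.eq_zero_iff]
          exact ⟨c, fun _ => rfl⟩⟩
        invFun := fun f => f.1.1 x0
        left_inv := fun c => rfl
        right_inv := fun f => by
          obtain ⟨⟨f, hf⟩, hf2⟩ := f
          rw [AddMonoidHom.mem_ker] at hf2
          have h3 : QuotientAddGroup.mk f = (0 : (X → ZMod 2) ⧸ Cst X) := hf2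
          rw [QuotientAddGroup.eq_zero_iff] at h3
          obtain ⟨c, hc⟩ := h3
          apply Subtype.ext
          apply Subtype.ext
          funext x
          show f x0 = f x
          rw [hc, hc] }
    rw [← Nat.card_congr e, Nat.card_zmod]
  have h4 := AddSubgroup.card_mul_index q.ker
  rw [AddSubgroup.index_ker, hr, hc1, hc3] at h4
  rw [← h4] at hc2
  have h5 : 2 ^ (r + 2) = 2 ^ Fintype.card X := by
    rw [← hc2]
    ring
  exact Nat.pow_right_injective le_rfl h5

end

end Pool.Agent.Lib.MP_89bcae_ag.Xs
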