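import Mathlib

set_option autoImplicit false

open scoped Classical

namespace Pool.Agent.Lib.MP_89bcae_ag.Xs

section

variable {X : Type} [Fintype X]

/-- S-G2 (file `Xs/Alt.lean`): the alternating group does not act on small sets. -/
theorem alt_small (hX : 5 ≤ Fintype.card X) {Y : Type} [Fintype Y] (hY : Fintype.card Y < Fintype.card X)
    (φ : alternatingGroup X →* Equiv.Perm Y) : φ = 1 := by
  have hsimple : IsSimpleGroup (alternatingGroup X) :=
    alternatingGroup.isSimpleGroup (by rw [Nat.card_eq_fintype_card]; exact hX)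
  rcases (inferInstance : (MonoidHom.ker φ).Normal).eq_bot_or_eq_top with h | h
  · exfalso
    have hinj : Function.Injective φ := (MonoidHom.ker_eq_bot_iff φ).mp h
    have h1 : Nat.card (alternatingGroup X) ≤ Nat.card (Equiv.Perm Y) :=
      Nat.card_le_card_of_injective φ hinj
    have : Nontrivial X := Fintype.one_lt_card_iff_nontrivial.mp (by omega)
    have h2 := two_mul_nat_card_alternatingGroup (α := X)
    rw [Nat.card_perm, Nat.card_eq_fintype_card (α := Y)] at h1
    rw [Nat.card_perm, Nat.card_eq_fintype_card (α := X)] at h2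
    obtain ⟨m, hm⟩ : ∃ m, Fintype.card X = m + 1 := ⟨Fintype.card X - 1, by omega⟩
    have h3 : (Fintype.card Y).factorial ≤ m.factorial := Nat.factorial_le (by omega)
    rw [hm, Nat.factorial_succ] at h2
    have h4 : 0 < m.factorial := Nat.factorial_pos m
    have h5 : 5 * m.factorial ≤ (m + 1) * m.factorial := Nat.mul_le_mul_right _ (by omega)
    omega
  · exact MonoidHom.ker_eq_top_iff.mp h

end

end Pool.Agent.Lib.MP_89bcae_ag.Xs
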