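import Mathlib

/-!
# Endomorphisms of finite order congruent to the identity modulo 2
-/

namespace Pool.Agent.Lib.MP_89bcae_ag.Xs

private lemma tor_inj {r : ℕ} {U T : Module.End ℤ_[2] (Fin r → ℤ_[2])} (hU : U = 1 + T + T)
    {v : Fin r → ℤ_[2]} (hv : U v = 0) : v = 0 := by
  have two : ∀ w : Fin r → ℤ_[2], w + w = 0 → w = 0 := by
    intro w hw
    rw [← two_smul ℤ_[2] w] at hw
    rcases smul_eq_zero.mp hw with h | h
    · exact absurd h two_ne_zero
    · exact h
  have hK : LinearMap.ker U = ⊥ := by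
    apply Submodule.eq_bot_of_le_smul_of_le_jacobson_bot (Ideal.span {(2 : ℤ_[2])}) (LinearMap.ker U)
    · exact IsNoetherian.noetherian _
    · intro w hw
      rw [LinearMap.mem_ker] at hw
      have h1 : w = (2 : ℤ_[2]) • (-(T w)) := by
        rw [hU, LinearMap.add_apply, LinearMap.add_apply, Module.End.one_apply] at hw
        rw [two_smul]
        have : w = w + T w + T w + (-(T w) + -(T w)) := by abel
        rw [hw, zero_add] at this
        exact this
      have h2 : -(T w) ∈ LinearMap.ker U := by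
        rw [LinearMap.mem_ker]
        apply two
        rw [← map_add, ← two_smul ℤ_[2] (-(T w)), ← h1]
        exact hw
      rw [h1]
      exact Submodule.smul_mem_smul (Ideal.mem_span_singleton_self _) h2
    · rw [IsLocalRing.jacobson_eq_maximalIdeal ⊥ bot_ne_top, Ideal.span_singleton_le_iff_mem]
      have h3 := PadicInt.maximalIdeal_eq_span_p (p := 2)
      rw [h3]
      exact_mod_cast Ideal.mem_span_singleton_self _
  have h4 : v ∈ LinearMap.ker U := by rw [LinearMap.mem_ker]; exact hv
  rw [hK] at h4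
  exact (Submodule.mem_bot _).mp h4

private lemma tor_pow {r : ℕ} {A B : Module.End ℤ_[2] (Fin r → ℤ_[2])} (h : A = 1 + B + B) (j : ℕ) :
    ∃ T : Module.End ℤ_[2] (Fin r → ℤ_[2]), A ^ j = 1 + T + T := by
  induction j with
  | zero => exact ⟨0, by simp⟩
  | succ j ih =>
    obtain ⟨T, hT⟩ := ih
    refine ⟨T + B + T * B + T * B, ?_⟩
    rw [pow_succ, hT, h]
    simp only [mul_add, add_mul, mul_one, one_mul]
    abel

private lemma tor_sum {r : ℕ} {A B : Module.End ℤ_[2] (Fin r → ℤ_[2])} (h : A = 1 + B + B) (m : ℕ) :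
    ∃ T : Module.End ℤ_[2] (Fin r → ℤ_[2]),
      ∑ j ∈ Finset.range m, A ^ j = (m : Module.End ℤ_[2] (Fin r → ℤ_[2])) + T + T := by
  induction m with
  | zero => exact ⟨0, by simp⟩
  | succ m ih =>
    obtain ⟨T, hT⟩ := ih
    obtain ⟨T', hT'⟩ := tor_pow h m
    refine ⟨T + T', ?_⟩
    rw [Finset.sum_range_succ, hT, hT']
    push_cast
    abel

private lemma tor_odd {r : ℕ} {A B : Module.End ℤ_[2] (Fin r → ℤ_[2])} (h : A = 1 + B + B) {m : ℕ}
    (hm : Odd m) (hA : A ^ m = 1) : A = 1 := by
  obtain ⟨T, hT⟩ := tor_sum h m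
  obtain ⟨c, hc⟩ := hm
  have h1 := geom_sum_mul A m
  rw [hA, sub_self] at h1
  have hU : ∑ j ∈ Finset.range m, A ^ j =
      1 + ((c : Module.End ℤ_[2] (Fin r → ℤ_[2])) + T) + ((c : Module.End ℤ_[2] (Fin r → ℤ_[2])) + T) := by
    rw [hT, hc]
    push_cast
    rw [two_mul]
    abel
  apply LinearMap.ext
  intro v
  have h2 : (∑ j ∈ Finset.range m, A ^ j) ((A - 1) v) = 0 := by
    rw [← Module.End.mul_apply, h1]
    rfl
  have h3 := tor_inj hU h2
  rw [LinearMap.sub_apply] at h3
  exact sub_eq_zero.mp h3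

private lemma tor_four {r : ℕ} (m : ℕ) : 0 < m → ∀ {A C : Module.End ℤ_[2] (Fin r → ℤ_[2])},
    A = 1 + (C + C) + (C + C) → A ^ m = 1 → A = 1 := by
  induction m using Nat.strong_induction_on with
  | _ m ih =>
    intro hm A C hA hAm
    rcases Nat.even_or_odd m with h | h
    · obtain ⟨m', hm'⟩ := h
      have h1 : A ^ 2 = 1 + ((C + C + (C + C) * (C + C)) + (C + C + (C + C) * (C + C))) +
          ((C + C + (C + C) * (C + C)) + (C + C + (C + C) * (C + C))) := by
        rw [pow_two, hA]
        simp only [mul_add, add_mul, mul_one, one_mul]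
        abel
      have h2 : (A ^ 2) ^ m' = 1 := by
        rw [← pow_mul, two_mul, ← hm', hAm]
      have h3 := ih m' (by omega) (by omega) h1 h2
      apply LinearMap.ext
      intro v
      have h4 : (A + 1) * (A - 1) = 0 := by
        rw [add_mul, mul_sub, one_mul, mul_one, ← pow_two, h3]
        abel
      have h5 : (A + 1) ((A - 1) v) = 0 := by
        rw [← Module.End.mul_apply, h4]
        rfl
      have h6 : (1 + C + C : Module.End ℤ_[2] (Fin r → ℤ_[2])) ((A - 1) v) = 0 := by
        have h7 : A + 1 = (2 : ℤ_[2]) • (1 + C + C : Module.End ℤ_[2] (Fin r → ℤ_[2])) := by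
          rw [two_smul, hA]
          abel
        rw [h7, LinearMap.smul_apply] at h5
        rcases smul_eq_zero.mp h5 with h8 | h8
        · exact absurd h8 two_ne_zero
        · exact h8
      have h9 := tor_inj rfl h6
      rw [LinearMap.sub_apply] at h9
      exact sub_eq_zero.mp h9
    · exact tor_odd (B := C + C) hA h hAm

/-- S-G3 (file `Xs/Tor.lean`): the elements of finite order congruent to `1` modulo `2` have order at most `2`. -/
theorem sq_eq_one {r : ℕ} {A B : Module.End ℤ_[2] (Fin r → ℤ_[2])} (h : A = 1 + B + B) {m : ℕ} (hm : 0 < m)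
    (hA : A ^ m = 1) : A ^ 2 = 1 := by
  apply tor_four (C := B + B * B) m hm
  · rw [pow_two, h]
    simp only [mul_add, add_mul, mul_one, one_mul]
    abel
  · rw [← pow_mul, mul_comm, pow_mul, hA, one_pow]

end Pool.Agent.Lib.MP_89bcae_ag.Xs
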