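import Mathlib
import Pool.Agent.Lib.MP_89bcae_ag.Xs.Defs
import Pool.Agent.Lib.MP_89bcae_ag.Xs.Tor
import Pool.Agent.Lib.MP_89bcae_ag.Xs.Alt
import Pool.Agent.Lib.MP_89bcae_ag.Xs.Hrt

/-!
# The kernel modulo 2 of a lift of the heart is contained in `± 1`
-/

open scoped Classical

namespace Pool.Agent.Lib.MP_89bcae_ag.Xs

section

variable {J : Type} [AddCommGroup J] [Module (ZMod 2) J]

private lemma ker_add_self (x : J) : x + x = 0 := by
  have h : (2 : ZMod 2) • x = 0 := by
    rw [show (2 : ZMod 2) = 0 from rfl, zero_smul]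
  rwa [two_smul] at h

private lemma ker_mem {w : Module.End (ZMod 2) J} (hw : w * w = w) {μ : ZMod 2} {b : J} :
    b ∈ w.maxGenEigenspace μ ↔ w b = μ • b := by
  have hg : (w - μ • (1 : Module.End (ZMod 2) J)) * (w - μ • (1 : Module.End (ZMod 2) J)) =
      w - μ • (1 : Module.End (ZMod 2) J) := by
    have hμ : μ = 0 ∨ μ = 1 := by
      fin_cases μ
      · exact Or.inl rfl
      · exact Or.inr rfl
    rcases hμ with rfl | rfl
    · rw [zero_smul, sub_zero, hw]
    · rw [one_smul, sub_mul, mul_sub, mul_sub, hw, mul_one, one_mul, mul_one]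
      ext x
      simp only [LinearMap.sub_apply, Module.End.one_apply]
      rw [sub_self, zero_sub, neg_sub, sub_eq_sub_iff_add_eq_add, ker_add_self, ker_add_self]
  rw [Module.End.mem_maxGenEigenspace]
  constructor
  · rintro ⟨n, hn⟩
    cases n with
    | zero =>
      rw [pow_zero, Module.End.one_apply] at hn
      rw [hn, map_zero, smul_zero]
    | succ n =>
      have h1 : ∀ n : ℕ, (w - μ • (1 : Module.End (ZMod 2) J)) ^ (n + 1) =
          w - μ • (1 : Module.End (ZMod 2) J) := by
        intro n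
        induction n with
        | zero => rw [zero_add, pow_one]
        | succ n ih => rw [pow_succ, ih, hg]
      rw [h1, LinearMap.sub_apply, LinearMap.smul_apply, Module.End.one_apply] at hn
      exact sub_eq_zero.1 hn
  · intro h
    refine ⟨1, ?_⟩
    rw [pow_one, LinearMap.sub_apply, LinearMap.smul_apply, Module.End.one_apply, h, sub_self]

/-- A family of commuting idempotents, permuted by a group which acts irreducibly and through the alternating group
of a large set, consists of `0` and `1`. -/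
private theorem ker_aux {X : Type} [Fintype X] (hX : 5 ≤ Fintype.card X) {H : Type} [Group H]
    (q : H →* alternatingGroup X) (hq : Function.Surjective q) [Module.Finite (ZMod 2) J]
    (hJ : Module.finrank (ZMod 2) J < Fintype.card X) (ρ : H →* Module.End (ZMod 2) J)
    (hirr : ∀ B : Submodule (ZMod 2) J, (∀ h, ∀ b ∈ B, ρ h b ∈ B) → B = ⊥ ∨ B = ⊤)
    (f : H → Module.End (ZMod 2) J) (hid : ∀ k, f k * f k = f k) (hcomm : ∀ k k', Commute (f k) (f k'))
    (hc : ∀ h k, f (h * k * h⁻¹) * ρ h = ρ h * f k) (htriv : ∀ h, q h = 1 → ∀ k, f (h * k * h⁻¹) = f k) :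
    ∀ k, f k = 0 ∨ f k = 1 := by
  intro k
  rcases subsingleton_or_nontrivial J with hs | hnt
  · left
    ext x
    exact Subsingleton.elim _ _
  set E : (H → ZMod 2) → Submodule (ZMod 2) J := fun χ => ⨅ i, (f i).maxGenEigenspace (χ i) with hE
  have hmem : ∀ χ b, b ∈ E χ ↔ ∀ i, f i b = χ i • b := by
    intro χ b
    rw [hE]
    simp only [Submodule.mem_iInf]
    exact forall_congr' fun i => ker_mem (hid i)
  have hmt : ∀ i j (φ : ZMod 2), Set.MapsTo (f i) ((f j).maxGenEigenspace φ) ((f j).maxGenEigenspace φ) := by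
    intro i j φ b hb
    rw [SetLike.mem_coe, ker_mem (hid j)] at hb ⊢
    rw [← Module.End.mul_apply, (hcomm j i).eq, Module.End.mul_apply, hb, map_smul]
  have hind : iSupIndep E := Module.End.independent_iInf_maxGenEigenspace_of_forall_mapsTo f hmt
  have htop : ⨆ χ, E χ = ⊤ := by
    refine Module.End.iSup_iInf_maxGenEigenspace_eq_top_of_forall_mapsTo f hmt fun i => ?_
    rw [eq_top_iff]
    intro b _
    have h1 : f i b ∈ ⨆ μ, (f i).maxGenEigenspace μ := by
      refine Submodule.mem_iSup_of_mem 1 ((ker_mem (hid i)).2 ?_)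
      rw [← Module.End.mul_apply, hid, one_smul]
    have h2 : b - f i b ∈ ⨆ μ, (f i).maxGenEigenspace μ := by
      refine Submodule.mem_iSup_of_mem 0 ((ker_mem (hid i)).2 ?_)
      rw [map_sub, ← Module.End.mul_apply, hid, sub_self, zero_smul]
    have h3 := add_mem h1 h2
    rwa [add_sub_cancel] at h3
  have hρ : ∀ h b, ρ h⁻¹ (ρ h b) = b := fun h b => by
    rw [← Module.End.mul_apply, ← map_mul, inv_mul_cancel, map_one, Module.End.one_apply]
  -- the action on the characters
  have hmove : ∀ (h : H) (χ : H → ZMod 2) (b : J), b ∈ E χ → ρ h b ∈ E fun k => χ (h⁻¹ * k * h) := by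
    intro h χ b hb
    rw [hmem] at hb ⊢
    intro i
    have h1 := LinearMap.congr_fun (hc h (h⁻¹ * i * h)) b
    rw [Module.End.mul_apply, Module.End.mul_apply, hb, map_smul] at h1
    rw [← h1]
    congr 2
    group
  have hne : ∀ (h : H) (χ : H → ZMod 2), E χ ≠ ⊥ → E (fun k => χ (h⁻¹ * k * h)) ≠ ⊥ := by
    intro h χ hχ
    obtain ⟨b, hb, hb0⟩ := (Submodule.ne_bot_iff _).1 hχ
    refine (Submodule.ne_bot_iff _).2 ⟨ρ h b, hmove h χ b hb, fun h0 => hb0 ?_⟩
    rw [← hρ h b, h0, map_zero]
  let act : MulAction H {χ : H → ZMod 2 // E χ ≠ ⊥} :=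
    { smul := fun h χ => ⟨fun k => χ.1 (h⁻¹ * k * h), hne h χ.1 χ.2⟩
      one_smul := fun χ => Subtype.ext (funext fun k => by
        show χ.1 (1⁻¹ * k * 1) = χ.1 k
        rw [inv_one, one_mul, mul_one])
      mul_smul := fun h h' χ => Subtype.ext (funext fun k => by
        show χ.1 ((h * h')⁻¹ * k * (h * h')) = χ.1 (h'⁻¹ * (h⁻¹ * k * h) * h')
        rw [mul_inv_rev]
        simp only [mul_assoc]) }
  have hfin : Finite {χ : H → ZMod 2 // E χ ≠ ⊥} := by
    have h1 := hind.subtype_ne_bot_le_finrank_aux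
    exact Cardinal.lt_aleph0_iff_finite.1 (lt_of_le_of_lt h1 Cardinal.natCast_lt_aleph0)
  have hft : Fintype {χ : H → ZMod 2 // E χ ≠ ⊥} := Fintype.ofFinite _
  have hcard : Fintype.card {χ : H → ZMod 2 // E χ ≠ ⊥} < Fintype.card X :=
    lt_of_le_of_lt hind.subtype_ne_bot_le_finrank hJ
  let ψ : H →* Equiv.Perm {χ : H → ZMod 2 // E χ ≠ ⊥} := MulAction.toPermHom H _
  have hψ : ∀ (h : H) (χ : {χ : H → ZMod 2 // E χ ≠ ⊥}) (k : H), (ψ h χ).1 k = χ.1 (h⁻¹ * k * h) :=
    fun h χ k => rfl
  have hker : q.ker ≤ ψ.ker := by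
    intro h hh
    rw [MonoidHom.mem_ker] at hh ⊢
    ext χ k
    rw [hψ, Equiv.Perm.one_apply]
    obtain ⟨b, hb, hb0⟩ := (Submodule.ne_bot_iff _).1 χ.2
    have hh' : q h⁻¹ = 1 := by rw [map_inv, hh, inv_one]
    have h1 := htriv h⁻¹ hh' k
    rw [inv_inv] at h1
    have h2 := ((hmem _ _).1 hb) (h⁻¹ * k * h)
    have h3 := ((hmem _ _).1 hb) k
    rw [h1, h3] at h2
    exact (smul_left_injective (ZMod 2) hb0 h2).symm
  let φ : alternatingGroup X →* Equiv.Perm {χ : H → ZMod 2 // E χ ≠ ⊥} :=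
    q.liftOfSurjective hq ⟨ψ, hker⟩
  have hφψ : ∀ h, φ (q h) = ψ h := fun h => by
    exact MonoidHom.liftOfRightInverse_comp_apply q (Function.surjInv hq)
      (Function.rightInverse_surjInv hq) ⟨ψ, hker⟩ h
  have hφ : φ = 1 := alt_small hX hcard φ
  have hψ1 : ∀ h, ψ h = 1 := fun h => by rw [← hφψ, hφ, MonoidHom.one_apply]
  -- a nonzero eigenspace
  have hex : ∃ χ, E χ ≠ ⊥ := by
    by_contra hcon
    push Not at hcon
    have h1 : (⊤ : Submodule (ZMod 2) J) = ⊥ := by
      rw [← htop]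
      exact iSup_eq_bot.2 hcon
    exact top_ne_bot h1
  obtain ⟨χ, hχ⟩ := hex
  have hstab : ∀ h, ∀ b ∈ E χ, ρ h b ∈ E χ := by
    intro h b hb
    have h1 := hmove h χ b hb
    have h2 : (fun k => χ (h⁻¹ * k * h)) = χ := by
      have h3 := congrArg (fun s : Equiv.Perm {χ : H → ZMod 2 // E χ ≠ ⊥} => (s ⟨χ, hχ⟩).1) (hψ1 h)
      exact h3
    rwa [h2] at h1
  rcases hirr (E χ) hstab with h1 | h1
  · exact absurd h1 hχ
  · have h2 : ∀ b, f k b = χ k • b := fun b => (hmem χ b).1 (h1 ▸ Submodule.mem_top) k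
    have h3 : χ k = 0 ∨ χ k = 1 := by
      generalize χ k = μ
      fin_cases μ
      · exact Or.inl rfl
      · exact Or.inr rfl
    rcases h3 with h3 | h3
    · left
      ext b
      rw [h2, h3, zero_smul, LinearMap.zero_apply]
    · right
      ext b
      rw [h2, h3, one_smul, Module.End.one_apply]

end

/-! ### reduction modulo 2 -/

section

variable {r : ℕ}

private lemma ker_two {v w : Fin r → ℤ_[2]} (h : v + v = w + w) : v = w := by
  rw [← two_smul ℤ_[2] v, ← two_smul ℤ_[2] w] at h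
  exact smul_right_injective _ (two_ne_zero : (2 : ℤ_[2]) ≠ 0) h

private lemma ker_half {f : Module.End ℤ_[2] (Fin r → ℤ_[2])} (h : ∀ v, ∃ w, f v = w + w) :
    ∃ c : Module.End ℤ_[2] (Fin r → ℤ_[2]), f = c + c := by
  choose c hc using h
  refine ⟨{ toFun := c, map_add' := fun v w => ker_two ?_, map_smul' := fun s v => ker_two ?_ }, ?_⟩
  · rw [← hc, map_add, hc, hc]
    abel
  · rw [← hc, map_smul, hc, RingHom.id_apply, smul_add]
  · exact LinearMap.ext fun v => hc v

/-- An idempotent which vanishes modulo `2` vanishes. -/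
private lemma ker_idem {e : Module.End ℤ_[2] (Fin r → ℤ_[2])} (he : e * e = e)
    (h : ∀ v, ∃ w, e v = w + w) : e = 0 := by
  have hK : LinearMap.range e = ⊥ := by
    apply Submodule.eq_bot_of_le_smul_of_le_jacobson_bot (Ideal.span {(2 : ℤ_[2])}) (LinearMap.range e)
    · exact IsNoetherian.noetherian _
    · rintro _ ⟨v, rfl⟩
      obtain ⟨w, hw⟩ := h v
      have h1 : e v = (2 : ℤ_[2]) • e w := by
        rw [two_smul, ← map_add, ← hw, ← Module.End.mul_apply, he]
      rw [h1]
      exact Submodule.smul_mem_smul (Ideal.mem_span_singleton_self _) ⟨w, rfl⟩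
    · rw [IsLocalRing.jacobson_eq_maximalIdeal ⊥ bot_ne_top, Ideal.span_singleton_le_iff_mem]
      have h3 := PadicInt.maximalIdeal_eq_span_p (p := 2)
      rw [h3]
      exact_mod_cast Ideal.mem_span_singleton_self _
  exact LinearMap.range_eq_bot.1 hK

variable {J : Type} [AddCommGroup J]

private noncomputable def kerBar (p : (Fin r → ℤ_[2]) →+ J) (hp : Function.Surjective p)
    (hk : ∀ v, p v = 0 ↔ ∃ w, v = w + w) (f : Module.End ℤ_[2] (Fin r → ℤ_[2])) : J →+ J :=
  p.liftOfSurjective hp ⟨p.comp f.toAddMonoidHom, fun v hv => by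
    rw [AddMonoidHom.mem_ker] at hv ⊢
    obtain ⟨w, rfl⟩ := (hk v).1 hv
    refine (hk _).2 ⟨f w, ?_⟩
    exact map_add f w w⟩

private lemma kerBar_apply (p : (Fin r → ℤ_[2]) →+ J) (hp : Function.Surjective p)
    (hk : ∀ v, p v = 0 ↔ ∃ w, v = w + w) (f : Module.End ℤ_[2] (Fin r → ℤ_[2])) (v : Fin r → ℤ_[2]) :
    kerBar p hp hk f (p v) = p (f v) :=
  AddMonoidHom.liftOfRightInverse_comp_apply p (Function.surjInv hp)
    (Function.rightInverse_surjInv hp) ⟨p.comp f.toAddMonoidHom, _⟩ v

end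

section

variable {X : Type} [Fintype X] {H : Type} [Group H] [Finite H] {r : ℕ}

/-- S-G4 (file `Xs/Ker.lean`): the kernel modulo `2` is contained in `± 1`. -/
theorem ker_small (hX : 6 ≤ Fintype.card X) (hX' : Even (Fintype.card X))
    {a : H →* ((Fin r → ℤ_[2]) ≃ₗ[ℤ_[2]] (Fin r → ℤ_[2]))} {q : H →* alternatingGroup X}
    {p : (Fin r → ℤ_[2]) →+ (X → ZMod 2) ⧸ Cst X} (h : HLift a q p) {g : H} (hg : q g = 1) :
    (∀ v, a g v = v) ∨ ∀ v, a g v = -v := by
  -- the heart
  let J : AddSubgroup ((X → ZMod 2) ⧸ Cst X) := p.range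
  let p' : (Fin r → ℤ_[2]) →+ J := p.rangeRestrict
  have hp' : ∀ v, ((p' v : J) : (X → ZMod 2) ⧸ Cst X) = p v := fun v => rfl
  have hps : Function.Surjective p' := p.rangeRestrict_surjective
  have hpk : ∀ v, p' v = 0 ↔ ∃ w, v = w + w := by
    intro v
    rw [← h.ker v, ← hp', ZeroMemClass.coe_eq_zero]
  have htwo : ∀ x : J, 2 • x = 0 := by
    intro x
    obtain ⟨v, rfl⟩ := hps x
    rw [two_nsmul, ← map_add]
    exact (hpk _).2 ⟨v, rfl⟩
  let mod : Module (ZMod 2) J := AddCommGroup.zmodModule htwo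
  have hJfin : Finite J := inferInstance
  have hmf : Module.Finite (ZMod 2) J := inferInstance
  have hrank : Module.finrank (ZMod 2) J < Fintype.card X := by
    have h1 : Nat.card J = 2 ^ Module.finrank (ZMod 2) J := by
      have h2 := Module.natCard_eq_pow_finrank (K := ZMod 2) (V := J)
      rwa [Nat.card_zmod] at h2
    have h3 : Nat.card J ≤ Nat.card ((X → ZMod 2) ⧸ Cst X) :=
      Nat.card_le_card_of_injective _ J.subtype_injective
    have h4 := AddSubgroup.card_eq_card_quotient_mul_card_addSubgroup (Cst X)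
    rw [Nat.card_fun, Nat.card_zmod, Nat.card_eq_fintype_card] at h4
    have hXne : Nonempty X := Fintype.card_pos_iff.1 (by omega)
    have h5 : 1 < Nat.card (Cst X) := by
      have : Nontrivial (Cst X) := by
        refine ⟨⟨⟨fun _ => 0, 0, fun _ => rfl⟩, ⟨fun _ => 1, 1, fun _ => rfl⟩, fun h0 => ?_⟩⟩
        have h6 := congrFun (Subtype.ext_iff.1 h0) hXne.some
        exact zero_ne_one h6
      exact Finite.one_lt_card
    have h6 : 0 < Nat.card ((X → ZMod 2) ⧸ Cst X) := Nat.card_pos
    have h7 : 2 ^ Module.finrank (ZMod 2) J < 2 ^ Fintype.card X := by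
      rw [← h1, h4]
      nlinarith
    exact (Nat.pow_lt_pow_iff_right (by norm_num)).1 h7
  let bar : Module.End ℤ_[2] (Fin r → ℤ_[2]) → Module.End (ZMod 2) J := fun f =>
    (kerBar p' hps hpk f).toZModLinearMap 2
  have hbar : ∀ f v, bar f (p' v) = p' (f v) := fun f v => kerBar_apply p' hps hpk f v
  have hbe : ∀ {s t : Module.End (ZMod 2) J}, (∀ v, s (p' v) = t (p' v)) → s = t := by
    intro s t hst
    ext1 x
    obtain ⟨v, rfl⟩ := hps x
    exact hst v
  let ρ : H →* Module.End (ZMod 2) J :=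
    { toFun := fun s => bar (a s : (Fin r → ℤ_[2]) →ₗ[ℤ_[2]] (Fin r → ℤ_[2]))
      map_one' := hbe fun v => by
        rw [hbar, map_one]
        rfl
      map_mul' := fun s t => hbe fun v => by
        rw [hbar, Module.End.mul_apply, hbar, hbar, map_mul]
        rfl }
  have hρ : ∀ s v, ρ s (p' v) = p' (a s v) := fun s v => hbar _ v
  -- irreducibility
  have hirr : ∀ B : Submodule (ZMod 2) J, (∀ s, ∀ b ∈ B, ρ s b ∈ B) → B = ⊥ ∨ B = ⊤ := by
    intro B hB
    by_cases hB0 : B = ⊥
    · exact Or.inl hB0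
    right
    obtain ⟨y, hy, hy0⟩ := (Submodule.ne_bot_iff _).1 hB0
    let M : AddSubgroup (X → ZMod 2) :=
      { carrier := {f | ∑ x, f x = 0 ∧ ∃ y ∈ B, ((y : J) : (X → ZMod 2) ⧸ Cst X) = QuotientAddGroup.mk f}
        zero_mem' := ⟨by simp, 0, B.zero_mem, rfl⟩
        add_mem' := by
          rintro f f' ⟨h1, y1, h2, h3⟩ ⟨h1', y1', h2', h3'⟩
          refine ⟨?_, y1 + y1', B.add_mem h2 h2', ?_⟩
          · simp only [Pi.add_apply, Finset.sum_add_distrib, h1, h1', add_zero]
          · rw [AddSubgroup.coe_add, h3, h3']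
            rfl
        neg_mem' := by
          rintro f ⟨h1, y1, h2, h3⟩
          refine ⟨?_, -y1, B.neg_mem h2, ?_⟩
          · simp only [Pi.neg_apply, Finset.sum_neg_distrib, h1, neg_zero]
          · rw [AddSubgroup.coe_neg, h3]
            rfl }
    obtain ⟨v, hv⟩ := hps y
    obtain ⟨f, hf, hfy⟩ := (h.ran (y : (X → ZMod 2) ⧸ Cst X)).1 ⟨v, by rw [← hp', hv]⟩
    have hfC : f ∉ Cst X := by
      intro hc
      apply hy0
      rw [← ZeroMemClass.coe_eq_zero, ← hfy]
      exact (QuotientAddGroup.eq_zero_iff f).2 hc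
    have hall := heart_irreducible hX hX' M (fun f hf => hf.1) (by
      rintro s hs f ⟨h1, y1, h2, h3⟩
      obtain ⟨t, ht⟩ := h.surj ⟨s, hs⟩
      refine ⟨?_, ρ t y1, hB t y1 h2, ?_⟩
      · rw [← h1]
        exact Equiv.sum_comp (s⁻¹ : Equiv.Perm X) f
      · obtain ⟨w, rfl⟩ := hps y1
        rw [hρ, hp']
        have h4 := h.act t w f (by rw [← hp', h3])
        rw [ht] at h4
        exact h4) (f := f) ⟨hf, y, hy, hfy.symm⟩ hfC
    rw [eq_top_iff]
    intro z _
    obtain ⟨w, hw⟩ := hps z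
    obtain ⟨f', hf', hfz⟩ := (h.ran (z : (X → ZMod 2) ⧸ Cst X)).1 ⟨w, by rw [← hp', hw]⟩
    obtain ⟨_, z', hz', hz⟩ := hall f' hf'
    rw [hfz] at hz
    rwa [← Subtype.ext hz]
  -- the idempotents
  have hid : ∀ k : H, q k = 1 → ∃ e : Module.End ℤ_[2] (Fin r → ℤ_[2]), e * e = e ∧
      ∀ v, a k v = v - e v - e v := by
    intro k hk
    obtain ⟨B, hB⟩ := ker_half (f := (a k : (Fin r → ℤ_[2]) →ₗ[ℤ_[2]] (Fin r → ℤ_[2])) - 1) (fun v => by
      refine (hpk _).1 ?_
      show p' (a k v - v) = 0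
      rw [map_sub, sub_eq_zero]
      apply Subtype.ext
      rw [hp', hp']
      obtain ⟨f, hf⟩ := QuotientAddGroup.mk_surjective (p v)
      have h1 := h.act k v f hf.symm
      rw [hk] at h1
      rw [h1, ← hf]
      rfl)
    have hA : (a k : (Fin r → ℤ_[2]) →ₗ[ℤ_[2]] (Fin r → ℤ_[2])) = 1 + B + B := by
      rw [add_assoc, ← hB]
      abel
    have hpow : ∀ n : ℕ, (a k : (Fin r → ℤ_[2]) →ₗ[ℤ_[2]] (Fin r → ℤ_[2])) ^ n =
        (a (k ^ n) : (Fin r → ℤ_[2]) →ₗ[ℤ_[2]] (Fin r → ℤ_[2])) := by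
      intro n
      induction n with
      | zero => rw [pow_zero, pow_zero, map_one]; rfl
      | succ n ih => rw [pow_succ, pow_succ, map_mul, ih]; rfl
    have hsq := sq_eq_one hA (m := orderOf k) (orderOf_pos k) (by
      rw [hpow, pow_orderOf_eq_one, map_one]
      rfl)
    have hBB : B * B = -B := by
      refine LinearMap.ext fun v => ?_
      have h1 := LinearMap.congr_fun hsq v
      rw [pow_two, hA] at h1
      simp only [mul_add, add_mul, mul_one, one_mul, LinearMap.add_apply, Module.End.one_apply] at h1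
      have h2 : (B v + (B * B) v) + (B v + (B * B) v) + ((B v + (B * B) v) + (B v + (B * B) v)) =
          (0 + 0) + (0 + 0) := by
        have h3 : v + B v + B v + (B v + (B * B) v + (B * B) v) +
          (B v + (B * B) v + (B * B) v) - v = 0 := by rw [h1, sub_self]
        rw [add_zero, add_zero, ← h3]
        abel
      have h4 := ker_two (ker_two h2)
      rw [LinearMap.neg_apply]
      exact (neg_eq_of_add_eq_zero_right h4).symm
    refine ⟨-B, LinearMap.ext fun v => ?_, fun v => ?_⟩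
    · have h1 := LinearMap.congr_fun hBB v
      rw [Module.End.mul_apply, LinearMap.neg_apply, LinearMap.neg_apply, map_neg, neg_neg]
      exact h1
    have h1 := LinearMap.congr_fun hA v
    rw [LinearMap.neg_apply, sub_neg_eq_add, sub_neg_eq_add]
    exact h1
  let e : H → Module.End ℤ_[2] (Fin r → ℤ_[2]) := fun k =>
    if hk : q k = 1 then (hid k hk).choose else 0
  have he : ∀ k, q k = 1 → e k * e k = e k ∧ ∀ v, a k v = v - e k v - e k v := by
    intro k hk
    have h1 : e k = (hid k hk).choose := dif_pos hk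
    rw [h1]
    exact (hid k hk).choose_spec
  have he0 : ∀ k, q k ≠ 1 → e k = 0 := fun k hk => dif_neg hk
  have heu : ∀ (k : H) (c : Module.End ℤ_[2] (Fin r → ℤ_[2])), q k = 1 → (∀ v, a k v = v - c v - c v) →
      e k = c := by
    intro k c hk hc
    refine LinearMap.ext fun v => ?_
    apply ker_two
    have h1 := (he k hk).2 v
    rw [hc v, sub_sub, sub_sub] at h1
    exact (sub_right_injective h1).symm
  have hconj : ∀ s k : H, q (s * k * s⁻¹) = 1 ↔ q k = 1 := by
    intro s k
    rw [map_mul, map_mul, map_inv]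
    constructor
    · intro h1
      have h2 := congrArg (fun t => (q s)⁻¹ * t * q s) h1
      simpa [mul_assoc] using h2
    · intro h1
      rw [h1, mul_one, mul_inv_cancel]
  have hKc : ∀ s k : H, q s = 1 → q k = 1 → s * k * s⁻¹ = k := by
    intro s k hs hk
    have hsq : ∀ t : H, q t = 1 → t * t = 1 := by
      intro t ht
      apply h.inj
      · ext1 v
        rw [map_mul]
        show a t (a t v) = v
        obtain ⟨h1, h2⟩ := he t ht
        rw [h2 v, map_sub, map_sub, h2 v, h2 (e t v)]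
        have h3 : e t (e t v) = e t v := by rw [← Module.End.mul_apply, h1]
        rw [h3]
        abel
      · rw [map_mul, ht, mul_one]
    have h1 := hsq (s * k) (by rw [map_mul, hs, hk, mul_one])
    have h2 : s⁻¹ = s := inv_eq_of_mul_eq_one_left (hsq s hs)
    have h3 : k⁻¹ = k := inv_eq_of_mul_eq_one_left (hsq k hk)
    calc s * k * s⁻¹ = s * k * s := by rw [h2]
      _ = (s * k * (s * k)) * k⁻¹ := by group
      _ = k := by rw [h1, one_mul, h3]
  have hec : ∀ s k : H, ∀ v, e (s * k * s⁻¹) (a s v) = a s (e k v) := by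
    intro s k
    by_cases hk : q k = 1
    · have h1 : e (s * k * s⁻¹) = (a s : (Fin r → ℤ_[2]) →ₗ[ℤ_[2]] (Fin r → ℤ_[2])) * e k *
          (a s⁻¹ : (Fin r → ℤ_[2]) →ₗ[ℤ_[2]] (Fin r → ℤ_[2])) := by
        refine heu _ _ ((hconj s k).2 hk) fun v => ?_
        have h2 : a (s * k * s⁻¹) v = a s (a k (a s⁻¹ v)) := by
          rw [map_mul, map_mul]
          rfl
        rw [h2, (he k hk).2, map_sub, map_sub]
        have h3 : a s (a s⁻¹ v) = v := by
          have h4 : a s (a s⁻¹ v) = (a s * a s⁻¹) v := rfl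
          rw [h4, ← map_mul, mul_inv_cancel, map_one]
          rfl
        rw [h3]
        rfl
      intro v
      rw [h1]
      show a s (e k (a s⁻¹ (a s v))) = a s (e k v)
      have h3 : a s⁻¹ (a s v) = v := by
        have h4 : a s⁻¹ (a s v) = (a s⁻¹ * a s) v := rfl
        rw [h4, ← map_mul, inv_mul_cancel, map_one]
        rfl
      rw [h3]
    · intro v
      rw [he0 k hk, he0 _ (fun h1 => hk ((hconj s k).1 h1)), LinearMap.zero_apply, LinearMap.zero_apply,
        map_zero]
  have hcomm : ∀ k k', Commute (e k) (e k') := by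
    intro k k'
    by_cases hk : q k = 1
    · by_cases hk' : q k' = 1
      · -- `a k` commutes with `e k'`
        have h1 : ∀ v, e k' (a k v) = a k (e k' v) := by
          intro v
          have h2 := hec k k' v
          rwa [hKc k k' hk hk'] at h2
        refine LinearMap.ext fun v => ?_
        apply ker_two
        have h3 := h1 v
        rw [(he k hk).2 v, (he k hk).2 (e k' v), map_sub, map_sub, sub_sub, sub_sub] at h3
        exact (sub_right_injective h3).symm
      · rw [he0 k' hk']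
        exact Commute.zero_right _
    · rw [he0 k hk]
      exact Commute.zero_left _
  have hee : ∀ k, e k * e k = e k := by
    intro k
    by_cases hk : q k = 1
    · exact (he k hk).1
    · rw [he0 k hk, mul_zero]
  have key := ker_aux (by omega) q h.surj hrank ρ hirr (fun k => bar (e k))
    (fun k => hbe fun v => by
      rw [Module.End.mul_apply, hbar, hbar, ← Module.End.mul_apply, hee])
    (fun k k' => hbe fun v => by
      rw [Module.End.mul_apply, Module.End.mul_apply, hbar, hbar, hbar, hbar, ← Module.End.mul_apply,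
        ← Module.End.mul_apply, (hcomm k k').eq])
    (fun s k => hbe fun v => by
      rw [Module.End.mul_apply, Module.End.mul_apply, hρ, hbar, hbar, hρ, hec])
    (fun s hs k => by
      by_cases hk : q k = 1
      · rw [hKc s k hs hk]
      · rw [he0 k hk, he0 _ (fun h1 => hk ((hconj s k).1 h1))]) g
  obtain ⟨h1, h2⟩ := he g hg
  rcases key with h3 | h3
  · left
    intro v
    have h4 : e g = 0 := ker_idem h1 fun v => by
      refine (hpk _).1 ?_
      rw [← hbar, h3]
      rfl
    rw [h2, h4, LinearMap.zero_apply, sub_zero, sub_zero]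
  · right
    intro v
    have h4 : 1 - e g = 0 := ker_idem (by
      rw [sub_mul, mul_sub, mul_sub, h1, mul_one, one_mul, mul_one]
      abel) fun v => by
      refine (hpk _).1 ?_
      rw [LinearMap.sub_apply, Module.End.one_apply, map_sub, ← hbar, h3, Module.End.one_apply, sub_self]
    have h5 : e g = 1 := (sub_eq_zero.1 h4).symm
    rw [h2, h5, Module.End.one_apply]
    abel

end

end Pool.Agent.Lib.MP_89bcae_ag.Xs
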