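import Mathlib
import Pool.Agent.Lib.MP_89bcae_ag.Xs.Defs
import Pool.Agent.Lib.MP_89bcae_ag.Xs.Ker

/-!
# The reduction to a power of `2`
-/

open scoped Classical

namespace Pool.Agent.Lib.MP_89bcae_ag.Xs

private lemma Red_cyc {Y : Type} [Fintype Y] (hY : Odd (Fintype.card Y)) :
    ∃ c : Equiv.Perm Y, c ^ Fintype.card Y = 1 ∧ ∀ y y' : Y, ∃ i : ℕ, (c ^ i) y = y' := by
  have hn : Fintype.card Y ≠ 0 := by
    intro h0
    rw [h0] at hY
    exact absurd hY (by decide)
  have : NeZero (Fintype.card Y) := ⟨hn⟩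
  let f : Y ≃ ZMod (Fintype.card Y) := Fintype.equivOfCardEq (ZMod.card _).symm
  let c : Equiv.Perm Y := (f.trans (Equiv.addRight 1)).trans f.symm
  have hc : ∀ (i : ℕ) y, (c ^ i) y = f.symm (f y + i) := by
    intro i
    induction i with
    | zero => intro y; simp
    | succ i ih =>
      intro y
      rw [pow_succ', Equiv.Perm.mul_apply, ih]
      simp [c, add_assoc]
  refine ⟨c, ?_, ?_⟩
  · ext y
    rw [hc, ZMod.natCast_self, add_zero, Equiv.symm_apply_apply, Equiv.Perm.one_apply]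
  · intro y y'
    refine ⟨(f y' - f y).val, ?_⟩
    rw [hc, ZMod.natCast_zmod_val, add_sub_cancel, Equiv.symm_apply_apply]

section

variable {X Z Y : Type}

/-- The permutations of the second coordinate. -/
private def Red_c (e : X ≃ Z × Y) : Equiv.Perm Y →* Equiv.Perm X where
  toFun c := (e.trans (Equiv.prodCongr (Equiv.refl Z) c)).trans e.symm
  map_one' := by ext x; simp
  map_mul' c d := by ext x; simp [Prod.map]

/-- The permutations of the first coordinate. -/
private def Red_g (e : X ≃ Z × Y) : Equiv.Perm Z →* Equiv.Perm X where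
  toFun g := (e.trans (Equiv.prodCongr g (Equiv.refl Y))).trans e.symm
  map_one' := by ext x; simp
  map_mul' c d := by ext x; simp [Prod.map]

private lemma Red_c_apply (e : X ≃ Z × Y) (c : Equiv.Perm Y) (x : X) :
    Red_c e c x = e.symm ((e x).1, c (e x).2) := rfl

private lemma Red_g_apply (e : X ≃ Z × Y) (g : Equiv.Perm Z) (x : X) :
    Red_g e g x = e.symm (g (e x).1, (e x).2) := rfl

private lemma Red_comm (e : X ≃ Z × Y) (c : Equiv.Perm Y) (g : Equiv.Perm Z) :
    Red_g e g * Red_c e c = Red_c e c * Red_g e g := by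
  ext x
  simp [Equiv.Perm.mul_apply, Red_c_apply, Red_g_apply]

private lemma Red_c_even [Fintype X] [Fintype Y] (e : X ≃ Z × Y) {c : Equiv.Perm Y} {n : ℕ} (hn : Odd n)
    (hc : c ^ n = 1) : Red_c e c ∈ alternatingGroup X := by
  rw [Equiv.Perm.mem_alternatingGroup]
  have h1 : Equiv.Perm.sign (Red_c e c) ^ n = 1 := by
    rw [← map_pow, ← map_pow, hc, map_one, map_one]
  rcases Int.units_eq_one_or (Equiv.Perm.sign (Red_c e c)) with h2 | h2
  · exact h2
  · rw [h2, hn.neg_one_pow] at h1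
    exact absurd h1 (by decide)

private lemma Red_g_even [Fintype X] [Fintype Z] [Fintype Y] (e : X ≃ Z × Y) {g : Equiv.Perm Z}
    (hg : g ∈ alternatingGroup Z) : Red_g e g ∈ alternatingGroup X := by
  rw [Equiv.Perm.mem_alternatingGroup] at hg ⊢
  have h1 : Red_g e g = (e.trans (Equiv.prodCongrLeft fun _ : Y => g)).trans e.symm := rfl
  rw [h1, Equiv.Perm.sign_trans_trans_symm, Equiv.Perm.sign_prodCongrLeft]
  simp [hg]

end

section

variable {V V' : Type} [AddCommGroup V] [Module ℤ_[2] V] [AddCommGroup V'] [Module ℤ_[2] V']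

private lemma Red_restrict {G : Type} [Group G] (A : G →* (V ≃ₗ[ℤ_[2]] V)) (j : V' →ₗ[ℤ_[2]] V)
    (hj : Function.Injective j) (hA : ∀ g v, ∃ w, j w = A g (j v)) :
    ∃ A' : G →* (V' ≃ₗ[ℤ_[2]] V'), ∀ g v, j (A' g v) = A g (j v) := by
  have h1 : ∀ g, ∃ B : Module.End ℤ_[2] V', ∀ v, j (B v) = A g (j v) := by
    intro g
    choose B hB using hA g
    refine ⟨{ toFun := B, map_add' := fun v w => hj ?_, map_smul' := fun t v => hj ?_ }, hB⟩
    · rw [map_add, hB, hB, hB, map_add, map_add]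
    · rw [hB, map_smul, map_smul, RingHom.id_apply, map_smul, hB]
  choose B hB using h1
  let B' : G →* Module.End ℤ_[2] V' :=
    { toFun := B
      map_one' := by
        ext v
        exact hj (by rw [hB, map_one]; rfl)
      map_mul' := fun g h => by
        ext v
        refine hj ?_
        rw [hB, map_mul]
        change A g (A h (j v)) = j (B g (B h v))
        rw [hB, hB] }
  refine ⟨(LinearMap.GeneralLinearGroup.generalLinearEquiv ℤ_[2] V').toMonoidHom.comp B'.toHomUnits, ?_⟩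
  intro g v
  exact hB g v

private lemma Red_fixed {r : ℕ} (T : (Fin r → ℤ_[2]) ≃ₗ[ℤ_[2]] (Fin r → ℤ_[2])) :
    ∃ (r' : ℕ) (j : (Fin r' → ℤ_[2]) →ₗ[ℤ_[2]] (Fin r → ℤ_[2])), Function.Injective j ∧
      ∀ v, (∃ w, j w = v) ↔ T v = v := by
  let N : Submodule ℤ_[2] (Fin r → ℤ_[2]) := LinearMap.ker ((T : (Fin r → ℤ_[2]) →ₗ[ℤ_[2]] (Fin r → ℤ_[2])) - LinearMap.id)
  obtain ⟨r', b⟩ := Submodule.basisOfPid (Pi.basisFun ℤ_[2] (Fin r)) N
  refine ⟨r', N.subtype.comp b.equivFun.symm.toLinearMap, ?_, ?_⟩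
  · exact (Subtype.val_injective).comp b.equivFun.symm.injective
  · intro v
    have h1 : T v = v ↔ v ∈ N := by
      rw [LinearMap.mem_ker, LinearMap.sub_apply, sub_eq_zero]
      rfl
    rw [h1]
    constructor
    · rintro ⟨w, rfl⟩
      exact (b.equivFun.symm w).2
    · intro hv
      refine ⟨b.equivFun ⟨v, hv⟩, ?_⟩
      change ((b.equivFun.symm (b.equivFun ⟨v, hv⟩) : N) : Fin r → ℤ_[2]) = v
      rw [LinearEquiv.symm_apply_apply]

end

section

variable {X : Type} [Fintype X] {H : Type} [Group H] {r : ℕ}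
  {a : H →* ((Fin r → ℤ_[2]) ≃ₗ[ℤ_[2]] (Fin r → ℤ_[2]))} {q : H →* alternatingGroup X}

private lemma Red_ext (hinj : ∀ h, a h = 1 → q h = 1 → h = 1) {x y : H} (h1 : ∀ v, a x v = a y v) (h2 : q x = q y) :
    x = y := by
  have h3 : x * y⁻¹ = 1 := by
    apply hinj
    · rw [map_mul, map_inv, mul_inv_eq_one]
      exact LinearEquiv.ext h1
    · rw [map_mul, map_inv, h2, mul_inv_cancel]
  exact mul_inv_eq_one.mp h3

private lemma Red_central (hinj : ∀ h, a h = 1 → q h = 1 → h = 1)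
    (hK : ∀ g, q g = 1 → (∀ v, a g v = v) ∨ ∀ v, a g v = -v) {k : H} (hk : q k = 1) :
    k * k = 1 ∧ ∀ g, k * g = g * k := by
  constructor
  · refine Red_ext hinj (fun v => ?_) (by rw [map_mul, map_one, hk, mul_one])
    rw [map_mul, map_one]
    change a k (a k v) = v
    rcases hK k hk with h | h
    · rw [h, h]
    · rw [h, h, neg_neg]
  · intro g
    refine Red_ext hinj (fun v => ?_) (by rw [map_mul, map_mul, hk, mul_one, one_mul])
    rw [map_mul, map_mul]
    change a k (a g v) = a g (a k v)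
    rcases hK k hk with h | h
    · rw [h, h]
    · rw [h, h, map_neg]

/-- The lifts of odd order. -/
private lemma Red_lift (hinj : ∀ h, a h = 1 → q h = 1 → h = 1)
    (hK : ∀ g, q g = 1 → (∀ v, a g v = v) ∨ ∀ v, a g v = -v) (hq : Function.Surjective q)
    {c : alternatingGroup X} {n : ℕ} (hn : Odd n) (hc : c ^ n = 1) :
    ∃ t : H, q t = c ∧ t ^ n = 1 ∧ ∀ k, q k * c = c * q k → k * t = t * k := by
  obtain ⟨h0, hh0⟩ := hq c
  have h1 : q (h0 ^ n) = 1 := by rw [map_pow, hh0, hc]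
  have hsq := (Red_central hinj hK h1).1
  obtain ⟨m, hm⟩ := hn
  have ht : (h0 ^ (n + 1)) ^ n = 1 := by
    rw [← pow_mul, show (n + 1) * n = n * 2 * (m + 1) by rw [hm]; ring, pow_mul, pow_mul, pow_two, hsq, one_pow]
  have hqt : q (h0 ^ (n + 1)) = c := by rw [map_pow, hh0, pow_succ, hc, one_mul]
  refine ⟨h0 ^ (n + 1), hqt, ht, ?_⟩
  intro k hk
  generalize h0 ^ (n + 1) = t at hqt ht
  have hx : q (k * t * k⁻¹ * t⁻¹) = 1 := by
    rw [map_mul, map_mul, map_mul, map_inv, map_inv, hqt, hk, mul_inv_cancel_right, mul_inv_cancel]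
  obtain ⟨hx2, hxc⟩ := Red_central hinj hK hx
  have h2 : k * t * k⁻¹ = (k * t * k⁻¹ * t⁻¹) * t := by rw [inv_mul_cancel_right]
  generalize k * t * k⁻¹ * t⁻¹ = x at hx2 hxc h2
  have h3 : (x * t) ^ n = x ^ n := by
    rw [(show Commute x t from hxc t).mul_pow, ht, mul_one]
  have h4 : (k * t * k⁻¹) ^ n = 1 := by rw [conj_pow, ht, mul_one, mul_inv_cancel]
  have h5 : x ^ n = 1 := by rw [← h3, ← h2, h4]
  have h6 : x = 1 := by
    rw [hm, pow_succ, pow_mul, pow_two, hx2, one_pow, one_mul] at h5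
    exact h5
  rw [h6, one_mul] at h2
  exact mul_inv_eq_iff_eq_mul.mp h2

end

section

variable {X Z Y : Type}

private lemma Red_const {e : X ≃ Z × Y} {c0 : Equiv.Perm Y} {n : ℕ} (hn : Odd n) (hc : c0 ^ n = 1)
    (htr : ∀ y y' : Y, ∃ i : ℕ, (c0 ^ i) y = y') {F : X → ZMod 2} {ε : ZMod 2}
    (hF : ∀ x, F ((Red_c e c0)⁻¹ x) = F x + ε) (x : X) (y : Y) : F x = F (e.symm ((e x).1, y)) := by
  have h1 : ∀ x, F x = F (Red_c e c0 x) + ε := by
    intro x
    have := hF (Red_c e c0 x)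
    rwa [show (Red_c e c0)⁻¹ (Red_c e c0 x) = x from Equiv.symm_apply_apply _ _] at this
  have h2 : ∀ (i : ℕ) x, F x = F (Red_c e (c0 ^ i) x) + i * ε := by
    intro i
    induction i with
    | zero => intro x; simp
    | succ i ih =>
      intro x
      rw [ih x, h1 (Red_c e (c0 ^ i) x), ← Equiv.Perm.mul_apply, ← map_mul, ← pow_succ']
      push_cast
      ring
  have h3 : ε = 0 := by
    have h4 := h2 n x
    rw [hc, map_one, Equiv.Perm.one_apply, ZMod.natCast_eq_one_iff_odd.mpr hn, one_mul] at h4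
    exact (left_eq_add.mp h4)
  obtain ⟨i, hi⟩ := htr (e x).2 y
  rw [h2 i x, h3, mul_zero, add_zero, Red_c_apply, hi]

private lemma Red_sum [Fintype X] [Fintype Z] [Fintype Y] (e : X ≃ Z × Y) (hY : Odd (Fintype.card Y)) (f : Z → ZMod 2) :
    ∑ x, f (e x).1 = ∑ z, f z := by
  rw [Equiv.sum_comp e (fun p : Z × Y => f p.1), Fintype.sum_prod_type]
  refine Finset.sum_congr rfl fun z _ => ?_
  change ∑ _y : Y, f z = f z
  rw [Finset.sum_const, Finset.card_univ, nsmul_eq_mul, ZMod.natCast_eq_one_iff_odd.mpr hY, one_mul]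

/-- The restriction to `Z × {y}`. -/
private def Red_rho (e : X ≃ Z × Y) (y : Y) : (X → ZMod 2) ⧸ Cst X →+ (Z → ZMod 2) ⧸ Cst Z :=
  QuotientAddGroup.map (Cst X) (Cst Z)
    { toFun := fun F z => F (e.symm (z, y))
      map_zero' := rfl
      map_add' := fun _ _ => rfl }
    (by
      rintro F ⟨c, hc⟩
      exact ⟨c, fun z => hc _⟩)

private lemma Red_rho_mk (e : X ≃ Z × Y) (y : Y) (F : X → ZMod 2) :
    Red_rho e y (QuotientAddGroup.mk F) = QuotientAddGroup.mk fun z => F (e.symm (z, y)) := rfl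

private lemma Red_mk_eq {X : Type} {f g : X → ZMod 2} :
    (QuotientAddGroup.mk f : (X → ZMod 2) ⧸ Cst X) = QuotientAddGroup.mk g ↔ ∃ c, ∀ x, g x = f x + c := by
  rw [QuotientAddGroup.eq]
  constructor
  · rintro ⟨c, hc⟩
    refine ⟨c, fun x => ?_⟩
    rw [← hc x, Pi.add_apply, Pi.neg_apply, add_neg_cancel_left]
  · rintro ⟨c, hc⟩
    refine ⟨c, fun x => ?_⟩
    rw [Pi.add_apply, Pi.neg_apply, hc, neg_add_cancel_left]

private lemma Red_two {X : Type} (u : (X → ZMod 2) ⧸ Cst X) : u + u = 0 := by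
  obtain ⟨f, rfl⟩ := QuotientAddGroup.mk_surjective u
  rw [← QuotientAddGroup.mk_add, QuotientAddGroup.eq_zero_iff]
  exact ⟨0, fun x => CharTwo.add_self_eq_zero _⟩

private lemma Red_odd {A : Type} [AddCommGroup A] {u : A} (hu : u + u = 0) {n : ℕ} (hn : Odd n) : n • u = u := by
  obtain ⟨m, rfl⟩ := hn
  rw [add_smul, one_smul, mul_comm, mul_smul, two_smul, hu, smul_zero, zero_add]

end

section

variable {X : Type} [Fintype X] {H : Type} [Group H] [Finite H] {r : ℕ}

/-- S-G7: the reduction to a power of `2`. -/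
theorem reduce {Z Y : Type} [Fintype Z] [Fintype Y] (e : X ≃ Z × Y) (hY : Odd (Fintype.card Y))
    (hZ : 6 ≤ Fintype.card Z) (hZ' : Even (Fintype.card Z))
    {a : H →* ((Fin r → ℤ_[2]) ≃ₗ[ℤ_[2]] (Fin r → ℤ_[2]))} {q : H →* alternatingGroup X}
    {p : (Fin r → ℤ_[2]) →+ (X → ZMod 2) ⧸ Cst X} (h : HLift a q p) :
    ∃ (r' : ℕ) (H' : Type) (_ : Group H') (_ : Finite H')
      (a' : H' →* ((Fin r' → ℤ_[2]) ≃ₗ[ℤ_[2]] (Fin r' → ℤ_[2]))) (q' : H' →* alternatingGroup Z)
      (p' : (Fin r' → ℤ_[2]) →+ (Z → ZMod 2) ⧸ Cst Z), HLift a' q' p' := by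
  have hcard : Fintype.card X = Fintype.card Z * Fintype.card Y := by
    rw [Fintype.card_congr e, Fintype.card_prod]
  have hY0 : 0 < Fintype.card Y := hY.pos
  obtain ⟨y0⟩ : Nonempty Y := Fintype.card_pos_iff.mp hY0
  have hX : 6 ≤ Fintype.card X := by
    rw [hcard]
    exact hZ.trans (Nat.le_mul_of_pos_right _ hY0)
  have hX' : Even (Fintype.card X) := by
    rw [hcard]
    exact hZ'.mul_right _
  have hK : ∀ g, q g = 1 → (∀ v, a g v = v) ∨ ∀ v, a g v = -v := fun g hg => ker_small hX hX' h hg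
  obtain ⟨c0, hc0, htr⟩ := Red_cyc hY
  obtain ⟨n, hn⟩ : ∃ n, n = Fintype.card Y := ⟨_, rfl⟩
  rw [← hn] at hc0
  have hn' : Odd n := hn ▸ hY
  obtain ⟨t, hqt, htn, hcomm⟩ := Red_lift h.inj hK h.surj (c := ⟨Red_c e c0, Red_c_even e hn' hc0⟩) hn'
    (Subtype.ext (by rw [SubmonoidClass.mk_pow]; change (Red_c e c0) ^ n = 1; rw [← map_pow, hc0, map_one]))
  have hqt' : (q t : Equiv.Perm X) = Red_c e c0 := by rw [hqt]
  obtain ⟨r', j, hj, hjr⟩ := Red_fixed (a t)
  -- the description of `p` on the fixed vectors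
  have P0 : ∀ v, a t v = v → ∃ f : Z → ZMod 2, ∑ z, f z = 0 ∧ p v = QuotientAddGroup.mk (fun x => f (e x).1) := by
    intro v hv
    obtain ⟨F, hF, hFv⟩ := (h.ran (p v)).mp ⟨v, rfl⟩
    have h1 := h.act t v F hFv.symm
    rw [hv, ← hFv, Red_mk_eq] at h1
    obtain ⟨ε, hε⟩ := h1
    rw [hqt'] at hε
    have h2 : ∀ x, F x = F (e.symm ((e x).1, y0)) := fun x => Red_const hn' hc0 htr hε x y0
    refine ⟨fun z => F (e.symm (z, y0)), ?_, ?_⟩
    · rw [← Red_sum e hY, ← hF]
      exact Finset.sum_congr rfl fun x _ => (h2 x).symm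
    · rw [← hFv]
      exact congrArg _ (funext h2)
  have hrho : ∀ f : Z → ZMod 2, Red_rho e y0 (QuotientAddGroup.mk fun x => f (e x).1) = QuotientAddGroup.mk f := by
    intro f
    rw [Red_rho_mk]
    congr 1
    funext z
    rw [Equiv.apply_symm_apply]
  -- the group
  let f1 : H × alternatingGroup Z →* Equiv.Perm X :=
    (alternatingGroup X).subtype.comp (q.comp (MonoidHom.fst H (alternatingGroup Z)))
  let f2 : H × alternatingGroup Z →* Equiv.Perm X :=
    (Red_g e).comp ((alternatingGroup Z).subtype.comp (MonoidHom.snd H (alternatingGroup Z)))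
  let H' : Subgroup (H × alternatingGroup Z) := f1.eqLocus f2
  have hH' : ∀ x : H', (q x.1.1 : Equiv.Perm X) = Red_g e (x.1.2 : Equiv.Perm Z) := fun x => x.2
  have hH'' : ∀ x : H', x.1.1 * t = t * x.1.1 := by
    intro x
    apply hcomm
    refine Subtype.ext ?_
    change (q x.1.1 : Equiv.Perm X) * Red_c e c0 = Red_c e c0 * (q x.1.1 : Equiv.Perm X)
    rw [hH', Red_comm]
  -- the action
  obtain ⟨a', ha'⟩ := Red_restrict (a.comp ((MonoidHom.fst H (alternatingGroup Z)).comp H'.subtype)) j hj (by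
    intro x v
    refine (hjr _).mpr ?_
    change a t (a x.1.1 (j v)) = a x.1.1 (j v)
    have h1 : a t (a x.1.1 (j v)) = a (t * x.1.1) (j v) := by rw [map_mul]; rfl
    have h2 : a x.1.1 (a t (j v)) = a (x.1.1 * t) (j v) := by rw [map_mul]; rfl
    rw [h1, ← hH'' x, ← h2, (hjr (j v)).mp ⟨v, rfl⟩])
  have ha'' : ∀ (x : H') v, j (a' x v) = a x.1.1 (j v) := ha'
  have hp' : ∀ v, (((Red_rho e y0).comp p).comp j.toAddMonoidHom) v = Red_rho e y0 (p (j v)) := fun _ => rfl
  have hjt : ∀ v, a t (j v) = j v := fun v => (hjr (j v)).mp ⟨v, rfl⟩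
  -- the surjectivity
  have hsum : ∀ f : Z → ZMod 2, ∑ z, f z = 0 → ∃ v', Red_rho e y0 (p (j v')) = QuotientAddGroup.mk f := by
    intro f hf
    obtain ⟨v, hv⟩ := (h.ran (QuotientAddGroup.mk fun x => f (e x).1)).mpr ⟨_, by rw [Red_sum e hY, hf], rfl⟩
    have h1 : a t (∑ i ∈ Finset.range n, a (t ^ i) v) = ∑ i ∈ Finset.range n, a (t ^ i) v := by
      rw [map_sum]
      have h2 : ∀ i, a t (a (t ^ i) v) = a (t ^ (i + 1)) v := by
        intro i
        rw [pow_succ', map_mul]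
        rfl
      rw [Finset.sum_congr rfl fun i _ => h2 i]
      have h3 := Finset.sum_range_succ' (fun i => a (t ^ i) v) n
      rw [Finset.sum_range_succ, htn, pow_zero] at h3
      exact (add_right_cancel h3).symm
    obtain ⟨v', hv'⟩ := (hjr _).mpr h1
    refine ⟨v', ?_⟩
    have h4 : ∀ i : ℕ, p (a (t ^ i) v) = p v := by
      intro i
      rw [h.act (t ^ i) v _ hv, hv]
      congr 1
      funext x
      rw [map_pow, hqt]
      change f (e ((((Red_c e c0) ^ i)⁻¹ : Equiv.Perm X) x)).1 = f (e x).1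
      rw [← map_pow, ← map_inv, Red_c_apply, Equiv.apply_symm_apply]
    rw [hv', map_sum, Finset.sum_congr rfl fun i _ => h4 i, Finset.sum_const, Finset.card_range,
      Red_odd (Red_two _) hn', hv, hrho]
  refine ⟨r', H', inferInstance, inferInstance, a',
    (MonoidHom.snd H (alternatingGroup Z)).comp H'.subtype,
    ((Red_rho e y0).comp p).comp j.toAddMonoidHom, ?_, ?_, ?_, ?_, ?_⟩
  · -- surjectivity
    intro g
    obtain ⟨k, hk⟩ := h.surj ⟨Red_g e g, Red_g_even e g.2⟩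
    refine ⟨⟨(k, g), ?_⟩, rfl⟩
    change (q k : Equiv.Perm X) = Red_g e (g : Equiv.Perm Z)
    rw [hk]
  · -- faithfulness
    intro x hx1 hx2
    have h1 : x.1.2 = 1 := hx2
    have h2 : q x.1.1 = 1 := by
      refine Subtype.ext ?_
      rw [hH', h1, OneMemClass.coe_one, OneMemClass.coe_one, map_one]
    have h3 : x.1.1 = 1 := by
      rcases hK _ h2 with h4 | h4
      · exact h.inj _ (LinearEquiv.ext h4) h2
      · exfalso
        have h5 : ∀ v' : Fin r' → ℤ_[2], v' = 0 := by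
          intro v'
          apply hj
          have h6 := ha'' x v'
          rw [hx1, h4] at h6
          change j v' = - j v' at h6
          rw [map_zero]
          exact self_eq_neg.mp h6
        obtain ⟨z1, z2, z3, h12, h13, h23⟩ : ∃ z1 z2 z3 : Z, z1 ≠ z2 ∧ z1 ≠ z3 ∧ z2 ≠ z3 := by
          have : 2 < Fintype.card Z := by omega
          exact Fintype.two_lt_card_iff.mp this
        obtain ⟨v', hv'⟩ := hsum (Pi.single z1 1 + Pi.single z2 1) (by
          simp only [Pi.add_apply, Finset.sum_add_distrib, Finset.sum_pi_single', Finset.mem_univ, if_true]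
          decide)
        rw [h5 v', map_zero, map_zero, map_zero] at hv'
        obtain ⟨c, hc⟩ := (QuotientAddGroup.eq_zero_iff _).mp hv'.symm
        have h7 := hc z1
        have h8 := hc z3
        rw [Pi.add_apply, Pi.single_eq_same, Pi.single_eq_of_ne h12, add_zero] at h7
        rw [Pi.add_apply, Pi.single_eq_of_ne h13.symm, Pi.single_eq_of_ne h23.symm, add_zero] at h8
        rw [← h7] at h8
        exact absurd h8 (by decide)
    exact Subtype.ext (Prod.ext h3 h1)
  · -- the kernel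
    intro v'
    rw [hp']
    constructor
    · intro h1
      obtain ⟨f, hf, hfv⟩ := P0 (j v') (hjt v')
      rw [hfv, hrho, QuotientAddGroup.eq_zero_iff] at h1
      obtain ⟨c, hc⟩ := h1
      have h2 : p (j v') = 0 := by
        rw [hfv, QuotientAddGroup.eq_zero_iff]
        exact ⟨c, fun x => hc _⟩
      obtain ⟨w, hw⟩ := (h.ker _).mp h2
      have h3 : a t w = w := by
        have h4 := hjt v'
        rw [hw, map_add] at h4
        have h5 : (2 : ℤ_[2]) • (a t w) = (2 : ℤ_[2]) • w := by rw [two_smul, two_smul, h4]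
        exact smul_right_injective _ (two_ne_zero) h5
      obtain ⟨w', hw'⟩ := (hjr w).mpr h3
      refine ⟨w', hj ?_⟩
      rw [map_add, hw', hw]
    · rintro ⟨w, rfl⟩
      rw [map_add, (h.ker _).mpr ⟨j w, rfl⟩, map_zero]
  · -- the range
    intro y
    constructor
    · rintro ⟨v', rfl⟩
      obtain ⟨f, hf, hfv⟩ := P0 (j v') (hjt v')
      refine ⟨f, hf, ?_⟩
      rw [hp', hfv, hrho]
    · rintro ⟨f, hf, rfl⟩
      exact hsum f hf
  · -- the action
    intro x v' f hf
    rw [hp'] at hf ⊢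
    obtain ⟨f', hf', hfv⟩ := P0 (j v') (hjt v')
    rw [hfv, hrho, Red_mk_eq] at hf
    obtain ⟨c, hc⟩ := hf
    rw [ha'', h.act x.1.1 (j v') _ hfv, Red_rho_mk, Red_mk_eq]
    refine ⟨c, fun z => ?_⟩
    rw [hc, hH', ← map_inv, Red_g_apply, Equiv.apply_symm_apply, Equiv.apply_symm_apply]
    rfl

end

end Pool.Agent.Lib.MP_89bcae_ag.Xs
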