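import Mathlib

/-!
# The affine group of a field with `2 ^ j` elements has no lift of small degree, up to signs
-/

open scoped Classical

namespace Pool.Agent.Lib.MP_89bcae_ag.Xs

section

variable {r : ℕ}

/-- A joint eigenvector of commuting involutions. -/
lemma trc_joint (S : Finset ((Fin r → ℤ_[2]) ≃ₗ[ℤ_[2]] (Fin r → ℤ_[2]))) (hsq : ∀ x ∈ S, x * x = 1)
    (hc : ∀ x ∈ S, ∀ y ∈ S, x * y = y * x) {v : Fin r → ℤ_[2]} (hv : v ≠ 0) :
    ∃ u : Fin r → ℤ_[2], u ≠ 0 ∧ (∀ x ∈ S, x u = u ∨ x u = -u) ∧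
      ∀ (g : (Fin r → ℤ_[2]) ≃ₗ[ℤ_[2]] (Fin r → ℤ_[2])), (∀ x ∈ S, g * x = x * g) → g v = -v → g u = -u := by
  induction S using Finset.induction_on with
  | empty => exact ⟨v, hv, by simp, fun g _ h => h⟩
  | insert x S hx ih =>
    obtain ⟨u, hu, h1, h2⟩ := ih (fun y hy => hsq y (Finset.mem_insert_of_mem hy))
      (fun y hy z hz => hc y (Finset.mem_insert_of_mem hy) z (Finset.mem_insert_of_mem hz))
    by_cases h0 : u + x u = 0
    · refine ⟨u, hu, fun y hy => ?_, fun g hg hgv => h2 g (fun y hy => hg y (Finset.mem_insert_of_mem hy)) hgv⟩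
      rcases Finset.mem_insert.1 hy with rfl | hy
      · right
        exact eq_neg_of_add_eq_zero_right h0
      · exact h1 y hy
    · refine ⟨u + x u, h0, fun y hy => ?_, fun g hg hgv => ?_⟩
      · rcases Finset.mem_insert.1 hy with rfl | hy
        · left
          have h3 : y (y u) = u := by
            show (y * y) u = u
            rw [hsq y (Finset.mem_insert_self _ _)]
            rfl
          rw [map_add, h3, add_comm]
        · have h3 : y (x u) = x (y u) := by
            show (y * x) u = (x * y) u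
            rw [hc y (Finset.mem_insert_of_mem hy) x (Finset.mem_insert_self _ _)]
          rcases h1 y hy with h4 | h4
          · left
            rw [map_add, h3, h4]
          · right
            rw [map_add, h3, h4, map_neg]
            abel
      · have h3 : g (x u) = x (g u) := by
          show (g * x) u = (x * g) u
          rw [hg x (Finset.mem_insert_self _ _)]
        have h4 := h2 g (fun y hy => hg y (Finset.mem_insert_of_mem hy)) hgv
        rw [map_add, h3, h4, map_neg]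
        abel

/-- The number of the joint eigencharacters. -/
lemma trc_count {κ ι : Type} [Fintype κ] (f : ι → Module.End ℤ_[2] (Fin r → ℤ_[2]))
    (hf : ∀ i j, Commute (f i) (f j))
    (χ : κ → ι → ℤ_[2]) (hχ : Function.Injective χ) (u : κ → Fin r → ℤ_[2]) (hu : ∀ k, u k ≠ 0)
    (h : ∀ k i, f i (u k) = χ k i • u k) : Fintype.card κ ≤ r := by
  have h1 := Module.End.independent_iInf_maxGenEigenspace_of_forall_mapsTo f (fun i j φ =>
    Module.End.mapsTo_maxGenEigenspace_of_comm (hf j i) φ)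
  have h2 : LinearIndependent ℤ_[2] u := (h1.comp hχ).linearIndependent _ (fun k => by
    refine (Module.End.mem_iInf_maxGenEigenspace_iff f (χ k) (u k)).2 fun i => ⟨1, ?_⟩
    rw [pow_one, LinearMap.sub_apply, h k i]
    simp) hu
  have h3 := h2.fintype_card_le_finrank
  rwa [Module.finrank_fin_fun] at h3

/-- The sign. -/
noncomputable def trcz (r : ℕ) : (Fin r → ℤ_[2]) ≃ₗ[ℤ_[2]] (Fin r → ℤ_[2]) := LinearEquiv.neg ℤ_[2]

lemma trcz_apply (v : Fin r → ℤ_[2]) : trcz r v = -v := rfl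

lemma trcz_comm (g : (Fin r → ℤ_[2]) ≃ₗ[ℤ_[2]] (Fin r → ℤ_[2])) : trcz r * g = g * trcz r := by
  refine LinearEquiv.ext fun v => ?_
  show -(g v) = g (-v)
  rw [map_neg]

lemma trcz_mul_self : trcz r * trcz r = 1 := by
  refine LinearEquiv.ext fun v => ?_
  show -(-v) = v
  rw [neg_neg]

end

section

variable {K : Type} [Field K]

/-- The translations. -/
def trct (b : K) : Equiv.Perm K := Equiv.addRight b

lemma trct_apply (b x : K) : trct b x = x + b := rfl

/-- The homotheties. -/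
def trcm (v : Kˣ) : Equiv.Perm K := MulAction.toPermHom Kˣ K v

lemma trcm_apply (v : Kˣ) (x : K) : trcm v x = v * x := rfl

lemma trct_add (b b' : K) : trct b * trct b' = trct (b + b') := by
  refine Equiv.ext fun x => ?_
  rw [Equiv.Perm.mul_apply, trct_apply, trct_apply, trct_apply]
  ring

lemma trct_zero : trct (0 : K) = 1 := by
  refine Equiv.ext fun x => ?_
  rw [trct_apply, add_zero]
  rfl

lemma trct_eq_one {b : K} (h : trct b = 1) : b = 0 := by
  have h1 := congrArg (fun e : Equiv.Perm K => e 0) h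
  simpa [trct_apply] using h1

lemma trcm_mul (v w : Kˣ) : trcm v * trcm w = trcm (v * w) := (map_mul (MulAction.toPermHom Kˣ K) v w).symm

lemma trcm_inv (v : Kˣ) : (trcm v)⁻¹ = trcm v⁻¹ := (map_inv (MulAction.toPermHom Kˣ K) v).symm

lemma trcm_comm (v w : Kˣ) : trcm v * trcm w = trcm w * trcm v := by
  rw [trcm_mul, trcm_mul, mul_comm]

lemma trcm_conj (v : Kˣ) (b : K) : trcm v * trct b * (trcm v)⁻¹ = trct (v * b) := by
  rw [trcm_inv]
  refine Equiv.ext fun x => ?_
  rw [Equiv.Perm.mul_apply, Equiv.Perm.mul_apply, trct_apply, trcm_apply, trcm_apply, trct_apply, mul_add,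
    Units.mul_inv_cancel_left]

variable [Fintype K] [CharP K 2]

lemma trc_even : Even (Fintype.card K) := by
  have h := (CharP.cast_eq_zero_iff K 2 (Fintype.card K)).1 (FiniteField.cast_card_eq_zero K)
  exact (even_iff_two_dvd).2 h

lemma trcm_mem (v : Kˣ) : trcm v ∈ alternatingGroup K := by
  rw [Equiv.Perm.mem_alternatingGroup]
  have h1 : (trcm v) ^ (Fintype.card K - 1) = 1 := by
    have h2 : v ^ (Fintype.card K - 1) = 1 := by
      rw [← Fintype.card_units]
      exact pow_card_eq_one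
    show (MulAction.toPermHom Kˣ K v) ^ (Fintype.card K - 1) = 1
    rw [← map_pow, h2, map_one]
  have h3 : Odd (Fintype.card K - 1) := by
    have h4 := trc_even (K := K)
    have h5 : 0 < Fintype.card K := Fintype.card_pos
    obtain ⟨c, hc⟩ := h4
    exact ⟨c - 1, by omega⟩
  have h6 := congrArg Equiv.Perm.sign h1
  rw [map_pow, map_one] at h6
  rcases Int.units_eq_one_or (Equiv.Perm.sign (trcm v)) with h | h
  · exact h
  · rw [h, h3.neg_one_pow] at h6
    exact absurd h6 (by decide)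

lemma trc_exists (hK : 8 ≤ Fintype.card K) (S : Finset K) (hS : S.card ≤ 4) : ∃ b : K, b ∉ S := by
  by_contra hcon
  push Not at hcon
  have h2 : Fintype.card K ≤ S.card := by
    rw [← Finset.card_univ]
    exact Finset.card_le_card fun z _ => hcon z
  omega

lemma trct_mem (hK : 8 ≤ Fintype.card K) (b : K) : trct b ∈ alternatingGroup K := by
  obtain ⟨c, hc⟩ := trc_exists hK ({0, 1} : Finset K) ((Finset.card_le_two).trans (by norm_num))
  simp only [Finset.mem_insert, Finset.mem_singleton, not_or] at hc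
  have hc1 : c - 1 ≠ 0 := sub_ne_zero.2 hc.2
  have h1 := trcm_conj (Units.mk0 c hc.1) (b / (c - 1))
  have h2 : trct b = trcm (Units.mk0 c hc.1) * trct (b / (c - 1)) * (trcm (Units.mk0 c hc.1))⁻¹ *
      (trct (b / (c - 1)))⁻¹ := by
    rw [h1, eq_mul_inv_iff_mul_eq, trct_add]
    congr 1
    rw [Units.val_mk0]
    field_simp
    ring
  rw [Equiv.Perm.mem_alternatingGroup, h2, Equiv.Perm.sign_mul, Equiv.Perm.sign_mul, Equiv.Perm.sign_mul,
    Equiv.Perm.sign_inv, Equiv.Perm.sign_inv]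
  rcases Int.units_eq_one_or (Equiv.Perm.sign (trct (b / (c - 1)))) with h | h <;>
    rcases Int.units_eq_one_or (Equiv.Perm.sign (trcm (Units.mk0 c hc.1))) with h' | h' <;> rw [h, h'] <;> decide

end

section

variable {K : Type} [Field K] [Fintype K] [CharP K 2] {H : Type} [Group H] [Finite H] {r : ℕ}

/-- S-G5 (file `Xs/Trc.lean`): the group of the affine transformations has no representation of small degree, up to signs. -/
theorem no_rep (hK : 8 ≤ Fintype.card K) (hr : r + 2 = Fintype.card K)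
    (a : H →* ((Fin r → ℤ_[2]) ≃ₗ[ℤ_[2]] (Fin r → ℤ_[2]))) (q : H →* alternatingGroup K) (hq : Function.Surjective q)
    (hker : ∀ h, q h = 1 ↔ ((∀ v, a h v = v) ∨ ∀ v, a h v = -v)) : False := by
  -- the signs
  have hsg : ∀ h, q h = 1 ↔ (a h = 1 ∨ a h = trcz r) := by
    intro h
    rw [hker h]
    constructor
    · rintro (h1 | h1)
      · exact Or.inl (LinearEquiv.ext h1)
      · exact Or.inr (LinearEquiv.ext h1)
    · rintro (h1 | h1)
      · left
        intro v
        rw [h1]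
        rfl
      · right
        intro v
        rw [h1]
        rfl
  have hsame : ∀ h h', q h = q h' → ∃ z : (Fin r → ℤ_[2]) ≃ₗ[ℤ_[2]] (Fin r → ℤ_[2]), (z = 1 ∨ z = trcz r) ∧
      a h = z * a h' := by
    intro h h' hh
    refine ⟨a (h * h'⁻¹), (hsg _).1 (by rw [map_mul, map_inv, hh, mul_inv_cancel]), ?_⟩
    rw [map_mul, map_inv, inv_mul_cancel_right]
  have hzc : ∀ z g : (Fin r → ℤ_[2]) ≃ₗ[ℤ_[2]] (Fin r → ℤ_[2]), (z = 1 ∨ z = trcz r) → z * g = g * z := by
    rintro z g (rfl | rfl)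
    · rw [one_mul, mul_one]
    · exact trcz_comm g
  have hzz : ∀ z : (Fin r → ℤ_[2]) ≃ₗ[ℤ_[2]] (Fin r → ℤ_[2]), (z = 1 ∨ z = trcz r) → z * z = 1 := by
    rintro z (rfl | rfl)
    · exact one_mul 1
    · exact trcz_mul_self
  -- the lifts
  choose T hT using fun b : K => hq ⟨trct b, trct_mem hK b⟩
  choose C hC using fun v : Kˣ => hq ⟨trcm v, trcm_mem v⟩
  -- `q h` as a permutation
  have hTv : ∀ b, ((q (T b) : alternatingGroup K) : Equiv.Perm K) = trct b := fun b => by rw [hT]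
  have hCv : ∀ v, ((q (C v) : alternatingGroup K) : Equiv.Perm K) = trcm v := fun v => by rw [hC]
  have hval : ∀ h h', ((q h : alternatingGroup K) : Equiv.Perm K) = ((q h' : alternatingGroup K) : Equiv.Perm K) →
      q h = q h' := fun h h' hh => Subtype.ext hh
  have hmul : ∀ h h', ((q (h * h') : alternatingGroup K) : Equiv.Perm K) =
      ((q h : alternatingGroup K) : Equiv.Perm K) * ((q h' : alternatingGroup K) : Equiv.Perm K) := fun h h' => by
    rw [map_mul]
    rfl
  have hinv : ∀ h, ((q h⁻¹ : alternatingGroup K) : Equiv.Perm K) =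
      ((q h : alternatingGroup K) : Equiv.Perm K)⁻¹ := fun h => by
    rw [map_inv]
    rfl
  have hTsum : ∀ b b', ∃ z, (z = 1 ∨ z = trcz r) ∧ a (T (b + b')) = z * (a (T b) * a (T b')) := by
    intro b b'
    rw [← map_mul]
    refine hsame _ _ (hval _ _ ?_)
    rw [hmul, hTv, hTv, hTv, trct_add]
  have hTC : ∀ (v : Kˣ) (b : K), ∃ z, (z = 1 ∨ z = trcz r) ∧ a (T (v * b)) = z * (a (C v) * a (T b) * (a (C v))⁻¹) := by
    intro v b
    rw [← map_mul, ← map_inv, ← map_mul]
    refine hsame _ _ (hval _ _ ?_)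
    rw [hmul, hmul, hinv, hTv, hTv, hCv, trcm_conj]
  have hCC : ∀ (v w : Kˣ), ∃ z, (z = 1 ∨ z = trcz r) ∧ a (C w) = z * (a (C v) * a (C w) * (a (C v))⁻¹) := by
    intro v w
    rw [← map_mul, ← map_inv, ← map_mul]
    refine hsame _ _ (hval _ _ ?_)
    rw [hmul, hmul, hinv, hCv, hCv, trcm_comm, mul_inv_cancel_right]
  -- the squares of the lifts
  have hsq : ∀ b, a (T b) * a (T b) = 1 ∨ a (T b) * a (T b) = trcz r := by
    intro b
    rw [← map_mul]
    refine (hsg _).1 (Subtype.ext ?_)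
    rw [hmul, hTv, trct_add, CharTwo.add_self_eq_zero, trct_zero]
    rfl
  have hsq1 : ∀ (v : Kˣ) (b : K), a (T (v * b)) * a (T (v * b)) = a (T b) * a (T b) := by
    intro v b
    obtain ⟨z, hz, h1⟩ := hTC v b
    have h2 : (z * (a (C v) * a (T b) * (a (C v))⁻¹)) * (z * (a (C v) * a (T b) * (a (C v))⁻¹)) =
        (z * z) * (a (C v) * (a (T b) * a (T b)) * (a (C v))⁻¹) := by
      have h3 := hzc z (a (C v) * a (T b) * (a (C v))⁻¹) hz
      rw [mul_assoc, ← mul_assoc (a (C v) * a (T b) * (a (C v))⁻¹) z, ← h3]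
      group
    rw [h1, h2, hzz z hz, one_mul, ← hzc _ _ (hsq b), mul_assoc, mul_inv_cancel, mul_one]
  have hε : ∀ b b' : K, b ≠ 0 → b' ≠ 0 → a (T b) * a (T b) = a (T b') * a (T b') := by
    intro b b' hb hb'
    have h1 := hsq1 (Units.mk0 (b / b') (div_ne_zero hb hb')) b'
    rw [Units.val_mk0, div_mul_cancel₀ b hb'] at h1
    exact h1
  obtain ⟨ε, hεd⟩ : ∃ ε, ε = a (T 1) * a (T 1) := ⟨_, rfl⟩
  have hε1 : ε = 1 ∨ ε = trcz r := by rw [hεd]; exact hsq 1
  have hεb : ∀ b : K, b ≠ 0 → a (T b) * a (T b) = ε := fun b hb => by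
    rw [hεd]
    exact hε b 1 hb one_ne_zero
  have hεε := hzz ε hε1
  -- the commutators
  have hcomm : ∀ b b' : K, b ≠ 0 → b' ≠ 0 → b ≠ b' → a (T b') * a (T b) = ε * (a (T b) * a (T b')) := by
    intro b b' hb hb' hbb
    have hsum : b + b' ≠ 0 := by
      rw [Ne, CharTwo.add_eq_zero]
      exact hbb
    obtain ⟨z, hz, h1⟩ := hTsum b b'
    have h2 := hεb _ hsum
    have h3 : z * (a (T b) * a (T b')) * (z * (a (T b) * a (T b'))) =
        (z * z) * ((a (T b) * a (T b')) * (a (T b) * a (T b'))) := by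
      have h4 := hzc z (a (T b) * a (T b')) hz
      rw [mul_assoc, ← mul_assoc (a (T b) * a (T b')) z, ← h4]
      group
    rw [h1, h3, hzz z hz, one_mul] at h2
    -- `x y x y = ε`, `x x = ε`, `y y = ε`
    have h5 : (a (T b))⁻¹ = ε * a (T b) := by
      rw [inv_eq_iff_mul_eq_one, ← mul_assoc, ← hzc ε _ hε1, mul_assoc, hεb b hb, hεε]
    have h6 : (a (T b'))⁻¹ = ε * a (T b') := by
      rw [inv_eq_iff_mul_eq_one, ← mul_assoc, ← hzc ε _ hε1, mul_assoc, hεb b' hb', hεε]
    have h7 : a (T b') * a (T b) = (a (T b))⁻¹ * ε * (a (T b'))⁻¹ := by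
      rw [← h2]
      group
    rw [h7, h5, h6, mul_assoc ε, ← hzc ε _ hε1, ← mul_assoc, ← mul_assoc, hεε, one_mul, mul_assoc,
      ← mul_assoc (a (T b)) ε, ← hzc ε _ hε1, mul_assoc]
  -- `ε = 1`
  have hone : ε = 1 := by
    obtain ⟨b, hb⟩ := trc_exists hK ({0, 1} : Finset K) ((Finset.card_le_two).trans (by norm_num))
    obtain ⟨c, hc⟩ := trc_exists hK ({0, 1, b, 1 + b} : Finset K) Finset.card_le_four
    simp only [Finset.mem_insert, Finset.mem_singleton, not_or] at hb hc
    have hbc : b + c ≠ 0 := by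
      rw [Ne, CharTwo.add_eq_zero]
      exact fun h => hc.2.2.1 h.symm
    have h1bc : 1 ≠ b + c := by
      intro h
      apply hc.2.2.2
      rw [h, add_comm b c, add_assoc, CharTwo.add_self_eq_zero, add_zero]
    have h1 := hcomm 1 b one_ne_zero hb.1 (Ne.symm hb.2)
    have h2 := hcomm 1 c one_ne_zero hc.1 (Ne.symm hc.2.1)
    have h3 := hcomm 1 (b + c) one_ne_zero hbc h1bc
    obtain ⟨z, hz, h4⟩ := hTsum b c
    rw [h4] at h3
    -- `z y w x = ε x z y w`
    have h5 : (a (T b) * a (T c)) * a (T 1) = ε * (a (T 1) * (a (T b) * a (T c))) := by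
      have h6 : z * ((a (T b) * a (T c)) * a (T 1)) = z * (ε * (a (T 1) * (a (T b) * a (T c)))) := by
        rw [← mul_assoc, h3, ← mul_assoc (a (T 1)) z, ← hzc z _ hz, ← mul_assoc, ← mul_assoc, ← mul_assoc,
          ← hzc z ε hz]
        simp only [mul_assoc]
      exact mul_left_cancel h6
    have h7 : (a (T b) * a (T c)) * a (T 1) = a (T 1) * (a (T b) * a (T c)) := by
      rw [mul_assoc, h2, ← mul_assoc, ← hzc ε _ hε1, mul_assoc, ← mul_assoc (a (T b)), h1, mul_assoc,
        ← mul_assoc ε ε, hεε, one_mul, mul_assoc]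
    rw [h7] at h5
    exact (mul_eq_right.1 h5.symm)
  -- the lifts of the translations commute, and their squares are trivial
  have hT0 : a (T 0) = 1 ∨ a (T 0) = trcz r := (hsg _).1 (Subtype.ext (by rw [hTv, trct_zero]; rfl))
  have hTsq : ∀ b, a (T b) * a (T b) = 1 := by
    intro b
    by_cases hb : b = 0
    · subst hb
      exact hzz _ hT0
    · rw [hεb b hb, hone]
  have hTT : ∀ b b', a (T b) * a (T b') = a (T b') * a (T b) := by
    intro b b'
    by_cases hb : b = 0
    · subst hb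
      exact hzc _ _ hT0
    by_cases hb' : b' = 0
    · subst hb'
      exact (hzc _ _ hT0).symm
    by_cases hbb : b = b'
    · rw [hbb]
    · rw [hcomm b b' hb hb' hbb, hone, one_mul]
  have hTinv : ∀ b, (a (T b))⁻¹ = a (T b) := fun b => by
    rw [inv_eq_iff_mul_eq_one, hTsq]
  -- the homomorphism `s`
  obtain ⟨c, hc⟩ := trc_exists hK ({0, 1} : Finset K) ((Finset.card_le_two).trans (by norm_num))
  simp only [Finset.mem_insert, Finset.mem_singleton, not_or] at hc
  have hc1 : c - 1 ≠ 0 := sub_ne_zero.2 hc.2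
  obtain ⟨w, hw⟩ : ∃ w : Kˣ, (w : K) = c := ⟨Units.mk0 c hc.1, rfl⟩
  let κ : (((Fin r → ℤ_[2]) ≃ₗ[ℤ_[2]] (Fin r → ℤ_[2]))) → (((Fin r → ℤ_[2]) ≃ₗ[ℤ_[2]] (Fin r → ℤ_[2]))) :=
    fun g => a (C w) * g * (a (C w))⁻¹ * g⁻¹
  have hκz : ∀ z g, (z = 1 ∨ z = trcz r) → κ (z * g) = κ g := by
    intro z g hz
    show a (C w) * (z * g) * (a (C w))⁻¹ * (z * g)⁻¹ = a (C w) * g * (a (C w))⁻¹ * g⁻¹
    rw [hzc z g hz, mul_inv_rev]
    have h1 := hzc z (a (C w))⁻¹ hz
    have h2 : a (C w) * (g * z) * (a (C w))⁻¹ * (z⁻¹ * g⁻¹) = a (C w) * g * (z * (a (C w))⁻¹) * z⁻¹ * g⁻¹ := by group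
    rw [h2, h1]
    group
  let s : K → ((Fin r → ℤ_[2]) ≃ₗ[ℤ_[2]] (Fin r → ℤ_[2])) := fun b => κ (a (T (b / (c - 1))))
  -- `s b` is a lift of the translation by `b`
  have hsT : ∀ b, ∃ z, (z = 1 ∨ z = trcz r) ∧ s b = z * a (T b) := by
    intro b
    have h1 : s b = a (C w * T (b / (c - 1)) * (C w)⁻¹ * (T (b / (c - 1)))⁻¹) := by
      rw [map_mul, map_mul, map_mul, map_inv, map_inv]
    rw [h1]
    refine hsame _ _ (hval _ _ ?_)
    rw [hmul, hmul, hmul, hinv, hinv, hTv, hTv, hCv, trcm_conj, mul_inv_eq_iff_eq_mul, trct_add, hw]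
    congr 1
    field_simp
    ring
  have hssq : ∀ b, s b * s b = 1 := by
    intro b
    obtain ⟨z, hz, h1⟩ := hsT b
    rw [h1, mul_assoc, ← mul_assoc (a (T b)) z, ← hzc z _ hz, mul_assoc, hTsq, mul_one, hzz z hz]
  have hss : ∀ b b', s b * s b' = s b' * s b := by
    intro b b'
    obtain ⟨z, hz, h1⟩ := hsT b
    obtain ⟨z', hz', h2⟩ := hsT b'
    rw [h1, h2, mul_assoc z, ← mul_assoc (a (T b)) z', ← hzc z' _ hz', mul_assoc z', hTT b b', ← mul_assoc z z',
      hzc z z' hz, mul_assoc z' z, ← mul_assoc z (a (T b')), hzc z _ hz, mul_assoc (a (T b')) z, ← mul_assoc z']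
  have hsadd : ∀ b b', s (b + b') = s b * s b' := by
    intro b b'
    have h0 : (b + b') / (c - 1) = b / (c - 1) + b' / (c - 1) := add_div _ _ _
    obtain ⟨z, hz, h1⟩ := hTsum (b / (c - 1)) (b' / (c - 1))
    show κ (a (T ((b + b') / (c - 1)))) = s b * s b'
    rw [h0, h1, hκz z _ hz]
    -- commute
    obtain ⟨z', hz', h2⟩ := hsT b'
    have h3 : s b' * a (T (b / (c - 1))) = a (T (b / (c - 1))) * s b' := by
      rw [h2, mul_assoc, hTT b' (b / (c - 1)), ← mul_assoc, hzc z' _ hz', mul_assoc]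
    have h4 : s b' * (a (T (b / (c - 1))))⁻¹ = (a (T (b / (c - 1))))⁻¹ * s b' := by
      rw [hTinv]
      exact h3
    show a (C w) * (a (T (b / (c - 1))) * a (T (b' / (c - 1)))) * (a (C w))⁻¹ *
      (a (T (b / (c - 1))) * a (T (b' / (c - 1))))⁻¹ = _
    have h5 : a (C w) * (a (T (b / (c - 1))) * a (T (b' / (c - 1)))) * (a (C w))⁻¹ *
        (a (T (b / (c - 1))) * a (T (b' / (c - 1))))⁻¹ =
        (a (C w) * a (T (b / (c - 1))) * (a (C w))⁻¹) * (s b' * (a (T (b / (c - 1))))⁻¹) := by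
      show _ = (a (C w) * a (T (b / (c - 1))) * (a (C w))⁻¹) * ((a (C w) * a (T (b' / (c - 1))) * (a (C w))⁻¹ *
        (a (T (b' / (c - 1))))⁻¹) * (a (T (b / (c - 1))))⁻¹)
      group
    rw [h5, h4, ← mul_assoc]
  have hsC : ∀ (v : Kˣ) (b : K), a (C v) * s b * (a (C v))⁻¹ = s (v * b) := by
    intro v b
    obtain ⟨z, hz, h1⟩ := hTC v (b / (c - 1))
    obtain ⟨z', hz', h2⟩ := hCC v w
    have h0 : (v : K) * b / (c - 1) = v * (b / (c - 1)) := mul_div_assoc _ _ _
    show _ = κ (a (T (v * b / (c - 1))))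
    rw [h0, h1, hκz z _ hz]
    show a (C v) * (a (C w) * a (T (b / (c - 1))) * (a (C w))⁻¹ * (a (T (b / (c - 1))))⁻¹) * (a (C v))⁻¹ =
      a (C w) * (a (C v) * a (T (b / (c - 1))) * (a (C v))⁻¹) * (a (C w))⁻¹ *
        (a (C v) * a (T (b / (c - 1))) * (a (C v))⁻¹)⁻¹
    have h3 : a (C w) * (a (C v) * a (T (b / (c - 1))) * (a (C v))⁻¹) * (a (C w))⁻¹ =
        (a (C v) * a (C w) * (a (C v))⁻¹) * (a (C v) * a (T (b / (c - 1))) * (a (C v))⁻¹) *
          (a (C v) * a (C w) * (a (C v))⁻¹)⁻¹ := by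
      have h4 : ∀ y, a (C w) * y * (a (C w))⁻¹ =
          (a (C v) * a (C w) * (a (C v))⁻¹) * y * (a (C v) * a (C w) * (a (C v))⁻¹)⁻¹ := by
        intro y
        have h5 : ∀ x y : ((Fin r → ℤ_[2]) ≃ₗ[ℤ_[2]] (Fin r → ℤ_[2])), (z' * x) * y * (z' * x)⁻¹ = x * y * x⁻¹ := by
          intro x y
          rw [hzc z' x hz', mul_inv_rev, mul_assoc x z' y, hzc z' y hz']
          group
        conv_lhs => rw [h2]
        exact h5 _ _
      exact h4 _
    rw [h3]
    group
  -- a vector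
  have hs1 : s 1 ≠ 1 := by
    intro h
    obtain ⟨z, hz, h1⟩ := hsT 1
    rw [h] at h1
    have h2 : a (T 1) = 1 ∨ a (T 1) = trcz r := by
      rcases hz with rfl | rfl
      · left
        rw [one_mul] at h1
        exact h1.symm
      · right
        have h3 := congrArg (fun x => trcz r * x) h1
        rw [mul_one, ← mul_assoc, trcz_mul_self, one_mul] at h3
        exact h3.symm
    have h4 := congrArg (fun x : alternatingGroup K => (x : Equiv.Perm K)) ((hsg _).2 h2)
    rw [hTv] at h4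
    exact one_ne_zero (trct_eq_one h4)
  obtain ⟨v₀, hv₀⟩ : ∃ v, s 1 v ≠ v := by
    by_contra hcon
    push Not at hcon
    exact hs1 (LinearEquiv.ext hcon)
  have hw₀ : s 1 v₀ - v₀ ≠ 0 := sub_ne_zero.2 hv₀
  have hw₁ : s 1 (s 1 v₀ - v₀) = -(s 1 v₀ - v₀) := by
    have h1 : s 1 (s 1 v₀) = v₀ := by
      show (s 1 * s 1) v₀ = v₀
      rw [hssq]
      rfl
    rw [map_sub, h1, neg_sub]
  obtain ⟨u, hu, hu1, hu2⟩ := trc_joint (Finset.univ.image s) (by
    intro x hx
    obtain ⟨b, -, rfl⟩ := Finset.mem_image.1 hx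
    exact hssq b) (by
    intro x hx y hy
    obtain ⟨b, -, rfl⟩ := Finset.mem_image.1 hx
    obtain ⟨b', -, rfl⟩ := Finset.mem_image.1 hy
    exact hss b b') hw₀
  have hu3 : s 1 u = -u := hu2 (s 1) (by
    intro x hx
    obtain ⟨b, -, rfl⟩ := Finset.mem_image.1 hx
    exact hss 1 b) hw₁
  have hu4 : ∀ b, s b u = u ∨ s b u = -u := fun b => hu1 _ (Finset.mem_image_of_mem _ (Finset.mem_univ b))
  -- the character
  let χ : K → ℤ_[2] := fun b => if s b u = u then 1 else -1
  have hχ : ∀ b, s b u = χ b • u := by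
    intro b
    by_cases h : s b u = u
    · simp only [χ, if_pos h, one_smul, h]
    · simp only [χ, if_neg h, neg_smul, one_smul]
      exact (hu4 b).resolve_left h
  have hχsq : ∀ b, χ b * χ b = 1 := by
    intro b
    by_cases h : s b u = u
    · simp only [χ, if_pos h, mul_one]
    · simp only [χ, if_neg h]
      norm_num
  have hχadd : ∀ b b', χ (b + b') = χ b * χ b' := by
    intro b b'
    have h1 : χ (b + b') • u = (χ b * χ b') • u := by
      rw [← hχ, hsadd]
      show s b (s b' u) = _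
      rw [hχ b', map_smul, hχ b, smul_smul, mul_comm]
    exact smul_left_injective _ hu h1
  have hχ1 : χ 1 = -1 := by
    have h1 : s 1 u ≠ u := by
      rw [hu3]
      intro h
      apply hu
      have h2 : u + u = 0 := by
        conv_lhs => rw [← h]
        rw [h]
        nth_rewrite 1 [← h]
        exact neg_add_cancel u
      have h3 : (2 : ℤ_[2]) • u = 0 := by rw [two_smul, h2]
      exact (smul_eq_zero.1 h3).resolve_left two_ne_zero
    simp only [χ, if_neg h1]
  have hcard := trc_count (κ := Kˣ) (ι := K) (r := r)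
    (fun b => ((s b : (Fin r → ℤ_[2]) ≃ₗ[ℤ_[2]] (Fin r → ℤ_[2])) : Module.End ℤ_[2] (Fin r → ℤ_[2])))
    (fun b b' => by
      refine LinearMap.ext fun v => ?_
      show (s b * s b') v = (s b' * s b) v
      rw [hss])
    (fun v b => χ ((v⁻¹ : Kˣ) * b)) (by
      intro v v' hvv
      by_contra hne
      have h1 : ((v⁻¹ : Kˣ) : K) + ((v'⁻¹ : Kˣ) : K) ≠ 0 := by
        rw [Ne, CharTwo.add_eq_zero]
        intro h
        exact hne (inv_injective (Units.ext h))
      have h2 := congrFun hvv (((v⁻¹ : Kˣ) : K) + ((v'⁻¹ : Kˣ) : K))⁻¹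
      simp only at h2
      have h3 := hχadd (((v⁻¹ : Kˣ) : K) * (((v⁻¹ : Kˣ) : K) + ((v'⁻¹ : Kˣ) : K))⁻¹)
        (((v'⁻¹ : Kˣ) : K) * (((v⁻¹ : Kˣ) : K) + ((v'⁻¹ : Kˣ) : K))⁻¹)
      rw [← add_mul, mul_inv_cancel₀ h1, hχ1, h2, hχsq] at h3
      exact absurd h3 (by norm_num))
    (fun v => a (C v) u) (fun v h => hu (by
      have h1 : a (C v) u = a (C v) 0 := by rw [h, map_zero]
      exact (a (C v)).injective h1))
    (fun v b => by
      show s b (a (C v) u) = χ ((v⁻¹ : Kˣ) * b) • a (C v) u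
      have h1 := hsC v ((v⁻¹ : Kˣ) * b)
      rw [Units.mul_inv_cancel_left] at h1
      have h2 : s b (a (C v) u) = (s b * a (C v)) u := rfl
      rw [h2, ← h1, inv_mul_cancel_right]
      show a (C v) (s _ u) = _
      rw [hχ, map_smul])
  rw [Fintype.card_units] at hcard
  omega

end

end Pool.Agent.Lib.MP_89bcae_ag.Xs
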