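import Mathlib
import Pool.Agent.Lib.MP_89bcae_ag.Xs.Hrt
import Pool.Agent.Lib.MP_89bcae_ag.Xs.Ker
import Pool.Agent.Lib.MP_89bcae_ag.Xs.Trc
import Pool.Agent.Lib.MP_89bcae_ag.Xs.Red

/-!
# The heart does not lift
-/

open scoped Classical

namespace Pool.Agent.Lib.MP_89bcae_ag.Xs

section

variable {X : Type} [Fintype X]

omit [Fintype X] in
private lemma nol_mk_eq {f g : X → ZMod 2} :
    (QuotientAddGroup.mk f : (X → ZMod 2) ⧸ Cst X) = QuotientAddGroup.mk g ↔ ∃ c, ∀ x, g x = f x + c := by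
  rw [QuotientAddGroup.eq]
  constructor
  · rintro ⟨c, hc⟩
    exact ⟨c, fun x => by have := hc x; rw [Pi.add_apply, Pi.neg_apply] at this; rw [← this]; ring⟩
  · rintro ⟨c, hc⟩
    exact ⟨c, fun x => by rw [Pi.add_apply, Pi.neg_apply, hc]; ring⟩

omit [Fintype X] in
private lemma nol_comp (g : Equiv.Perm X) {f f' : X → ZMod 2}
    (h : (QuotientAddGroup.mk f : (X → ZMod 2) ⧸ Cst X) = QuotientAddGroup.mk f') :
    (QuotientAddGroup.mk (fun x => f (g x)) : (X → ZMod 2) ⧸ Cst X) = QuotientAddGroup.mk fun x => f' (g x) := by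
  obtain ⟨c, hc⟩ := nol_mk_eq.1 h
  exact nol_mk_eq.2 ⟨c, fun x => hc (g x)⟩

/-- the group of the pairs `(γ, g)`, where `γ` lifts `g` -/
def nolGrp {r : ℕ} (Γ : Subgroup ((Fin r → ℤ_[2]) ≃ₗ[ℤ_[2]] (Fin r → ℤ_[2])))
    (p : (Fin r → ℤ_[2]) →+ (X → ZMod 2) ⧸ Cst X) :
    Subgroup (((Fin r → ℤ_[2]) ≃ₗ[ℤ_[2]] (Fin r → ℤ_[2])) × alternatingGroup X) where
  carrier := {h | h.1 ∈ Γ ∧ ∀ v (f : X → ZMod 2), p v = QuotientAddGroup.mk f →
      p (h.1 v) = QuotientAddGroup.mk fun x => f (((h.2 : Equiv.Perm X)⁻¹ : Equiv.Perm X) x)}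
  one_mem' := ⟨Γ.one_mem, fun v f h => h⟩
  mul_mem' := by
    rintro ⟨γ, g⟩ ⟨γ', g'⟩ ⟨h1, h2⟩ ⟨h1', h2'⟩
    refine ⟨Γ.mul_mem h1 h1', fun v f h => ?_⟩
    have := h2 (γ' v) _ (h2' v f h)
    refine this.trans ?_
    congr 1
  inv_mem' := by
    rintro ⟨γ, g⟩ ⟨h1, h2⟩
    refine ⟨Γ.inv_mem h1, fun v f h => ?_⟩
    obtain ⟨f', hf'⟩ := QuotientAddGroup.mk_surjective (p (γ⁻¹ v))
    have h3 := h2 (γ⁻¹ v) f' hf'.symm
    have h4 : γ (γ⁻¹ v) = v := LinearEquiv.apply_symm_apply γ v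
    rw [show ((γ, g).1 : (Fin r → ℤ_[2]) ≃ₗ[ℤ_[2]] (Fin r → ℤ_[2])) = γ from rfl, h4, h] at h3
    have h5 := nol_comp (g : Equiv.Perm X) h3
    refine (hf'.symm.trans ?_)
    have h6 : (fun x => f (((((γ, g)⁻¹ : _ × alternatingGroup X).2 : Equiv.Perm X)⁻¹ : Equiv.Perm X) x)) =
        fun x => f ((g : Equiv.Perm X) x) := by
      funext x
      congr 1
    rw [h6, h5]
    congr 1
    funext x
    simp

lemma nol_hlift {r : ℕ} (Γ : Subgroup ((Fin r → ℤ_[2]) ≃ₗ[ℤ_[2]] (Fin r → ℤ_[2])))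
    (p : (Fin r → ℤ_[2]) →+ (X → ZMod 2) ⧸ Cst X) (hker : ∀ v, p v = 0 ↔ ∃ w, v = w + w)
    (hran : ∀ y, (∃ v, p v = y) ↔ ∃ f : X → ZMod 2, ∑ x, f x = 0 ∧ QuotientAddGroup.mk f = y)
    (hact : ∀ g ∈ alternatingGroup X, ∃ γ ∈ Γ, ∀ v (f : X → ZMod 2), p v = QuotientAddGroup.mk f →
      p (γ v) = QuotientAddGroup.mk fun x => f (g⁻¹ x)) :
    HLift ((MonoidHom.fst _ _).comp (nolGrp Γ p).subtype) ((MonoidHom.snd _ _).comp (nolGrp Γ p).subtype) p where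
  surj := by
    rintro ⟨g, hg⟩
    obtain ⟨γ, hγ, h⟩ := hact g hg
    exact ⟨⟨(γ, ⟨g, hg⟩), hγ, h⟩, rfl⟩
  inj := fun h h1 h2 => Subtype.ext (Prod.ext h1 h2)
  ker := hker
  ran := hran
  act := fun h v f hf => h.2.2 v f hf

lemma nol_finite {r : ℕ} (Γ : Subgroup ((Fin r → ℤ_[2]) ≃ₗ[ℤ_[2]] (Fin r → ℤ_[2]))) [Finite Γ]
    (p : (Fin r → ℤ_[2]) →+ (X → ZMod 2) ⧸ Cst X) : Finite (nolGrp Γ p) := by
  refine Finite.of_injective (β := Γ × alternatingGroup X)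
    (fun h => (⟨h.1.1, h.2.1⟩, h.1.2)) fun h h' e => ?_
  have h1 := congrArg Prod.fst e
  have h2 := congrArg Prod.snd e
  exact Subtype.ext (Prod.ext (congrArg Subtype.val h1) h2)

/-- the kernel is exactly `± 1` -/
private lemma nol_ker {H : Type} [Group H] [Finite H] {r : ℕ} (hX : 6 ≤ Fintype.card X)
    (hX' : Even (Fintype.card X)) {a : H →* ((Fin r → ℤ_[2]) ≃ₗ[ℤ_[2]] (Fin r → ℤ_[2]))}
    {q : H →* alternatingGroup X} {p : (Fin r → ℤ_[2]) →+ (X → ZMod 2) ⧸ Cst X} (h : HLift a q p) (g : H) :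
    q g = 1 ↔ ((∀ v, a g v = v) ∨ ∀ v, a g v = -v) := by
  refine ⟨fun hg => ker_small hX hX' h hg, fun hg => ?_⟩
  have hneg : ∀ v, p (-v) = p v := by
    intro v
    have h0 : p (v + v) = 0 := (h.ker _).2 ⟨v, rfl⟩
    rw [map_add] at h0
    rw [map_neg]
    exact neg_eq_of_add_eq_zero_left h0
  have hp : ∀ v, p (a g v) = p v := by
    intro v
    rcases hg with hg | hg
    · rw [hg]
    · rw [hg, hneg]
  refine Subtype.ext (inv_injective ?_)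
  have key : ((q g : Equiv.Perm X)⁻¹⁻¹ : Equiv.Perm X) = 1 := by
    have : ((q g : Equiv.Perm X)⁻¹⁻¹ : Equiv.Perm X) = q g := inv_inv _
    rw [this]
    refine heart_faithful (by omega) fun f hf => ?_
    obtain ⟨v, hv⟩ := (h.ran (QuotientAddGroup.mk f)).2 ⟨f, hf, rfl⟩
    have h1 := h.act g v f hv
    rw [hp, hv] at h1
    obtain ⟨c, hc⟩ := nol_mk_eq.1 h1
    exact ⟨c, fun x => by
      show f (((q g : Equiv.Perm X)⁻¹ : Equiv.Perm X) x) - f x = c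
      rw [hc]; ring⟩
  rw [inv_inv] at key
  rw [key]
  rfl

/-- S-G6 (file `Xs/Nol.lean`, from S-G1, G4, G5, G7): the heart does not lift. -/
theorem no_lift (hX : 8 ∣ Fintype.card X) (hX' : Fintype.card X ≠ 0) {r : ℕ}
    (Γ : Subgroup ((Fin r → ℤ_[2]) ≃ₗ[ℤ_[2]] (Fin r → ℤ_[2]))) [Finite Γ]
    (p : (Fin r → ℤ_[2]) →+ (X → ZMod 2) ⧸ Cst X) (hker : ∀ v, p v = 0 ↔ ∃ w, v = w + w)
    (hran : ∀ y, (∃ v, p v = y) ↔ ∃ f : X → ZMod 2, ∑ x, f x = 0 ∧ QuotientAddGroup.mk f = y)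
    (hact : ∀ g ∈ alternatingGroup X, ∃ γ ∈ Γ, ∀ v (f : X → ZMod 2), p v = QuotientAddGroup.mk f →
      p (γ v) = QuotientAddGroup.mk fun x => f (g⁻¹ x)) : False := by
  obtain ⟨i, m, hm, hc⟩ := Nat.exists_eq_two_pow_mul_odd hX'
  have hi : 3 ≤ i := by
    rw [hc, show (8 : ℕ) = 2 ^ 3 by norm_num] at hX
    have h1 : (2 : ℕ) ^ 3 ∣ 2 ^ i := by
      refine Nat.Coprime.dvd_of_dvd_mul_right ?_ hX
      exact Nat.Coprime.pow_left 3 (Nat.coprime_two_left.2 hm)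
    exact (Nat.pow_dvd_pow_iff_le_right (by norm_num)).1 h1
  have hi' : 8 ≤ 2 ^ i := by
    calc 8 = 2 ^ 3 := by norm_num
      _ ≤ 2 ^ i := Nat.pow_le_pow_right (by norm_num) hi
  have : Fact (Nat.Prime 2) := ⟨Nat.prime_two⟩
  let K := GaloisField 2 i
  have hfin : Fintype K := Fintype.ofFinite K
  have hK : Fintype.card K = 2 ^ i := by
    rw [← Nat.card_eq_fintype_card]
    exact GaloisField.card 2 i (by omega)
  have he : Even (Fintype.card K) := by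
    rw [hK]
    exact (Nat.even_pow.2 ⟨even_two, by omega⟩)
  have e : X ≃ K × Fin m := Fintype.equivOfCardEq (by
    rw [Fintype.card_prod, Fintype.card_fin, hK, hc])
  have hH := nol_finite Γ p
  obtain ⟨r', H', i1, i2, a', q', p', h'⟩ := reduce (Z := K) (Y := Fin m) e
    (by rw [Fintype.card_fin]; exact hm) (by omega) he (nol_hlift Γ p hker hran hact)
  exact no_rep (K := K) (by omega) (card_heart (by omega) he p' h'.ker h'.ran) a' q' h'.surj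
    (nol_ker (by omega) he h')

end

end Pool.Agent.Lib.MP_89bcae_ag.Xs
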