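import Mathlib
import Pool.Agent.Lib.MP_89bcae_ag.Xs.Fix
import Pool.Agent.Lib.MP_89bcae_ag.Xs.Cnt
import Pool.Agent.Lib.MP_89bcae_ag.Xs.Nol

/-!
# The heart does not lift: the case of `4 y` points, `y` odd
-/

open scoped Classical

namespace Pool.Agent.Lib.MP_89bcae_ag.Xs

section

variable {R M : Type} [CommRing R] [IsDomain R] [AddCommGroup M] [Module R M] [Module.Finite R M]
  [IsNoetherianRing R]

omit [IsNoetherianRing R] in
/-- Rank and nullity. -/
private lemma rk_null (f : M →ₗ[R] M) :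
    Module.finrank R (LinearMap.range f) + Module.finrank R (LinearMap.ker f) = Module.finrank R M := by
  rw [← Submodule.finrank_quotient_add_finrank (LinearMap.ker f)]
  rw [LinearEquiv.finrank_eq f.quotKerEquivRange]

/-- The dimension formula. -/
private lemma rk_sup (s t : Submodule R M) :
    Module.finrank R (s ⊔ t : Submodule R M) + Module.finrank R (s ⊓ t : Submodule R M) =
      Module.finrank R s + Module.finrank R t := by
  have h := Submodule.rank_sup_add_rank_inf_eq s t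
  rw [← Module.finrank_eq_rank, ← Module.finrank_eq_rank, ← Module.finrank_eq_rank, ← Module.finrank_eq_rank] at h
  exact_mod_cast h

private lemma rk_bot [Module.IsTorsionFree R M] {s : Submodule R M} (h : Module.finrank R s = 0) : s = ⊥ := by
  rw [Submodule.eq_bot_iff]
  intro v hv
  obtain ⟨c, hc, hc'⟩ := Module.finrank_eq_zero_iff.1 h ⟨v, hv⟩
  have h1 : c • v = 0 := congrArg Subtype.val hc'
  rcases smul_eq_zero.1 h1 with h2 | h2
  · exact absurd h2 hc
  · exact h2

/-- A saturated submodule is determined by its rank. -/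
private lemma rk_eq {s t : Submodule R M} (hst : s ≤ t) (hs : ∀ (c : R) (v : M), c ≠ 0 → c • v ∈ s → v ∈ s)
    (h : Module.finrank R t ≤ Module.finrank R s) : s = t := by
  refine le_antisymm hst fun v hv => ?_
  have h1 := Submodule.finrank_quotient_add_finrank (s.comap t.subtype)
  have h2 : Module.finrank R (s.comap t.subtype) = Module.finrank R s :=
    LinearEquiv.finrank_eq (Submodule.comapSubtypeEquivOfLe hst)
  have h3 : Module.finrank R (t ⧸ s.comap t.subtype) = 0 := by omega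
  obtain ⟨c, hc, hc'⟩ := Module.finrank_eq_zero_iff.1 h3 (Submodule.Quotient.mk ⟨v, hv⟩)
  rw [← Submodule.Quotient.mk_smul, Submodule.Quotient.mk_eq_zero] at hc'
  exact hs c v hc hc'

end

section

variable {X : Type} [Fintype X] {H : Type} [Group H] [Finite H] {r : ℕ}
  {a : H →* ((Fin r → ℤ_[2]) ≃ₗ[ℤ_[2]] (Fin r → ℤ_[2]))} {q : H →* alternatingGroup X}
  {p : (Fin r → ℤ_[2]) →+ (X → ZMod 2) ⧸ Cst X}

/-- The fixed vectors. -/
private noncomputable def Kr (a : H →* ((Fin r → ℤ_[2]) ≃ₗ[ℤ_[2]] (Fin r → ℤ_[2]))) (g : H) :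
    Submodule ℤ_[2] (Fin r → ℤ_[2]) :=
  LinearMap.ker ((a g : (Fin r → ℤ_[2]) →ₗ[ℤ_[2]] (Fin r → ℤ_[2])) - 1)

omit [Finite H] in
private lemma mem_Kr {g : H} {v : Fin r → ℤ_[2]} : v ∈ Kr a g ↔ a g v = v := by
  unfold Kr
  rw [LinearMap.mem_ker, LinearMap.sub_apply, sub_eq_zero]
  rfl

omit [Finite H] in
private lemma sat_Kr {g : H} (c : ℤ_[2]) (v : Fin r → ℤ_[2]) (hc : c ≠ 0) (h : c • v ∈ Kr a g) : v ∈ Kr a g := by
  rw [mem_Kr] at h ⊢
  rw [map_smul] at h
  exact smul_right_injective _ hc h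

/-- An even permutation of odd order has a lift of the same order. -/
private lemma exists_odd (hX : 6 ≤ Fintype.card X) (hX' : Even (Fintype.card X)) (h : HLift a q p) {σ : Equiv.Perm X}
    (hσ : σ ∈ alternatingGroup X) {m : ℕ} (hm : Odd m) (hσm : σ ^ m = 1) : ∃ c : H, c ^ m = 1 ∧ (q c : Equiv.Perm X) = σ := by
  obtain ⟨g, hg⟩ := h.surj ⟨σ, hσ⟩
  have h1 : q (g ^ m) = 1 := by
    rw [map_pow, hg]
    exact Subtype.ext hσm
  have h2 : (g ^ m) ^ 2 = 1 := by
    refine h.inj _ ?_ (by rw [map_pow, h1, one_pow])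
    refine LinearEquiv.ext fun v => ?_
    rw [pow_two, map_mul]
    show a (g ^ m) (a (g ^ m) v) = v
    rcases ker_small hX hX' h h1 with h3 | h3
    · rw [h3, h3]
    · rw [h3, h3, neg_neg]
  obtain ⟨n, rfl⟩ := hm
  refine ⟨g ^ (2 * n + 2), ?_, ?_⟩
  · rw [← pow_mul, show (2 * n + 2) * (2 * n + 1) = (2 * n + 1) * 2 * (n + 1) by ring, pow_mul, pow_mul, h2, one_pow]
  · rw [map_pow, hg]
    show σ ^ (2 * n + 2) = σ
    rw [pow_succ, hσm, one_mul]

private lemma uniq (hX : 6 ≤ Fintype.card X) (hX' : Even (Fintype.card X)) (h : HLift a q p) {c d : H} {m : ℕ} (hm : Odd m)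
    (hc : c ^ m = 1) (hd : d ^ m = 1) (hq : q c = q d) : c = d := by
  have h1 : q (c * d⁻¹) = 1 := by
    rw [map_mul, map_inv, hq, mul_inv_cancel]
  have h2 : ∀ v, a c v = a (c * d⁻¹) (a d v) := fun v => by
    rw [← LinearEquiv.mul_apply, ← map_mul, inv_mul_cancel_right]
  refine mul_inv_eq_one.1 (h.inj _ ?_ h1)
  refine LinearEquiv.ext fun v => ?_
  rcases ker_small hX hX' h h1 with h3 | h3
  · exact h3 v
  · have h4 : ∀ v, a c v = -a d v := fun v => by rw [h2, h3]
    have h5 : ∀ (n : ℕ) (v : Fin r → ℤ_[2]), a (c ^ n) v = (-1 : ℤ_[2]) ^ n • a (d ^ n) v := by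
      intro n
      induction n with
      | zero => intro v; rw [pow_zero, pow_zero, pow_zero, one_smul]
      | succ n ih =>
        intro v
        rw [pow_succ, map_mul, LinearEquiv.mul_apply, h4, map_neg, ih, pow_succ, pow_succ, map_mul, LinearEquiv.mul_apply,
          mul_neg_one, neg_smul]
    have h6 := h5 m v
    rw [hc, hd, hm.neg_one_pow, neg_smul, one_smul, map_one] at h6
    have h7 : v = -v := h6
    have h8 : (2 : ℤ_[2]) • v = 0 := by
      rw [two_smul]
      nth_rewrite 1 [h7]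
      exact neg_add_cancel v
    have h9 : v = 0 := by
      rcases smul_eq_zero.1 h8 with h10 | h10
      · exact absurd h10 two_ne_zero
      · exact h10
    rw [h9, map_zero, map_zero]

private lemma comm (hX : 6 ≤ Fintype.card X) (hX' : Even (Fintype.card X)) (h : HLift a q p) {c d : H} {m : ℕ} (hm : Odd m)
    (hc : c ^ m = 1) (hq : Commute (q c) (q d)) : Commute c d := by
  have h1 : d * c * d⁻¹ = c := by
    refine uniq hX hX' h hm ?_ hc ?_
    · rw [conj_pow, hc, mul_one, mul_inv_cancel]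
    · rw [map_mul, map_mul, map_inv, mul_inv_eq_iff_eq_mul]
      exact hq.eq.symm
  exact (mul_inv_eq_iff_eq_mul.1 h1).symm

private lemma rk_fix (hX : 6 ≤ Fintype.card X) (hX' : Even (Fintype.card X)) (h : HLift a q p) {g : H} {m : ℕ} (hm : Odd m)
    (hg : g ^ m = 1) {i j : ℕ} (hi : Nat.card {f : X → ZMod 2 // ∀ x, f ((q g : Equiv.Perm X) x) = f x} * 2 ^ i = 2 ^ j) :
    Module.finrank ℤ_[2] (Kr a g) + i + 2 = j := by
  rw [card_fix (by omega) hX' h hm hg] at hi
  refine Nat.pow_right_injective (le_refl 2) ?_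
  show 2 ^ _ = 2 ^ j
  rw [← hi, pow_add, pow_add]
  unfold Kr
  ring

private lemma rk_three (hX : 6 ≤ Fintype.card X) (hX' : Even (Fintype.card X)) (h : HLift a q p) {c : H}
    (hc : c ^ 3 = 1) (hq : (q c : Equiv.Perm X).IsThreeCycle) : Module.finrank ℤ_[2] (Kr a c) + 2 = r := by
  have h1 := rk_fix hX hX' h (by decide) hc (i := 2) (card_inv_three hq)
  have h2 := card_heart (by omega) hX' p h.ker h.ran
  omega

/-- The lifts of two disjoint cycles. -/
private lemma disj (hX : 6 ≤ Fintype.card X) (hX' : Even (Fintype.card X)) (h : HLift a q p) {c d : H}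
    (hc : c ^ 3 = 1) (hq : (q c : Equiv.Perm X).IsThreeCycle) (hd : d ^ 3 = 1) (hqd : (q d : Equiv.Perm X).IsThreeCycle)
    (hcd : (q c : Equiv.Perm X).Disjoint (q d : Equiv.Perm X)) :
    Module.finrank ℤ_[2] (Kr a (c * d)) + 4 = r ∧ ∀ v, a c (a d v - v) = a d v - v := by
  have hcom : Commute c d := comm hX hX' h (by decide) hc (Subtype.ext hcd.commute.eq)
  have h3 : (c * d) ^ 3 = 1 := by
    rw [hcom.mul_pow, hc, hd, one_mul]
  have h1 := rk_fix hX hX' h (by decide) h3 (i := 4) (by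
    rw [map_mul]
    exact card_inv_two_three hq hqd hcd)
  have h2 := card_heart (by omega) hX' p h.ker h.ran
  have h4 : Module.finrank ℤ_[2] (Kr a (c * d)) + 4 = r := by omega
  refine ⟨h4, ?_⟩
  set A : (Fin r → ℤ_[2]) →ₗ[ℤ_[2]] (Fin r → ℤ_[2]) := (a c : (Fin r → ℤ_[2]) →ₗ[ℤ_[2]] (Fin r → ℤ_[2])) - 1 with hA
  set B : (Fin r → ℤ_[2]) →ₗ[ℤ_[2]] (Fin r → ℤ_[2]) := (a d : (Fin r → ℤ_[2]) →ₗ[ℤ_[2]] (Fin r → ℤ_[2])) - 1 with hB
  set D : (Fin r → ℤ_[2]) →ₗ[ℤ_[2]] (Fin r → ℤ_[2]) := (a (c * d) : (Fin r → ℤ_[2]) →ₗ[ℤ_[2]] (Fin r → ℤ_[2])) - 1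
    with hD
  have hAv : ∀ v, A v = a c v - v := fun v => rfl
  have hBv : ∀ v, B v = a d v - v := fun v => rfl
  have hDv : ∀ v, D v = a c (a d v) - v := fun v => by
    show a (c * d) v - v = _
    rw [map_mul]
    rfl
  have r1 := rk_three hX hX' h hc hq
  have r2 := rk_three hX hX' h hd hqd
  have hM : Module.finrank ℤ_[2] (Fin r → ℤ_[2]) = r := Module.finrank_fin_fun _
  have n1 : Module.finrank ℤ_[2] (LinearMap.range A) + Module.finrank ℤ_[2] (Kr a c) = r := by
    exact (rk_null A).trans hM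
  have n2 : Module.finrank ℤ_[2] (LinearMap.range B) + Module.finrank ℤ_[2] (Kr a d) = r := by
    exact (rk_null B).trans hM
  have n3 : Module.finrank ℤ_[2] (LinearMap.range D) + Module.finrank ℤ_[2] (Kr a (c * d)) = r := by
    exact (rk_null D).trans hM
  have h5 : LinearMap.range D ≤ LinearMap.range A ⊔ LinearMap.range B := by
    rintro _ ⟨v, rfl⟩
    refine Submodule.mem_sup.2 ⟨A (a d v), ⟨_, rfl⟩, B v, ⟨_, rfl⟩, ?_⟩
    rw [hAv, hBv, hDv]
    abel
  have h6 := Submodule.finrank_mono h5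
  have h7 := rk_sup (LinearMap.range A) (LinearMap.range B)
  have h8 : LinearMap.range A ⊓ LinearMap.range B = ⊥ := rk_bot (by omega)
  intro v
  have h9 : A (B v) ∈ LinearMap.range A ⊓ LinearMap.range B := by
    refine ⟨⟨_, rfl⟩, A v, ?_⟩
    rw [hAv, hBv, hAv, hBv]
    have h10 : a d (a c v) = a c (a d v) := by
      rw [← LinearEquiv.mul_apply, ← map_mul, ← hcom.eq, map_mul, LinearEquiv.mul_apply]
    rw [map_sub, map_sub, h10]
    abel
  rw [h8, Submodule.mem_bot, hAv, hBv] at h9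
  exact sub_eq_zero.1 h9

/-- The lifts of order `3` of the cycles of length `3` in `B`. -/
private def Tr (q : H →* alternatingGroup X) (B : Finset X) : Set H :=
  {c | c ^ 3 = 1 ∧ (q c : Equiv.Perm X).IsThreeCycle ∧ ∀ x ∉ B, (q c : Equiv.Perm X) x = x}

/-- The vectors fixed by them. -/
private noncomputable def Fr (a : H →* ((Fin r → ℤ_[2]) ≃ₗ[ℤ_[2]] (Fin r → ℤ_[2]))) (q : H →* alternatingGroup X)
    (B : Finset X) : Submodule ℤ_[2] (Fin r → ℤ_[2]) := ⨅ c ∈ Tr q B, Kr a c

omit [Finite H] in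
private lemma mem_Fr {B : Finset X} {v : Fin r → ℤ_[2]} : v ∈ Fr a q B ↔ ∀ c ∈ Tr q B, a c v = v := by
  unfold Fr
  simp only [Submodule.mem_iInf, mem_Kr]

omit [Finite H] in
private lemma sat_Fr {B : Finset X} (c : ℤ_[2]) (v : Fin r → ℤ_[2]) (hc : c ≠ 0) (h : c • v ∈ Fr a q B) :
    v ∈ Fr a q B := by
  rw [mem_Fr] at h ⊢
  exact fun d hd => mem_Kr.1 (sat_Kr c v hc (mem_Kr.2 (h d hd)))

omit [Finite H] in
private lemma conj_Tr {B B' : Finset X} {g c : H} (hB : B.image (q g : Equiv.Perm X) = B') (hc : c ∈ Tr q B') :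
    g⁻¹ * c * g ∈ Tr q B := by
  obtain ⟨h1, h2, h3⟩ := hc
  refine ⟨?_, ?_, fun x hx => ?_⟩
  · have h4 := conj_pow (i := 3) (a := g⁻¹) (b := c)
    rw [inv_inv] at h4
    rw [h4, h1, mul_one, inv_mul_cancel]
  · have h4 := Equiv.Perm.cycleType_conj (σ := (q c : Equiv.Perm X)) (τ := ((q g : Equiv.Perm X))⁻¹)
    rw [inv_inv] at h4
    unfold Equiv.Perm.IsThreeCycle at h2 ⊢
    rw [← h2, ← h4, map_mul, map_mul, map_inv]
    rfl
  · rw [map_mul, map_mul, map_inv]
    show ((q g : Equiv.Perm X)⁻¹ : Equiv.Perm X) ((q c : Equiv.Perm X) ((q g : Equiv.Perm X) x)) = x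
    rw [h3 _ ?_]
    · exact (q g : Equiv.Perm X).symm_apply_apply x
    · rw [← hB, Finset.mem_image]
      rintro ⟨y, hy, hy'⟩
      exact hx (by rwa [← (q g : Equiv.Perm X).injective hy'])

omit [Finite H] in
private lemma rk_conj {B B' : Finset X} {g : H} (hB : B.image (q g : Equiv.Perm X) = B') :
    Module.finrank ℤ_[2] (Fr a q B) ≤ Module.finrank ℤ_[2] (Fr a q B') := by
  rw [← LinearEquiv.finrank_map_eq (a g) (Fr a q B)]
  refine Submodule.finrank_mono ?_
  rintro _ ⟨v, hv, rfl⟩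
  rw [mem_Fr]
  intro c hc
  have h1 := mem_Fr.1 hv _ (conj_Tr hB hc)
  show a c (a g v) = a g v
  rw [map_mul, map_mul, LinearEquiv.mul_apply, LinearEquiv.mul_apply] at h1
  have h2 := congrArg (a g) h1
  rwa [← LinearEquiv.mul_apply, ← map_mul, mul_inv_cancel, map_one] at h2

/-- The even permutations are transitive on the sets of a given order. -/
private lemma exists_even {B B' : Finset X} (hB : B.card = B'.card) (hB2 : 2 ≤ B.card) :
    ∃ σ ∈ alternatingGroup X, B.image σ = B' := by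
  obtain ⟨e⟩ : Nonempty ({x // x ∈ B} ≃ {x // x ∈ B'}) := ⟨Fintype.equivOfCardEq (by
    rw [Fintype.card_coe, Fintype.card_coe, hB])⟩
  have key : ∀ σ : Equiv.Perm X, (∀ x ∈ B, σ x ∈ B') → B.image σ = B' := by
    intro σ hσ
    refine Finset.eq_of_subset_of_card_le ?_ ?_
    · intro y hy
      obtain ⟨x, hx, rfl⟩ := Finset.mem_image.1 hy
      exact hσ x hx
    · rw [Finset.card_image_of_injective _ σ.injective, hB]
  have h1 : ∀ x ∈ B, e.extendSubtype x ∈ B' := fun x hx => e.extendSubtype_mem x hx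
  rcases Int.units_eq_one_or (Equiv.Perm.sign e.extendSubtype) with h2 | h2
  · exact ⟨e.extendSubtype, Equiv.Perm.mem_alternatingGroup.2 h2, key _ h1⟩
  · obtain ⟨x, hx, y, hy, hxy⟩ := Finset.one_lt_card.1 (show 1 < B.card by omega)
    refine ⟨e.extendSubtype * Equiv.swap x y, ?_, key _ fun z hz => ?_⟩
    · rw [Equiv.Perm.mem_alternatingGroup, map_mul, h2, Equiv.Perm.sign_swap hxy]
      rfl
    · refine h1 _ ?_
      rw [Equiv.swap_apply_def]
      split_ifs
      · exact hy
      · exact hx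
      · exact hz

/-- The rank of the vectors fixed by the cycles in a set of four points. -/
private lemma rk_four (hX : 6 ≤ Fintype.card X) (hX' : Even (Fintype.card X)) (h : HLift a q p) {B : Finset X}
    (hB : B.card = 4) : Module.finrank ℤ_[2] (Fr a q B) + 3 ≤ r := by
  by_contra hcon
  have h1 : ∀ B' : Finset X, B'.card = 4 → r ≤ Module.finrank ℤ_[2] (Fr a q B') + 2 := by
    intro B' hB'
    obtain ⟨σ, hσ, hσ'⟩ := exists_even (B := B) (B' := B') (by rw [hB, hB']) (by omega)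
    obtain ⟨g, hg⟩ := h.surj ⟨σ, hσ⟩
    have h2 := rk_conj (a := a) (q := q) (B := B) (B' := B') (g := g) (by
      rw [hg]
      exact hσ')
    omega
  have h2 : ∀ B' : Finset X, B'.card = 4 → ∀ c ∈ Tr q B', Fr a q B' = Kr a c := by
    intro B' hB' c hc
    refine rk_eq (fun v hv => mem_Kr.2 (mem_Fr.1 hv c hc)) sat_Fr ?_
    have h3 := rk_three hX hX' h hc.1 hc.2.1
    have h4 := h1 B' hB'
    omega
  have h3 : ∀ B' : Finset X, B'.card = 4 → ∀ c ∈ Tr q B', ∀ d ∈ Tr q B', Kr a c = Kr a d := by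
    intro B' hB' c hc d hd
    rw [← h2 B' hB' c hc, h2 B' hB' d hd]
  obtain ⟨ι⟩ : Nonempty (Fin 6 ↪ X) := Function.Embedding.nonempty_of_card_le (by
    rw [Fintype.card_fin]
    exact hX)
  have key : ∀ i j k : Fin 6, i ≠ j → i ≠ k → j ≠ k → ∃ c : H, c ^ 3 = 1 ∧ (q c : Equiv.Perm X).IsThreeCycle ∧
      ∀ x, x ≠ ι i → x ≠ ι j → x ≠ ι k → (q c : Equiv.Perm X) x = x := by
    intro i j k hij hik hjk
    have h4 : (Equiv.swap (ι i) (ι j) * Equiv.swap (ι i) (ι k)).IsThreeCycle :=
      Equiv.Perm.isThreeCycle_swap_mul_swap_same (ι.injective.ne hij) (ι.injective.ne hik) (ι.injective.ne hjk)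
    obtain ⟨c, hc, hc'⟩ := exists_odd hX hX' h h4.mem_alternatingGroup (m := 3) (by decide) (by
      rw [← h4.orderOf]
      exact pow_orderOf_eq_one _)
    refine ⟨c, hc, by rw [hc']; exact h4, fun x h5 h6 h7 => ?_⟩
    rw [hc', Equiv.Perm.mul_apply, Equiv.swap_apply_of_ne_of_ne h5 h7, Equiv.swap_apply_of_ne_of_ne h5 h6]
  obtain ⟨c1, hc1, hc1', hc1''⟩ := key 0 1 2 (by decide) (by decide) (by decide)
  obtain ⟨c2, hc2, hc2', hc2''⟩ := key 1 2 3 (by decide) (by decide) (by decide)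
  obtain ⟨c3, hc3, hc3', hc3''⟩ := key 2 3 4 (by decide) (by decide) (by decide)
  obtain ⟨c4, hc4, hc4', hc4''⟩ := key 3 4 5 (by decide) (by decide) (by decide)
  have hcard : ∀ i j k l : Fin 6, i ≠ j → i ≠ k → i ≠ l → j ≠ k → j ≠ l → k ≠ l →
      ({ι i, ι j, ι k, ι l} : Finset X).card = 4 := by
    intro i j k l h1 h2 h3 h4 h5 h6
    rw [Finset.card_insert_of_notMem, Finset.card_insert_of_notMem, Finset.card_insert_of_notMem,
      Finset.card_singleton]
    · simpa using h6
    · simp [h4, h5]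
    · simp [h1, h2, h3]
  have e1 : Kr a c1 = Kr a c2 := by
    refine h3 {ι 0, ι 1, ι 2, ι 3} (hcard 0 1 2 3 (by decide) (by decide) (by decide) (by decide) (by decide) (by decide))
      c1 ⟨hc1, hc1', fun x hx => ?_⟩ c2 ⟨hc2, hc2', fun x hx => ?_⟩
    · simp only [Finset.mem_insert, Finset.mem_singleton, not_or] at hx
      exact hc1'' x hx.1 hx.2.1 hx.2.2.1
    · simp only [Finset.mem_insert, Finset.mem_singleton, not_or] at hx
      exact hc2'' x hx.2.1 hx.2.2.1 hx.2.2.2
  have e2 : Kr a c2 = Kr a c3 := by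
    refine h3 {ι 1, ι 2, ι 3, ι 4} (hcard 1 2 3 4 (by decide) (by decide) (by decide) (by decide) (by decide) (by decide))
      c2 ⟨hc2, hc2', fun x hx => ?_⟩ c3 ⟨hc3, hc3', fun x hx => ?_⟩
    · simp only [Finset.mem_insert, Finset.mem_singleton, not_or] at hx
      exact hc2'' x hx.1 hx.2.1 hx.2.2.1
    · simp only [Finset.mem_insert, Finset.mem_singleton, not_or] at hx
      exact hc3'' x hx.2.1 hx.2.2.1 hx.2.2.2
  have e3 : Kr a c3 = Kr a c4 := by
    refine h3 {ι 2, ι 3, ι 4, ι 5} (hcard 2 3 4 5 (by decide) (by decide) (by decide) (by decide) (by decide) (by decide))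
      c3 ⟨hc3, hc3', fun x hx => ?_⟩ c4 ⟨hc4, hc4', fun x hx => ?_⟩
    · simp only [Finset.mem_insert, Finset.mem_singleton, not_or] at hx
      exact hc3'' x hx.1 hx.2.1 hx.2.2.1
    · simp only [Finset.mem_insert, Finset.mem_singleton, not_or] at hx
      exact hc4'' x hx.2.1 hx.2.2.1 hx.2.2.2
  have hdis : (q c1 : Equiv.Perm X).Disjoint (q c4 : Equiv.Perm X) := by
    intro x
    by_cases h0 : x = ι 0 ∨ x = ι 1 ∨ x = ι 2
    · right
      rcases h0 with rfl | rfl | rfl <;> exact hc4'' _ (ι.injective.ne (by decide)) (ι.injective.ne (by decide))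
        (ι.injective.ne (by decide))
    · left
      simp only [not_or] at h0
      exact hc1'' x h0.1 h0.2.1 h0.2.2
  have h5 := (disj hX hX' h hc1 hc1' hc4 hc4' hdis).1
  have h6 := rk_three hX hX' h hc1 hc1'
  have h7 : Kr a c1 ≤ Kr a (c1 * c4) := by
    intro v hv
    have h8 : v ∈ Kr a c4 := by rwa [← e3, ← e2, ← e1]
    rw [mem_Kr] at hv h8 ⊢
    rw [map_mul, LinearEquiv.mul_apply, h8, hv]
  have h8 := Submodule.finrank_mono h7
  omega

/-- The heart does not lift if the number of the points is `4 y`, where `y` is odd. -/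
theorem no_hlift_odd (hX : 6 ≤ Fintype.card X) {y : ℕ} [NeZero y] (hy : Odd y) (e : X ≃ Fin 4 × ZMod y)
    (h : HLift a q p) : False := by
  have hX' : Even (Fintype.card X) := by
    rw [Fintype.card_congr e, Fintype.card_prod, Fintype.card_fin]
    exact Even.mul_right (by decide) _
  have hr := card_heart (by omega) hX' p h.ker h.ran
  set σ : Equiv.Perm X := (e.trans (Equiv.prodCongr (Equiv.refl _) (Equiv.addRight 1))).trans e.symm with hσdef
  have hσ1 : ∀ x, σ x = e.symm ((e x).1, (e x).2 + 1) := fun x => rfl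
  have hσ : ∀ (k : ℕ) (x : X), (σ ^ k) x = e.symm ((e x).1, (e x).2 + k) := by
    intro k
    induction k with
    | zero =>
      intro x
      rw [pow_zero, Nat.cast_zero, add_zero]
      exact (e.symm_apply_apply x).symm
    | succ k ih =>
      intro x
      rw [pow_succ', Equiv.Perm.mul_apply, ih, hσ1, Equiv.apply_symm_apply, Nat.cast_succ, add_assoc]
  have hσy : σ ^ y = 1 := by
    ext x
    rw [hσ, ZMod.natCast_self, add_zero]
    exact e.symm_apply_apply x
  have hσa : σ ∈ alternatingGroup X := by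
    rw [Equiv.Perm.mem_alternatingGroup]
    rcases Int.units_eq_one_or (Equiv.Perm.sign σ) with h1 | h1
    · exact h1
    · exfalso
      have h2 := congrArg Equiv.Perm.sign hσy
      rw [map_pow, h1, hy.neg_one_pow, map_one] at h2
      exact absurd h2 (by decide)
  obtain ⟨s, hs, hqs⟩ := exists_odd hX hX' h hσa hy hσy
  have hrs : Module.finrank ℤ_[2] (Kr a s) = 2 := by
    have h1 := card_inv_shift (Z := Fin 4) (Y := ZMod y) (Equiv.addRight 1) (fun z z' => ⟨(z' - z).val, by
      have h2 : ∀ (k : ℕ) (z : ZMod y), ((Equiv.addRight (1 : ZMod y)) ^ k) z = z + k := by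
        intro k
        induction k with
        | zero => intro z; rw [pow_zero, Nat.cast_zero, add_zero]; rfl
        | succ k ih =>
          intro z
          rw [pow_succ', Equiv.Perm.mul_apply, ih, Nat.cast_succ, ← add_assoc]
          rfl
      rw [h2, ZMod.natCast_zmod_val, add_sub_cancel]⟩)
    have h2 : Nat.card {f : X → ZMod 2 // ∀ x, f ((q s : Equiv.Perm X) x) = f x} =
        Nat.card {f : Fin 4 × ZMod y → ZMod 2 // ∀ x, f (x.1, (Equiv.addRight (1 : ZMod y)) x.2) = f x} := by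
      refine Nat.card_congr (Equiv.subtypeEquiv (Equiv.arrowCongr e (Equiv.refl _)) fun f => ?_)
      rw [hqs]
      constructor
      · intro h3 x
        have h4 := h3 (e.symm x)
        rw [hσ1, Equiv.apply_symm_apply] at h4
        exact h4
      · intro h3 x
        have h4 := h3 (e x)
        have h5 : f (e.symm ((e x).1, (e x).2 + 1)) = f (e.symm (e x)) := h4
        rw [Equiv.symm_apply_apply] at h5
        exact h5
    have h3 := rk_fix hX hX' h hy hs (i := 0) (j := 4) (by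
      rw [h2, h1, Fintype.card_fin, pow_zero, mul_one])
    omega
  -- the block
  set B : Finset X := Finset.univ.image fun i : Fin 4 => e.symm (i, 0) with hB
  have hBm : ∀ x, x ∈ B ↔ (e x).2 = 0 := by
    intro x
    rw [hB, Finset.mem_image]
    constructor
    · rintro ⟨i, -, rfl⟩
      rw [Equiv.apply_symm_apply]
    · intro h1
      exact ⟨(e x).1, Finset.mem_univ _, by rw [← h1]; exact e.symm_apply_apply x⟩
  have hBc : B.card = 4 := by
    rw [hB, Finset.card_image_of_injective, Finset.card_univ, Fintype.card_fin]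
    intro i j hij
    exact congrArg Prod.fst (e.symm.injective hij)
  have hrB := rk_four hX hX' h hBc
  set E : Subgroup H := Subgroup.closure (Tr q B) with hE
  have : Fintype E := Fintype.ofFinite E
  -- the cycles of the block act trivially on the other blocks
  have key : ∀ c ∈ Tr q B, ∀ k : ℕ, k ≠ 0 → k < y → ∀ x ∈ E, ∀ u : Fin r → ℤ_[2],
      a c (a (s ^ k) (u - a x u)) = a (s ^ k) (u - a x u) := by
    intro c hc k hk hky x hx
    induction hx using Subgroup.closure_induction with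
    | mem x hx =>
      intro u
      set d : H := s ^ k * x * (s ^ k)⁻¹ with hd
      have hd3 : d ^ 3 = 1 := by
        rw [hd, conj_pow, hx.1, mul_one, mul_inv_cancel]
      have hqd : (q d : Equiv.Perm X) = σ ^ k * (q x : Equiv.Perm X) * (σ ^ k)⁻¹ := by
        rw [hd, map_mul, map_mul, map_inv, map_pow, ← hqs]
        rfl
      have hd3' : (q d : Equiv.Perm X).IsThreeCycle := by
        have h1 := hx.2.1
        unfold Equiv.Perm.IsThreeCycle at h1 ⊢
        rw [hqd, Equiv.Perm.cycleType_conj, h1]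
      have hdis : (q c : Equiv.Perm X).Disjoint (q d : Equiv.Perm X) := by
        intro z
        by_cases hz : z ∈ B
        · right
          rw [hqd]
          set z' : X := ((σ ^ k)⁻¹ : Equiv.Perm X) z with hz'
          have h1 : (σ ^ k) z' = z := (σ ^ k).apply_symm_apply z
          show (σ ^ k) ((q x : Equiv.Perm X) z') = z
          rw [hx.2.2 z' ?_, h1]
          intro h2
          rw [hBm] at hz h2
          rw [← h1, hσ, Equiv.apply_symm_apply, h2, zero_add] at hz
          have h3 : ((k : ℕ) : ZMod y) = 0 := hz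
          rw [ZMod.natCast_eq_zero_iff] at h3
          exact absurd (Nat.le_of_dvd (by omega) h3) (by omega)
        · exact Or.inl (hc.2.2 z hz)
      have h1 := (disj hX hX' h hc.1 hc.2.1 hd3 hd3' hdis).2 (a (s ^ k) u)
      have h2 : a d (a (s ^ k) u) = a (s ^ k) (a x u) := by
        rw [← LinearEquiv.mul_apply, ← map_mul, ← LinearEquiv.mul_apply, ← map_mul, hd, inv_mul_cancel_right]
      rw [h2, ← map_sub] at h1
      have h3 : a (s ^ k) (u - a x u) = -a (s ^ k) (a x u - u) := by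
        rw [← map_neg, neg_sub]
      rw [h3, map_neg, h1]
    | one =>
      intro u
      rw [map_one]
      show a c (a (s ^ k) (u - u)) = a (s ^ k) (u - u)
      rw [sub_self, map_zero, map_zero]
    | mul x x' hx hx' ih ih' =>
      intro u
      have h1 : u - a (x * x') u = (u - a x' u) + (a x' u - a x (a x' u)) := by
        rw [map_mul, LinearEquiv.mul_apply]
        abel
      rw [h1, map_add, map_add, ih, ih']
    | inv x hx ih =>
      intro u
      have h1 : u - a x⁻¹ u = -(a x⁻¹ u - a x (a x⁻¹ u)) := by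
        rw [← LinearEquiv.mul_apply, ← map_mul, mul_inv_cancel, map_one]
        show _ = -(a x⁻¹ u - u)
        abel
      rw [h1, map_neg, map_neg, ih]
  -- the homomorphism to the vectors fixed by `s`
  set ψ : (Fin r → ℤ_[2]) →ₗ[ℤ_[2]] (Fin r → ℤ_[2]) :=
    ∑ x : E, (1 - (a (x : H) : (Fin r → ℤ_[2]) →ₗ[ℤ_[2]] (Fin r → ℤ_[2]))) with hψ
  have hψa : ∀ u, ψ u = ∑ x : E, (u - a (x : H) u) := by
    intro u
    rw [hψ, LinearMap.sum_apply]
    rfl
  set φ : (Fin r → ℤ_[2]) →ₗ[ℤ_[2]] (Fin r → ℤ_[2]) :=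
    ∑ k ∈ Finset.range y, (a (s ^ k) : (Fin r → ℤ_[2]) →ₗ[ℤ_[2]] (Fin r → ℤ_[2])) ∘ₗ ψ with hφ
  have hφa : ∀ u, φ u = ∑ k ∈ Finset.range y, a (s ^ k) (ψ u) := by
    intro u
    rw [hφ, LinearMap.sum_apply]
    rfl
  have h1 : LinearMap.range φ ≤ Kr a s := by
    rintro _ ⟨u, rfl⟩
    rw [mem_Kr, hφa, map_sum]
    have h2 : ∀ k, a s (a (s ^ k) (ψ u)) = a (s ^ (k + 1)) (ψ u) := fun k => by
      rw [pow_succ', map_mul]
      rfl
    simp only [h2]
    have h3 := Finset.sum_range_succ (fun k => a (s ^ k) (ψ u)) y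
    rw [Finset.sum_range_succ', hs, pow_zero] at h3
    exact add_right_cancel h3
  have h2 : LinearMap.ker φ ≤ Fr a q B := by
    intro u hu
    rw [LinearMap.mem_ker] at hu
    rw [mem_Fr]
    intro c hc
    have h3 : a c (ψ u) - ψ u = (Fintype.card E : ℤ_[2]) • (a c u - u) := by
      have h4 : ∑ x : E, a c (a (x : H) u) = ∑ x : E, a (x : H) u := by
        refine Fintype.sum_equiv (Equiv.mulLeft (⟨c, Subgroup.subset_closure hc⟩ : E)) _ _ fun x => ?_
        show a c (a (x : H) u) = a (c * (x : H)) u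
        rw [map_mul]
        rfl
      rw [hψa, map_sum]
      simp only [map_sub]
      rw [Finset.sum_sub_distrib, Finset.sum_sub_distrib, h4, Finset.sum_const, Finset.sum_const, Finset.card_univ,
        smul_sub, Nat.cast_smul_eq_nsmul, Nat.cast_smul_eq_nsmul]
      abel
    have h5 : a c (φ u) - φ u = a c (ψ u) - ψ u := by
      rw [hφa, map_sum, ← Finset.sum_sub_distrib, Finset.sum_eq_single 0]
      · rw [pow_zero, map_one]
        rfl
      · intro k hk hk0
        rw [hψa, map_sum, map_sum, ← Finset.sum_sub_distrib]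
        refine Finset.sum_eq_zero fun x _ => ?_
        rw [key c hc k hk0 (Finset.mem_range.1 hk) x x.2, sub_self]
      · intro h6
        exact absurd (Finset.mem_range.2 (Nat.pos_of_ne_zero (NeZero.ne y))) h6
    rw [hu, map_zero, sub_zero, h3] at h5
    rcases smul_eq_zero.1 h5.symm with h6 | h6
    · exact absurd h6 (Nat.cast_ne_zero.2 Fintype.card_ne_zero)
    · exact sub_eq_zero.1 h6
  have h3 := Submodule.finrank_mono h1
  have h4 := Submodule.finrank_mono h2
  have h5 := rk_null φ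
  have h6 : Module.finrank ℤ_[2] (Fin r → ℤ_[2]) = r := Module.finrank_fin_fun _
  omega

end

section

variable {X : Type} [Fintype X]

/-- The heart does not lift. -/
theorem no_lift_four (hX : 4 ∣ Fintype.card X) (hX' : 8 ≤ Fintype.card X) {r : ℕ}
    (Γ : Subgroup ((Fin r → ℤ_[2]) ≃ₗ[ℤ_[2]] (Fin r → ℤ_[2]))) [Finite Γ]
    (p : (Fin r → ℤ_[2]) →+ (X → ZMod 2) ⧸ Cst X) (hker : ∀ v, p v = 0 ↔ ∃ w, v = w + w)
    (hran : ∀ y, (∃ v, p v = y) ↔ ∃ f : X → ZMod 2, ∑ x, f x = 0 ∧ QuotientAddGroup.mk f = y)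
    (hact : ∀ g ∈ alternatingGroup X, ∃ γ ∈ Γ, ∀ v (f : X → ZMod 2), p v = QuotientAddGroup.mk f →
      p (γ v) = QuotientAddGroup.mk fun x => f (g⁻¹ x)) : False := by
  by_cases h8 : 8 ∣ Fintype.card X
  · exact no_lift h8 (by omega) Γ p hker hran hact
  · obtain ⟨y, hy⟩ := hX
    have hodd : Odd y := by
      rw [← Nat.not_even_iff_odd]
      rintro ⟨m, rfl⟩
      exact h8 ⟨m, by omega⟩
    have : NeZero y := ⟨by rintro rfl; omega⟩
    have e : X ≃ Fin 4 × ZMod y := Fintype.equivOfCardEq (by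
      rw [Fintype.card_prod, Fintype.card_fin, ZMod.card, hy])
    have : Finite (nolGrp Γ p) := nol_finite Γ p
    exact no_hlift_odd (by omega) hodd e (nol_hlift Γ p hker hran hact)

end

end Pool.Agent.Lib.MP_89bcae_ag.Xs
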