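import Mathlib
import Pool.Agent.Lib.MP_89bcae_ag.Zt.Rich

set_option autoImplicit false

/-!
# The symmetric group on the even subsets: linear algebra
-/

open scoped Classical

namespace Pool.Agent.Lib.MP_89bcae_ag.Xs.Amp

open ZInj (el el_apply)

/-- One or zero. -/
noncomputable def dl {X : Type*} (i j : X) : ZMod 2 := if i = j then 1 else 0

/-- The vectors `e i j` and the form of the even subsets. -/
structure Conf {X V : Type*} [AddCommGroup V] [Module (ZMod 2) V] (B : LinearMap.BilinForm (ZMod 2) V)
    (e : X → X → V) : Prop where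
  alt : ∀ v, B v v = 0
  add : ∀ i j k, e i j + e j k = e i k
  form : ∀ i j k l, B (e i j) (e k l) = dl i k + dl i l + dl j k + dl j l
  nd : ∀ x, (∀ i j, B x (e i j) = 0) → x = 0
  sp : ∀ ψ : V →ₗ[ZMod 2] ZMod 2, (∀ i j, ψ (e i j) = 0) → ψ = 0

variable {X V : Type*} [AddCommGroup V] [Module (ZMod 2) V] {B : LinearMap.BilinForm (ZMod 2) V} {e : X → X → V}

lemma two (v : V) : v + v = 0 := by
  have h : (2 : ZMod 2) • v = 0 := by
    have h1 : (2 : ZMod 2) = 0 := by decide
    rw [h1, zero_smul]
  rwa [two_smul] at h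

lemma eq_of {a b : V} (h : a + b = 0) : a = b := by
  rw [← add_zero a, ← two b, ← add_assoc, h, zero_add]

lemma conj_lin (t P Q : Module.End (ZMod 2) V) (a b : ZMod 2) :
    t * (a • P + b • Q) * t = a • (t * P * t) + b • (t * Q * t) := by
  rw [mul_add, add_mul, mul_smul_comm, smul_mul_assoc, mul_smul_comm, smul_mul_assoc]

namespace Conf

variable (h : Conf B e)

include h

lemma symm' (x y : V) : B x y = B y x := by
  rw [ZSymp.skew B h.alt, CharTwo.neg_eq]

lemma self (i : X) : e i i = 0 := by
  have h1 := h.add i i i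
  rwa [add_eq_left] at h1

lemma comm (i j : X) : e i j = e j i := by
  apply eq_of
  rw [h.add, h.self]

/-- The transvections permute the vectors. -/
lemma swap {a b : X} (hab : a ≠ b) (k l : X) :
    (1 + el B (e a b) (e a b)) (e k l) = e (Equiv.swap a b k) (Equiv.swap a b l) := by
  change e k l + B (e k l) (e a b) • e a b = _
  rw [h.form, Equiv.swap_apply_def, Equiv.swap_apply_def]
  unfold dl
  by_cases ka : k = a
  · subst ka
    by_cases lk : l = k
    · subst lk
      simp [hab, h.self]
      left
      decide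
    · by_cases lb : l = b
      · subst lb
        simp only [if_true, if_neg hab, if_neg hab.symm]
        simp [h.comm l k]
        left
        decide
      · simp only [if_true, if_neg hab, if_neg lk, if_neg lb, add_zero, one_smul]
        rw [add_comm, h.comm k b, h.add]
  · by_cases kb : k = b
    · subst kb
      by_cases la : l = a
      · subst la
        simp only [if_true, if_neg hab, if_neg ka, add_zero, zero_add]
        simp [h.comm l k]
        left
        decide
      · by_cases lk : l = k
        · subst lk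
          simp [h.self, ka]
          left
          decide
        · simp only [if_true, if_neg ka, if_neg la, if_neg lk, add_zero, zero_add, one_smul]
          rw [add_comm, h.add]
    · by_cases la : l = a
      · subst la
        simp only [if_true, if_neg ka, if_neg kb, if_neg hab, add_zero, zero_add, one_smul]
        rw [h.add]
      · by_cases lb : l = b
        · subst lb
          simp only [if_true, if_neg ka, if_neg kb, if_neg la, add_zero, zero_add, one_smul]
          rw [h.comm a l, h.add]
        · simp only [if_neg ka, if_neg kb, if_neg la, if_neg lb, add_zero, zero_smul]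

/-- Three vectors. -/
lemma form3 {a b c : X} (hab : a ≠ b) (hac : a ≠ c) (hbc : b ≠ c) : B (e a c) (e a b) = 1 := by
  rw [h.form]
  unfold dl
  rw [if_pos rfl, if_neg hab, if_neg hac.symm, if_neg hbc.symm]
  simp

lemma form4 {i j k l : X} (hik : i ≠ k) (hil : i ≠ l) (hjk : j ≠ k) (hjl : j ≠ l) : B (e i j) (e k l) = 0 := by
  rw [h.form]
  unfold dl
  rw [if_neg hik, if_neg hil, if_neg hjk, if_neg hjl]
  simp

/-- A transvection is an involution. -/
lemma inv (v : V) : (1 + el B v v) * (1 + el B v v) = (1 : Module.End (ZMod 2) V) := by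
  ext x
  change (x + B x v • v) + B (x + B x v • v) v • v = x
  simp only [map_add, map_smul, LinearMap.add_apply, LinearMap.smul_apply, smul_eq_mul, h.alt, mul_zero, add_zero]
  rw [add_assoc, two, add_zero]

section L1

variable {T : Module.End (ZMod 2) V}

lemma conj_apply (v x : V) : (((1 + el B v v) * T * (1 + el B v v)) : Module.End (ZMod 2) V) x + T x =
    B x v • (T v + B (T v) v • v) + B (T x) v • v := by
  change (T (x + B x v • v) + B (T (x + B x v • v)) v • v) + T x = _
  simp only [map_add, map_smul, LinearMap.add_apply, LinearMap.smul_apply, smul_eq_mul, smul_add, add_smul, mul_smul]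
  have h1 := two (T x)
  calc T x + B x v • T v + (B (T x) v • v + B x v • B (T v) v • v) + T x =
      (T x + T x) + (B x v • T v + B x v • B (T v) v • v + B (T x) v • v) := by abel
    _ = _ := by rw [h1, zero_add]

/-- The endomorphisms which commute with the transvections. -/
lemma scalar (hX : ∀ a b : X, ∃ c, c ≠ a ∧ c ≠ b) (h1 : ∀ a b, a ≠ b → ∀ x, B x (e a b) • (T (e a b) + B (T (e a b)) (e a b) • e a b) +
    B (T x) (e a b) • e a b = 0) (hT : T ≠ 0) : T = 1 := by
  have hne : ∀ a b, a ≠ b → e a b ≠ 0 := by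
    intro a b hab h0
    obtain ⟨c, hca, hcb⟩ := hX a b
    have h2 := h.form3 hab hca.symm hcb.symm
    rw [h0, map_zero] at h2
    exact zero_ne_one h2
  have h2 : ∀ a b, a ≠ b → B (T (e a b)) (e a b) = 0 := by
    intro a b hab
    have h3 := h1 a b hab (e a b)
    rw [h.alt, zero_smul, zero_add] at h3
    exact (smul_eq_zero.1 h3).resolve_right (hne a b hab)
  have h3 : ∀ a b, a ≠ b → ∀ x, B x (e a b) • T (e a b) = B (T x) (e a b) • e a b := by
    intro a b hab x
    have h4 := h1 a b hab x
    rw [h2 a b hab, zero_smul, add_zero] at h4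
    exact eq_of h4
  have h4 : ∀ (c : ZMod 2) a b d, a ≠ b → a ≠ d → T (e a b) = c • e a b → T (e a d) = c • e a d := by
    intro c a b d hab had hc
    by_cases hbd : b = d
    · rw [← hbd, hc]
    have h5 := h3 a d had (e a b)
    rw [h.form3 had hab (Ne.symm hbd), one_smul, hc, map_smul, LinearMap.smul_apply,
      h.form3 had hab (Ne.symm hbd), smul_eq_mul, mul_one] at h5
    exact h5
  by_cases hX0 : ∃ a b : X, a ≠ b
  · obtain ⟨a, b, hab⟩ := hX0
    obtain ⟨c, hca, hcb⟩ := hX a b
    have h5 : T (e a b) = B (T (e a c)) (e a b) • e a b := by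
      have h6 := h3 a b hab (e a c)
      rwa [h.form3 hab hca.symm hcb.symm, one_smul] at h6
    set z : ZMod 2 := B (T (e a c)) (e a b) with hz
    have h6 : ∀ d, d ≠ a → ∀ k, k ≠ d → T (e d k) = z • e d k := by
      intro d hda k hkd
      have h7 := h4 z a b d hab hda.symm h5
      rw [h.comm a d] at h7
      exact h4 z d a k hda hkd.symm h7
    have h7 : ∀ k l, k ≠ l → T (e k l) = z • e k l := by
      intro k l hkl
      by_cases hka : k = a
      · rw [h.comm k l]
        exact h6 l (fun hl => hkl (hka.trans hl.symm)) k hkl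
      · exact h6 k hka l hkl.symm
    have h8 : ∀ x, T x = z • x := by
      intro x
      apply eq_of
      apply h.nd
      intro i j
      by_cases hij : i = j
      · rw [hij, h.self, map_zero]
      have h9 := h3 i j hij x
      rw [h7 i j hij, smul_smul] at h9
      have h10 := sub_eq_zero.2 h9
      rw [← sub_smul] at h10
      have h11 := (smul_eq_zero.1 h10).resolve_right (hne i j hij)
      rw [map_add, LinearMap.add_apply, map_smul, LinearMap.smul_apply, smul_eq_mul, mul_comm z,
        sub_eq_zero.1 h11, CharTwo.add_self_eq_zero]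
    rcases ZOrd.zmod_two z with h0 | h0
    · exfalso
      apply hT
      ext x
      rw [h8, h0, zero_smul]
      rfl
    · ext x
      rw [h8, h0, one_smul]
      rfl
  · push Not at hX0
    exfalso
    apply hT
    ext x
    have h9 : T x = 0 := h.nd _ fun i j => by rw [hX0 i j, h.self, map_zero]
    rw [h9]
    rfl

end L1

section L2

variable [Fintype X] (hX' : Even (Fintype.card X))

include hX'

/-- The sum of the star. -/
lemma star (i : X) : ∑ k, e k i = 0 := by
  apply h.nd
  intro a b
  rw [map_sum, LinearMap.sum_apply]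
  simp only [h.form]
  rw [Finset.sum_add_distrib, Finset.sum_add_distrib, Finset.sum_add_distrib]
  unfold dl
  simp only [Finset.sum_ite_eq', Finset.mem_univ, if_true, Finset.sum_const, Finset.card_univ, nsmul_eq_mul]
  have h1 : ((Fintype.card X : ℕ) : ZMod 2) = 0 := by
    rw [ZMod.natCast_eq_zero_iff]
    exact hX'.two_dvd
  rw [h1, zero_mul, zero_mul, add_zero, add_zero]
  decide

/-- The functionals which vanish on the vectors disjoint from a given one. -/
lemma functional {i j : X} (hij : i ≠ j) (ψ : V →ₗ[ZMod 2] ZMod 2) (h0 : ∃ c, c ≠ i ∧ c ≠ j)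
    (hψ : ∀ k l, k ≠ i → k ≠ j → l ≠ i → l ≠ j → ψ (e k l) = 0) : ∃ c : ZMod 2, ∀ x, ψ x = c * B x (e i j) := by
  obtain ⟨k₀, hki, hkj⟩ := h0
  have h1 : ∀ k, k ≠ i → k ≠ j → ψ (e k i) = ψ (e k₀ i) := by
    intro k h1 h2
    rw [← h.add k k₀ i, map_add, hψ k k₀ h1 h2 hki hkj, zero_add]
  have h2 : ψ (e i j) = 0 := by
    have h3 := congrArg ψ (h.star hX' i)
    rw [map_sum, map_zero, ← Finset.add_sum_erase _ _ (Finset.mem_univ j),
      ← Finset.add_sum_erase _ _ (Finset.mem_erase.2 ⟨hij, Finset.mem_univ i⟩), h.self, map_zero, zero_add,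
      Finset.sum_congr rfl (fun k hk => h1 k (Finset.mem_erase.1 hk).1 (Finset.mem_erase.1 (Finset.mem_erase.1 hk).2).1),
      Finset.sum_const, Finset.card_erase_of_mem (Finset.mem_erase.2 ⟨hij, Finset.mem_univ i⟩),
      Finset.card_erase_of_mem (Finset.mem_univ j), Finset.card_univ, nsmul_eq_mul] at h3
    have h4 : ((Fintype.card X - 1 - 1 : ℕ) : ZMod 2) = 0 := by
      rw [ZMod.natCast_eq_zero_iff]
      have := hX'.two_dvd
      omega
    rwa [h4, zero_mul, add_zero, h.comm] at h3
  refine ⟨ψ (e k₀ i), fun x => ?_⟩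
  have h3 : ψ + ψ (e k₀ i) • (B.flip (e i j)) = 0 := by
    apply h.sp
    intro k l
    change ψ (e k l) + ψ (e k₀ i) * B (e k l) (e i j) = 0
    -- reduction to `l = i`
    have h4 : ∀ k, ψ (e k i) + ψ (e k₀ i) * B (e k i) (e i j) = 0 := by
      intro k
      by_cases hk : k = i
      · rw [hk, h.self, map_zero, map_zero, LinearMap.zero_apply, mul_zero, add_zero]
      by_cases hk' : k = j
      · rw [hk', h.comm j i, h2, h.alt, mul_zero, add_zero]
      rw [h1 k hk hk', h.form]
      unfold dl
      rw [if_neg hk, if_neg hk', if_pos rfl, if_neg hij]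
      simp only [zero_add, add_zero, mul_one]
      exact CharTwo.add_self_eq_zero _
    have h5 : ψ (e k l) + ψ (e k₀ i) * B (e k l) (e i j) =
        (ψ (e k i) + ψ (e k₀ i) * B (e k i) (e i j)) + (ψ (e l i) + ψ (e k₀ i) * B (e l i) (e i j)) := by
      rw [← h.add k i l, h.comm i l, map_add, map_add, LinearMap.add_apply]
      ring
    rw [h5, h4, h4, add_zero]
  have h4 := LinearMap.congr_fun h3 x
  change ψ x + ψ (e k₀ i) * B x (e i j) = 0 at h4
  rw [← CharTwo.neg_eq (ψ (e k₀ i) * B x (e i j)), ← sub_eq_add_neg] at h4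
  exact sub_eq_zero.1 h4

end L2

section Main

/-- Conjugation of the maps `el`. -/
lemma conj_el (v u w : V) : (1 + el B v v) * el B u w * (1 + el B v v) =
    el B ((1 + el B v v) u) ((1 + el B v v) w) := by
  ext x
  change B (x + B x v • v) u • w + B (B (x + B x v • v) u • w) v • v = B x (u + B u v • v) • (w + B w v • v)
  simp only [map_add, map_smul, LinearMap.add_apply, LinearMap.smul_apply, smul_eq_mul, smul_add, smul_smul]
  rw [h.symm' v u, mul_comm (B x v) (B u v)]

variable [Fintype X] {A : Submodule (ZMod 2) (Module.End (ZMod 2) V)}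
  (hA : ∀ a b, a ≠ b → ∀ T ∈ A, (1 + el B (e a b) (e a b)) * T * (1 + el B (e a b) (e a b)) ∈ A)

include hA

lemma mem_perm (σ : Equiv.Perm X) (a b : ZMod 2) (i j k l : X)
    (hm : a • el B (e i j) (e k l) + b • el B (e k l) (e i j) ∈ A) :
    a • el B (e (σ i) (σ j)) (e (σ k) (σ l)) + b • el B (e (σ k) (σ l)) (e (σ i) (σ j)) ∈ A := by
  induction σ using Equiv.Perm.swap_induction_on with
  | one => exact hm
  | swap_mul f x y hxy ih =>
    have h1 := hA x y hxy _ ih
    rw [conj_lin, h.conj_el, h.conj_el, h.swap hxy, h.swap hxy] at h1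
    exact h1

lemma mem_pair {i j i' j' : X} (hij : i ≠ j) (hij' : i' ≠ j')
    (hm : el B (e i j) (e i j) ∈ A) : el B (e i' j') (e i' j') ∈ A := by
  obtain ⟨σ, hσ⟩ := Equiv.Perm.exists_extending_pair ![i, j] ![i', j'] (by
    intro a b
    fin_cases a <;> fin_cases b <;> simp [hij, hij.symm]) (by
    intro a b
    fin_cases a <;> fin_cases b <;> simp [hij', hij'.symm])
  have h1 := h.mem_perm hA σ 1 0 i j i j (by rwa [one_smul, zero_smul, add_zero])
  have h2 : σ i = i' := hσ 0
  have h3 : σ j = j' := hσ 1
  rwa [one_smul, zero_smul, add_zero, h2, h3] at h1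

lemma mem_four {i j k l : X} (hij : i ≠ j) (hik : i ≠ k) (hil : i ≠ l) (hjk : j ≠ k) (hjl : j ≠ l) (hkl : k ≠ l)
    {i' j' k' l' : X} (hij' : i' ≠ j') (hik' : i' ≠ k') (hil' : i' ≠ l') (hjk' : j' ≠ k') (hjl' : j' ≠ l')
    (hkl' : k' ≠ l') {a b : ZMod 2} (hm : a • el B (e i j) (e k l) + b • el B (e k l) (e i j) ∈ A) :
    a • el B (e i' j') (e k' l') + b • el B (e k' l') (e i' j') ∈ A := by
  obtain ⟨σ, hσ⟩ := Equiv.Perm.exists_extending_pair ![i, j, k, l] ![i', j', k', l'] (by
    intro a b
    fin_cases a <;> fin_cases b <;> simp [hij, hij.symm, hik, hik.symm, hil, hil.symm, hjk, hjk.symm, hjl, hjl.symm,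
      hkl, hkl.symm]) (by
    intro a b
    fin_cases a <;> fin_cases b <;> simp [hij', hij'.symm, hik', hik'.symm, hil', hil'.symm, hjk', hjk'.symm, hjl',
      hjl'.symm, hkl', hkl'.symm])
  have h1 := h.mem_perm hA σ a b i j k l hm
  have h2 : σ i = i' := hσ 0
  have h3 : σ j = j' := hσ 1
  have h4 : σ k = k' := hσ 2
  have h5 : σ l = l' := hσ 3
  rwa [h2, h3, h4, h5] at h1

/-- The case of one vector: the sum of the star is the identity. -/
lemma inj_one (hX' : Even (Fintype.card X)) {i j : X} (hij : i ≠ j)
    (hm : el B (e i j) (e i j) ∈ A) : ∃ T ∈ A, Function.Injective T := by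
  refine ⟨∑ k, el B (e k i) (e k i), ?_, ?_⟩
  · refine Submodule.sum_mem _ fun k _ => ?_
    by_cases hk : k = i
    · rw [hk, h.self, ZInj.el_zero]
      exact A.zero_mem
    · exact h.mem_pair hA hij hk hm
  · have h1 : ∀ x, (∑ k, el B (e k i) (e k i)) x = x := by
      intro x
      apply eq_of
      apply h.nd
      intro a b
      have h2 : ∀ a, B ((∑ k, el B (e k i) (e k i)) x + x) (e a i) = 0 := by
        intro a
        rw [LinearMap.sum_apply, map_add, LinearMap.add_apply, map_sum, LinearMap.sum_apply]
        simp only [el_apply, map_smul, LinearMap.smul_apply, smul_eq_mul]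
        have h3 : ∀ k, B x (e k i) * B (e k i) (e a i) = B x (e k i) * dl k a + B x (e k i) * (1 + dl i a) := by
          intro k
          by_cases hk : k = i
          · rw [hk, h.self, map_zero, zero_mul, zero_mul, zero_mul, add_zero]
          rw [h.form]
          unfold dl
          rw [if_neg hk, if_pos rfl]
          ring
        rw [Finset.sum_congr rfl fun k _ => h3 k, Finset.sum_add_distrib, ← Finset.sum_mul, ← map_sum, h.star hX' i,
          map_zero, zero_mul, add_zero]
        unfold dl
        simp only [mul_ite, mul_one, mul_zero, Finset.sum_ite_eq', Finset.mem_univ, if_true]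
        exact CharTwo.add_self_eq_zero _
      rw [← h.add a i b, map_add, h2, h.comm i b, h2, add_zero]
    intro x y hxy
    rwa [h1, h1] at hxy

omit hA in
/-- The case of two vectors. -/
lemma inj_two (hX : 6 ≤ Fintype.card X) (hX' : Even (Fintype.card X))
    (hm : ∀ i j k l : X, i ≠ j → i ≠ k → i ≠ l → j ≠ k → j ≠ l → k ≠ l →
      el B (e i j) (e k l) + el B (e k l) (e i j) ∈ A) : ∃ T ∈ A, Function.Injective T := by
  obtain ⟨m, hm1, hm2⟩ : ∃ m, Fintype.card X = m + m + 2 ∧ 2 ≤ m := by
    obtain ⟨r, hr⟩ := hX'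
    exact ⟨r - 1, by omega, by omega⟩
  obtain ⟨x, hx, hx'⟩ : ∃ x : ℕ → X, (∀ i j, i < m + m + 2 → j < m + m + 2 → x i = x j → i = j) ∧
      ∀ y, ∃ i < m + m + 2, x i = y := by
    let E : X ≃ Fin (m + m + 2) := Fintype.equivFinOfCardEq hm1
    refine ⟨fun i => E.symm (Fin.ofNat _ i), fun i j hi hj hij => ?_, fun y => ⟨E y, (E y).2, ?_⟩⟩
    · have h1 := congrArg Fin.val (E.symm.injective hij)
      simpa [Fin.ofNat, Nat.mod_eq_of_lt hi, Nat.mod_eq_of_lt hj] using h1
    · change E.symm (Fin.ofNat _ (E y)) = y
      rw [Equiv.symm_apply_eq]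
      apply Fin.ext
      simp [Fin.ofNat, Nat.mod_eq_of_lt (E y).2]
  have hne : ∀ i j, i < m + m + 2 → j < m + m + 2 → i ≠ j → x i ≠ x j := fun i j hi hj hij h1 => hij (hx i j hi hj h1)
  let f : ℕ → V := fun i => e (x i) (x (i + 1))
  -- independence
  have ind : ∀ c : ℕ → ZMod 2, ∑ i ∈ Finset.range (m + m), c i • f i = 0 → ∀ i < m + m, c i = 0 := by
    intro c hc
    have h1 : ∀ j < m + m, ∑ i ∈ Finset.range (m + m), (c i * (if i = j then 1 else 0) +
        c i * (if i + 1 = j then 1 else 0)) = 0 := by
      intro j hj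
      have h2 := congrArg (fun y => B y (e (x j) (x (m + m + 1)))) hc
      simp only [map_sum, map_smul, LinearMap.sum_apply, LinearMap.smul_apply, smul_eq_mul, map_zero,
        LinearMap.zero_apply] at h2
      refine (Finset.sum_congr rfl fun i hi => ?_).trans h2
      rw [Finset.mem_range] at hi
      change _ = c i * B (e (x i) (x (i + 1))) _
      rw [h.form]
      unfold dl
      rw [if_neg (hne i (m + m + 1) (by omega) (by omega) (by omega)),
        if_neg (hne (i + 1) (m + m + 1) (by omega) (by omega) (by omega))]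
      have h3 : (x i = x j) ↔ i = j := ⟨hx i j (by omega) (by omega), fun h => by rw [h]⟩
      have h4 : (x (i + 1) = x j) ↔ i + 1 = j := ⟨hx (i + 1) j (by omega) (by omega), fun h => by rw [h]⟩
      simp only [h3, h4]
      ring
    intro i
    induction i with
    | zero =>
      intro hi
      have h2 := h1 0 hi
      rw [Finset.sum_add_distrib] at h2
      simp only [mul_ite, mul_one, mul_zero, Finset.sum_ite_eq', Finset.mem_range, hi, if_true, Nat.succ_ne_zero,
        if_false, Finset.sum_const_zero, add_zero] at h2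
      exact h2
    | succ i ih =>
      intro hi
      have h2 := h1 (i + 1) hi
      rw [Finset.sum_add_distrib] at h2
      simp only [mul_ite, mul_one, mul_zero, Finset.sum_ite_eq', Finset.mem_range, hi, if_true,
        Nat.add_right_cancel_iff, ih (by omega), (show i < m + m by omega), add_zero] at h2
      exact h2
  -- nondegeneracy
  have nd : ∀ y, (∀ i < m + m, B y (f i) = 0) → y = 0 := by
    intro y hy
    have h1 : ∀ i ≤ m + m, B y (e (x i) (x 0)) = 0 := by
      intro i
      induction i with
      | zero =>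
        intro _
        rw [h.self, map_zero]
      | succ i ih =>
        intro hi
        rw [← h.add (x (i + 1)) (x i) (x 0), h.comm (x (i + 1)) (x i), map_add, ih (by omega), add_zero]
        exact hy i (by omega)
    have h2 : B y (e (x (m + m + 1)) (x 0)) = 0 := by
      have h3 := congrArg (B y) (h.star hX' (x 0))
      rw [map_sum, map_zero, Finset.sum_eq_single (x (m + m + 1))] at h3
      · exact h3
      · intro k _ hk
        obtain ⟨i, hi, rfl⟩ := hx' k
        apply h1
        by_contra h4
        exact hk (congrArg x (by omega))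
      · intro h4
        exact absurd (Finset.mem_univ _) h4
    have h3 : ∀ k, B y (e k (x 0)) = 0 := by
      intro k
      obtain ⟨i, hi, rfl⟩ := hx' k
      by_cases h4 : i ≤ m + m
      · exact h1 i h4
      · rw [show i = m + m + 1 by omega, h2]
    apply h.nd
    intro i j
    rw [← h.add i (x 0) j, map_add, h3, h.comm (x 0) j, h3, add_zero]
  refine ⟨∑ i ∈ Finset.range m, (el B (f i) (f (m + i)) + el B (f (m + i)) (f i)), ?_, ?_⟩
  · refine Submodule.sum_mem _ fun i hi => ?_
    rw [Finset.mem_range] at hi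
    exact hm _ _ _ _ (hne _ _ (by omega) (by omega) (by omega)) (hne _ _ (by omega) (by omega) (by omega))
      (hne _ _ (by omega) (by omega) (by omega)) (hne _ _ (by omega) (by omega) (by omega))
      (hne _ _ (by omega) (by omega) (by omega)) (hne _ _ (by omega) (by omega) (by omega))
  · rw [← LinearMap.ker_eq_bot, LinearMap.ker_eq_bot']
    intro y hy
    have h1 := ind (fun j => if j < m then B y (f (m + j)) else B y (f (j - m))) (by
      rw [Finset.sum_range_add, ← hy, LinearMap.sum_apply, ← Finset.sum_add_distrib]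
      refine Finset.sum_congr rfl fun i hi => ?_
      rw [Finset.mem_range] at hi
      change _ = B y (f i) • f (m + i) + B y (f (m + i)) • f i
      simp only [hi, if_true, show ¬ m + i < m by omega, if_false, Nat.add_sub_cancel_left]
      rw [add_comm])
    apply nd
    intro i hi
    by_cases him : i < m
    · have h2 := h1 (m + i) (by omega)
      simp only [show ¬ m + i < m by omega, if_false, Nat.add_sub_cancel_left] at h2
      exact h2
    · have h2 := h1 (i - m) (by omega)
      simp only [show i - m < m by omega, if_true] at h2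
      rwa [show m + (i - m) = i by omega] at h2

/-- The main theorem. -/
theorem exists_inj (hX : 6 ≤ Fintype.card X) (hX' : Even (Fintype.card X)) (hne : A ≠ ⊥) :
    ∃ T ∈ A, Function.Injective T := by
  have hX3 : ∀ a b : X, ∃ c, c ≠ a ∧ c ≠ b := by
    intro a b
    obtain ⟨c, hc⟩ := Finset.exists_mem_notMem_of_card_lt_card (s := ({a, b} : Finset X)) (t := Finset.univ) (by
      have := Finset.card_le_two (a := a) (b := b)
      rw [Finset.card_univ]
      omega)
    refine ⟨c, ?_⟩
    simpa using hc.2
  obtain ⟨T, hT, hT0⟩ := Submodule.exists_mem_ne_zero_of_ne_bot hne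
  by_cases hcom : ∀ a b, a ≠ b → ∀ x, B x (e a b) • (T (e a b) + B (T (e a b)) (e a b) • e a b) +
      B (T x) (e a b) • e a b = 0
  · rw [h.scalar hX3 hcom hT0] at hT
    exact ⟨1, hT, fun x y hxy => hxy⟩
  push Not at hcom
  obtain ⟨i, j, hij, hx⟩ := hcom
  set r : V := T (e i j) + B (T (e i j)) (e i j) • e i j with hr
  let ψ : V →ₗ[ZMod 2] ZMod 2 := (B.flip (e i j)).comp T
  have hψ : ∀ x, ψ x = B (T x) (e i j) := fun x => rfl
  set R : Module.End (ZMod 2) V := (1 + el B (e i j) (e i j)) * T * (1 + el B (e i j) (e i j)) + T with hR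
  have hRA : R ∈ A := A.add_mem (hA i j hij T hT) hT
  have hRx : ∀ x, R x = B x (e i j) • r + ψ x • e i j := fun x => h.conj_apply (T := T) (e i j) x
  have hR0 : R ≠ 0 := by
    intro h0
    obtain ⟨x, hx⟩ := hx
    apply hx
    have h1 := hRx x
    rw [h0] at h1
    exact h1.symm
  -- the commutator with a disjoint transposition
  have key : ∀ k l, k ≠ l → k ≠ i → k ≠ j → l ≠ i → l ≠ j →
      B r (e k l) • el B (e i j) (e k l) + ψ (e k l) • el B (e k l) (e i j) ∈ A := by
    intro k l hkl hki hkj hli hlj
    have h1 := A.add_mem (hA k l hkl R hRA) hRA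
    refine Eq.mp (congrArg (fun y => y ∈ A) ?_) h1
    ext x
    have h2 := h.conj_apply (T := R) (e k l) x
    change (((1 + el B (e k l) (e k l)) * R * (1 + el B (e k l) (e k l))) : Module.End (ZMod 2) V) x + R x =
      B r (e k l) • B x (e i j) • e k l + ψ (e k l) • B x (e k l) • e i j
    have h3 : B (e i j) (e k l) = 0 := h.form4 hki.symm hli.symm hkj.symm hlj.symm
    have h4 : B (e k l) (e i j) = 0 := by rw [h.symm', h3]
    rw [h2, hRx, hRx, h4, zero_smul, zero_add, map_smul, LinearMap.smul_apply, h3, smul_zero, zero_smul, add_zero, map_add,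
      LinearMap.add_apply, map_smul, LinearMap.smul_apply, map_smul, LinearMap.smul_apply, h3, smul_zero, add_zero,
      smul_eq_mul, mul_comm (B x (e i j)), mul_smul, add_comm, smul_comm (B x (e k l))]
  by_cases hall : ∀ k l, k ≠ l → k ≠ i → k ≠ j → l ≠ i → l ≠ j → B r (e k l) = 0 ∧ ψ (e k l) = 0
  · -- `R` is a multiple of `el`
    have hall' : ∀ k l, k ≠ i → k ≠ j → l ≠ i → l ≠ j → B r (e k l) = 0 ∧ ψ (e k l) = 0 := by
      intro k l h1 h2 h3 h4
      by_cases hkl : k = l
      · rw [hkl, h.self, map_zero, map_zero]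
        exact ⟨rfl, rfl⟩
      · exact hall k l hkl h1 h2 h3 h4
    obtain ⟨c, hc⟩ := h.functional hX' hij ψ (hX3 i j) fun k l h1 h2 h3 h4 => (hall' k l h1 h2 h3 h4).2
    obtain ⟨d, hd⟩ := h.functional hX' hij (B r) (hX3 i j) fun k l h1 h2 h3 h4 => (hall' k l h1 h2 h3 h4).1
    have hrd : r = d • e i j := by
      apply eq_of
      apply h.nd
      intro a b
      rw [map_add, LinearMap.add_apply, hd, map_smul, LinearMap.smul_apply, smul_eq_mul, h.symm' (e a b),
        CharTwo.add_self_eq_zero]
    have h1 : R = (d + c) • el B (e i j) (e i j) := by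
      ext x
      rw [hRx, hrd, hc]
      change _ = (d + c) • B x (e i j) • e i j
      rw [smul_smul, smul_smul, ← add_smul]
      congr 1
      ring
    rcases ZOrd.zmod_two (d + c) with h2 | h2
    · rw [h2, zero_smul] at h1
      exact absurd h1 hR0
    · rw [h2, one_smul] at h1
      rw [h1] at hRA
      exact h.inj_one hA hX' hij hRA
  · push Not at hall
    obtain ⟨k, l, hkl, hki, hkj, hli, hlj, h1⟩ := hall
    have h2 := key k l hkl hki hkj hli hlj
    apply h.inj_two hX hX'
    intro i' j' k' l' hij' hik' hil' hjk' hjl' hkl'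
    have h3 := h.mem_four hA hij hki.symm hli.symm hkj.symm hlj.symm hkl hij' hik' hil' hjk' hjl' hkl' h2
    have h4 := h.mem_four hA hij hki.symm hli.symm hkj.symm hlj.symm hkl hkl' hik'.symm hjk'.symm hil'.symm hjl'.symm
      hij' h2
    rcases ZOrd.zmod_two (B r (e k l)) with h5 | h5
    · have h6 : ψ (e k l) = 1 := (ZOrd.zmod_two _).resolve_left (h1 h5)
      rw [h5, h6, zero_smul, one_smul, zero_add] at h3 h4
      rw [add_comm]
      exact A.add_mem h3 h4
    · rcases ZOrd.zmod_two (ψ (e k l)) with h6 | h6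
      · rw [h5, h6, zero_smul, one_smul, add_zero] at h3 h4
        exact A.add_mem h3 h4
      · rwa [h5, h6, one_smul, one_smul] at h3

end Main

end Conf

end Pool.Agent.Lib.MP_89bcae_ag.Xs.Amp
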