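import Mathlib
import Pool.Agent.Lib.MP_89bcae_ag.Xs.AmpL

set_option autoImplicit false

/-!
# The symmetric group on the even subsets: groups of endomorphisms contain injective ones
-/

open scoped Classical

namespace Pool.Agent.Lib.MP_89bcae_ag.Xs.Amp

open ZInj (el el_apply)

section grp

variable {X V : Type*} [Fintype X] [AddCommGroup V] [Module (ZMod 2) V] {B : LinearMap.BilinForm (ZMod 2) V}
  {e : X → X → V}

/-- `exists_inj` for groups of additive maps. -/
theorem exists_inj_grp (h : Conf B e) (hX : 6 ≤ Fintype.card X) (hX' : Even (Fintype.card X))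
    (A : AddSubgroup (V →+ V)) (hne : A ≠ ⊥)
    (hA : ∀ a b, a ≠ b → ∀ K ∈ A, ((ZSymp.transv B h.alt (e a b) : V ≃+ V) : V →+ V).comp
      (K.comp ((ZSymp.transv B h.alt (e a b)).symm : V →+ V)) ∈ A) : ∃ K ∈ A, Function.Injective K := by
  obtain ⟨T, hT, hinj⟩ := h.exists_inj (A := ZInj.linOf A) (fun a b hab T hT => by
    have h1 := hA a b hab _ hT
    rw [ZInj.mem_linOf]
    refine Eq.mp (congrArg (fun y => y ∈ A) ?_) h1
    ext x
    have h2 : (ZSymp.transv B h.alt (e a b)).symm x = x + B x (e a b) • e a b := by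
      change x - B x (e a b) • e a b = _
      rw [sub_eq_add_neg, ← eq_neg_of_add_eq_zero_left (two (B x (e a b) • e a b))]
    change ZSymp.transv B h.alt (e a b) (T ((ZSymp.transv B h.alt (e a b)).symm x)) =
      ((1 + el B (e a b) (e a b)) * T * (1 + el B (e a b) (e a b))) x
    rw [h2]
    rfl) hX hX' (ZInj.linOf_ne A hne)
  exact ⟨T.toAddMonoidHom, hT, hinj⟩

end grp

section fns

variable {X : Type} [Fintype X]

/-- The functions of sum `0`. -/
def S0 (X : Type) [Fintype X] : AddSubgroup (X → ZMod 2) where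
  carrier := {f | ∑ x, f x = 0}
  zero_mem' := by simp
  add_mem' := by
    intro f g hf hg
    simp only [Set.mem_ofPred_eq, Pi.add_apply, Finset.sum_add_distrib] at *
    rw [hf, hg, add_zero]
  neg_mem' := by
    intro f hf
    simp only [Set.mem_ofPred_eq, Pi.neg_apply, Finset.sum_neg_distrib] at *
    rw [hf, neg_zero]

lemma mem_S0 {f : X → ZMod 2} : f ∈ S0 X ↔ ∑ x, f x = 0 := Iff.rfl

/-- The function of the set `{i, j}`. -/
noncomputable def chi (i j : X) : X → ZMod 2 := Pi.single i 1 + Pi.single j 1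

omit [Fintype X] in
lemma chi_apply (i j x : X) : chi i j x = dl x i + dl x j := by
  unfold chi dl
  rw [Pi.add_apply, Pi.single_apply, Pi.single_apply]

lemma chi_mem (i j : X) : chi i j ∈ S0 X := by
  rw [mem_S0]
  unfold chi
  simp only [Pi.add_apply, Finset.sum_add_distrib, Finset.sum_pi_single', Finset.mem_univ, if_true]
  decide

omit [Fintype X] in
lemma dd (f : X → ZMod 2) : f + f = 0 := by
  ext x
  exact CharTwo.add_self_eq_zero _

lemma chi_add (i j k : X) : chi i j + chi j k = chi i k := by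
  have h1 := dd (Pi.single j (1 : ZMod 2) : X → ZMod 2)
  unfold chi
  calc (Pi.single i 1 + Pi.single j 1 + (Pi.single j 1 + Pi.single k 1) : X → ZMod 2) =
      Pi.single i 1 + (Pi.single j 1 + Pi.single j 1) + Pi.single k 1 := by abel
    _ = _ := by rw [h1, add_zero]

omit [Fintype X] in
lemma chi_comm (i j : X) : chi i j = chi j i := by
  unfold chi
  rw [add_comm]

lemma chi_swap {i j k : X} (hi : i ≠ j) (hj : i ≠ k) : chi i j ∘ Equiv.swap j k = chi i k := by
  ext x
  rw [Function.comp_apply, chi_apply, chi_apply, Equiv.swap_apply_def]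
  unfold dl
  by_cases h1 : x = j
  · subst h1
    rw [if_pos rfl, if_neg hj.symm, if_neg hi.symm]
    by_cases h2 : k = x
    · subst h2
      simp
    · rw [if_neg h2, if_neg (Ne.symm h2)]
  · rw [if_neg h1]
    by_cases h2 : x = k
    · subst h2
      rw [if_pos rfl, if_pos rfl, if_pos rfl, if_neg hi.symm, if_neg hj.symm]
    · rw [if_neg h2, if_neg h1, if_neg h2]

lemma swap_eq (f : X → ZMod 2) (i j : X) : f ∘ Equiv.swap i j = f + (f i + f j) • chi i j := by
  ext x
  rw [Function.comp_apply, Pi.add_apply, Pi.smul_apply, chi_apply, Equiv.swap_apply_def, smul_eq_mul]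
  unfold dl
  by_cases h1 : x = i
  · subst h1
    rw [if_pos rfl, if_pos rfl]
    by_cases h2 : x = j
    · subst h2
      rw [if_pos rfl, CharTwo.add_self_eq_zero, zero_mul, add_zero]
    · rw [if_neg h2, add_zero, mul_one, ← add_assoc, CharTwo.add_self_eq_zero, zero_add]
  · rw [if_neg h1, if_neg h1]
    by_cases h2 : x = j
    · subst h2
      rw [if_pos rfl, if_pos rfl, zero_add, mul_one, add_comm (f i), ← add_assoc, CharTwo.add_self_eq_zero, zero_add]
    · rw [if_neg h2, if_neg h2, add_zero, mul_zero, add_zero]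

/-- The functions of the sets `{i, j}` generate. -/
lemma span (M : AddSubgroup (X → ZMod 2)) (hM : ∀ i j, chi i j ∈ M) : S0 X ≤ M := by
  intro f hf
  rw [mem_S0] at hf
  by_cases hX : Nonempty X
  · obtain ⟨x₀⟩ := hX
    have h1 : f = ∑ x, f x • chi x x₀ := by
      ext y
      rw [Finset.sum_apply]
      simp only [Pi.smul_apply, chi_apply, smul_eq_mul, mul_add, Finset.sum_add_distrib, ← Finset.sum_mul, hf, zero_mul,
        add_zero]
      unfold dl
      simp
    rw [h1]
    refine M.sum_mem fun x _ => ?_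
    rcases ZOrd.zmod_two (f x) with h2 | h2
    · rw [h2, zero_smul]
      exact M.zero_mem
    · rw [h2, one_smul]
      exact hM _ _
  · have h1 : f = 0 := by
      ext x
      exact absurd ⟨x⟩ hX
    rw [h1]
    exact M.zero_mem

/-- A stable group with a nonconstant function contains all functions of sum `0`. -/
lemma irr (M : AddSubgroup (X → ZMod 2)) (hM : ∀ i j, i ≠ j → ∀ f ∈ M, f ∘ Equiv.swap i j ∈ M)
    {f : X → ZMod 2} (hf : f ∈ M) {i j : X} (hij : f i ≠ f j) : S0 X ≤ M := by
  have hij' : i ≠ j := fun h => hij (congrArg f h)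
  have h1 : chi i j ∈ M := by
    have h2 := M.add_mem (hM i j hij' f hf) hf
    have h3 : f i + f j = 1 := by
      refine (ZOrd.zmod_two _).resolve_left fun h4 => hij ?_
      rw [← CharTwo.neg_eq (f j), ← sub_eq_add_neg] at h4
      exact sub_eq_zero.1 h4
    rw [swap_eq, h3, one_smul, add_comm, ← add_assoc, dd, zero_add] at h2
    exact h2
  have h2 : ∀ a b c, a ≠ b → a ≠ c → chi a b ∈ M → chi a c ∈ M := by
    intro a b c hab hac h3
    by_cases hbc : b = c
    · rwa [← hbc]
    rw [← chi_swap hab hac]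
    exact hM b c hbc _ h3
  apply span
  have h3 : ∀ a, a ≠ i → ∀ b, b ≠ a → chi a b ∈ M := by
    intro a hai b hba
    have h4 := h2 i j a hij' hai.symm h1
    rw [chi_comm] at h4
    exact h2 a i b hai hba.symm h4
  intro a b
  by_cases hab : a = b
  · rw [hab]
    have h4 : chi b b = (0 : X → ZMod 2) := dd _
    rw [h4]
    exact M.zero_mem
  by_cases hai : a = i
  · rw [chi_comm]
    exact h3 b (fun hb => hab (hai.trans hb.symm)) a hab
  · exact h3 a hai b (Ne.symm hab)

end fns

section Main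

variable {X : Type} [Fintype X] {Γ W : Type*} [Group Γ] [AddCommGroup W] [DistribMulAction Γ W]

/-- The heart of the permutation module of the symmetric group. -/
theorem ample_of_perm (hX : 6 ≤ Fintype.card X) (hX' : Even (Fintype.card X)) (U : AddSubgroup W)
    (φ : (X → ZMod 2) → W) (hadd : ∀ f ∈ S0 X, ∀ g ∈ S0 X, φ (f + g) = φ f + φ g)
    (hmem : ∀ f ∈ S0 X, φ f ∈ U) (hsurj : ∀ u ∈ U, ∃ f ∈ S0 X, φ f = u) (hone : φ 1 = 0)
    (hact : ∀ i j : X, i ≠ j → ∃ γ : Γ, ∀ f ∈ S0 X, γ • φ f = φ (f ∘ Equiv.swap i j)) : ZInj.Ample Γ U := by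
  have hone' : (1 : X → ZMod 2) ∈ S0 X := by
    rw [mem_S0]
    simp only [Pi.one_apply, Finset.sum_const, Finset.card_univ, nsmul_eq_mul, mul_one]
    rw [ZMod.natCast_eq_zero_iff]
    exact hX'.two_dvd
  have hzero : φ 0 = 0 := by
    have h1 := hadd 0 (zero_mem _) 0 (zero_mem _)
    rw [add_zero] at h1
    exact left_eq_add.1 h1
  have hsm : ∀ c : ZMod 2, ∀ f ∈ S0 X, c • f ∈ S0 X := by
    intro c f hf
    rcases ZOrd.zmod_two c with h1 | h1
    · rw [h1, zero_smul]
      exact zero_mem _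
    · rwa [h1, one_smul]
  have hconst : ∀ c : ZMod 2, φ (c • (1 : X → ZMod 2)) = 0 := by
    intro c
    rcases ZOrd.zmod_two c with h1 | h1
    · rw [h1, zero_smul, hzero]
    · rw [h1, one_smul, hone]
  have hneg : ∀ f : X → ZMod 2, -f = f := by
    intro f
    ext x
    exact CharTwo.neg_eq _
  have hst0 : ∀ i j : X, i ≠ j → ∀ f ∈ S0 X, f ∘ Equiv.swap i j ∈ S0 X := by
    intro i j _ f hf
    rw [mem_S0] at hf ⊢
    rw [← hf]
    exact Equiv.sum_comp (Equiv.swap i j) f
  have h2U : ∀ u ∈ U, u + u = 0 := by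
    intro u hu
    obtain ⟨f, hf, rfl⟩ := hsurj u hu
    rw [← hadd f hf f hf, dd, hzero]
  refine ⟨?_, fun N hNU hN A hne hA => ?_⟩
  · have h1 : (U : Set W) ⊆ Set.range φ := by
      intro u hu
      obtain ⟨f, _, hf⟩ := hsurj u hu
      exact ⟨f, hf⟩
    exact (Set.finite_range φ).subset h1
  -- the subgroup of functions
  have key : ∀ N' : AddSubgroup W, (∀ g : Γ, ∀ v ∈ N', g • v ∈ N') → ∀ f ∈ S0 X, φ f ∈ N' → ∀ i j, f i ≠ f j →
      U ≤ N' := by
    intro N' hN' f hf hfN i j hij
    let M : AddSubgroup (X → ZMod 2) :=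
      { carrier := {f | f ∈ S0 X ∧ φ f ∈ N'}
        zero_mem' := ⟨zero_mem _, by rw [hzero]; exact zero_mem _⟩
        add_mem' := by
          rintro a b ⟨ha, ha'⟩ ⟨hb, hb'⟩
          exact ⟨add_mem ha hb, by rw [hadd a ha b hb]; exact add_mem ha' hb'⟩
        neg_mem' := by
          rintro a ⟨ha, ha'⟩
          rw [Set.mem_ofPred_eq, hneg]
          exact ⟨ha, ha'⟩ }
    have h1 : S0 X ≤ M := irr M (fun a b hab g hg => ⟨hst0 a b hab g hg.1, by
      obtain ⟨γ, hγ⟩ := hact a b hab
      rw [← hγ g hg.1]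
      exact hN' γ _ hg.2⟩) ⟨hf, hfN⟩ hij
    intro u hu
    obtain ⟨g, hg, rfl⟩ := hsurj u hu
    exact (h1 hg).2
  have hcon : ∀ f : X → ZMod 2, (∀ i j, f i = f j) → ∃ c : ZMod 2, f = c • (1 : X → ZMod 2) := by
    intro f hf
    have hXne : Nonempty X := by
      rw [← Fintype.card_pos_iff]
      omega
    obtain ⟨x₀⟩ := hXne
    refine ⟨f x₀, ?_⟩
    ext x
    rw [hf x x₀]
    simp
  have hNne := ZInj.ne_bot_of N A hne
  have hNU' : N = U := by
    obtain ⟨⟨u, hu⟩, hu0⟩ := AddSubgroup.ne_bot_iff_exists_ne_zero.1 hNne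
    obtain ⟨f, hf, hfu⟩ := hsurj u (hNU hu)
    by_cases hc : ∀ i j, f i = f j
    · obtain ⟨c, rfl⟩ := hcon f hc
      rw [hconst] at hfu
      exact absurd (Subtype.ext hfu.symm) hu0
    · push Not at hc
      obtain ⟨i, j, hij⟩ := hc
      exact le_antisymm hNU (key N hN f hf (by rwa [hfu]) i j hij)
  subst hNU'
  have hker : ∀ f ∈ S0 X, φ f = 0 → ∀ i j, f i = f j := by
    intro f hf hf0 i j
    by_contra hij
    refine hNne (le_bot_iff.1 (key ⊥ ?_ f hf (by rw [hf0]; exact zero_mem _) i j hij))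
    intro g v hv
    rw [AddSubgroup.mem_bot] at hv ⊢
    rw [hv, smul_zero]
  -- the module and the form
  let m : Module (ZMod 2) N := AddCommGroup.zmodModule (n := 2) fun u => by
    rw [two_nsmul]
    exact Subtype.ext (h2U u u.2)
  have hch : ∀ u : N, ∃ f ∈ S0 X, φ f = u := fun u => hsurj u u.2
  choose rep hrep hrep' using hch
  have hrepc : ∀ (u : N) (f : X → ZMod 2), f ∈ S0 X → φ f = u → ∃ c : ZMod 2, rep u = f + c • (1 : X → ZMod 2) := by
    intro u f hf hfu
    have h1 : φ (rep u + f) = 0 := by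
      rw [hadd _ (hrep u) _ hf, hrep', hfu]
      exact h2U u u.2
    obtain ⟨c, hc⟩ := hcon _ (hker _ (add_mem (hrep u) hf) h1)
    refine ⟨c, ?_⟩
    rw [← hc, add_comm (rep u), ← add_assoc, dd, zero_add]
  have hb1 : ∀ (c : ZMod 2) (f g : X → ZMod 2), g ∈ S0 X → ∑ x, (f + c • (1 : X → ZMod 2)) x * g x = ∑ x, f x * g x := by
    intro c f g hg
    simp only [Pi.add_apply, Pi.smul_apply, Pi.one_apply, smul_eq_mul, mul_one, add_mul, Finset.sum_add_distrib,
      ← Finset.mul_sum]
    rw [mem_S0.1 hg, mul_zero, add_zero]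
  have hb2 : ∀ (c : ZMod 2) (f g : X → ZMod 2), g ∈ S0 X → ∑ x, g x * (f + c • (1 : X → ZMod 2)) x = ∑ x, g x * f x := by
    intro c f g hg
    have h1 := hb1 c f g hg
    simp only [mul_comm (g _)]
    exact h1
  let E : N →+ N →+ ZMod 2 := AddMonoidHom.mk' (fun u => AddMonoidHom.mk' (fun v => ∑ x, rep u x * rep v x) (by
      intro v w
      obtain ⟨c, hc⟩ := hrepc (v + w) (rep v + rep w) (add_mem (hrep v) (hrep w)) (by
        rw [hadd _ (hrep v) _ (hrep w), hrep', hrep']
        rfl)
      rw [hc, hb2 c _ _ (hrep u)]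
      simp only [Pi.add_apply, mul_add, Finset.sum_add_distrib])) (by
    intro u v
    ext w
    obtain ⟨c, hc⟩ := hrepc (u + v) (rep u + rep v) (add_mem (hrep u) (hrep v)) (by
      rw [hadd _ (hrep u) _ (hrep v), hrep', hrep']
      rfl)
    change ∑ x, rep (u + v) x * rep w x = ∑ x, rep u x * rep w x + ∑ x, rep v x * rep w x
    rw [hc, hb1 c _ _ (hrep w)]
    simp only [Pi.add_apply, add_mul, Finset.sum_add_distrib])
  have hE : ∀ (u v : N) (f g : X → ZMod 2), f ∈ S0 X → g ∈ S0 X → φ f = u → φ g = v → E u v = ∑ x, f x * g x := by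
    intro u v f g hf hg hfu hgv
    change ∑ x, rep u x * rep v x = _
    obtain ⟨c, hc⟩ := hrepc u f hf hfu
    obtain ⟨d, hd⟩ := hrepc v g hg hgv
    rw [hc, hb1 c _ _ (hrep v), hd, hb2 d _ _ hf]
  let e : X → X → N := fun i j => ⟨φ (chi i j), hmem _ (chi_mem i j)⟩
  have hEe : ∀ (u : N) (f : X → ZMod 2), f ∈ S0 X → φ f = u → ∀ a b, E u (e a b) = f a + f b := by
    intro u f hf hfu a b
    rw [hE u (e a b) f (chi a b) hf (chi_mem a b) hfu rfl]
    simp only [chi_apply, mul_add, Finset.sum_add_distrib]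
    unfold dl
    simp
  have hconf : Conf (ZSymp.bil E) e := by
    refine ⟨?_, ?_, ?_, ?_, ?_⟩
    · intro v
      change ∑ x, rep v x * rep v x = 0
      rw [← mem_S0.1 (hrep v)]
      refine Finset.sum_congr rfl fun x _ => ?_
      rcases ZOrd.zmod_two (rep v x) with h1 | h1 <;> rw [h1] <;> rfl
    · intro i j k
      apply Subtype.ext
      change φ (chi i j) + φ (chi j k) = φ (chi i k)
      rw [← hadd _ (chi_mem i j) _ (chi_mem j k), chi_add]
    · intro i j k l
      rw [ZSymp.bil_apply, hEe (e i j) (chi i j) (chi_mem i j) rfl, chi_apply, chi_apply]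
      unfold dl
      simp only [@eq_comm X k i, @eq_comm X k j, @eq_comm X l i, @eq_comm X l j]
      ring
    · intro u hu
      have h1 : ∀ i j, rep u i = rep u j := by
        intro i j
        have h2 := hu i j
        rw [ZSymp.bil_apply, hEe u (rep u) (hrep u) (hrep' u), ← CharTwo.neg_eq (rep u j), ← sub_eq_add_neg] at h2
        exact sub_eq_zero.1 h2
      obtain ⟨c, hc⟩ := hcon _ h1
      apply Subtype.ext
      rw [← hrep' u, hc, hconst]
      rfl
    · intro ψ hψ
      let M : AddSubgroup (X → ZMod 2) :=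
        { carrier := {f | ∀ (u : N), f ∈ S0 X ∧ (φ f = u → ψ u = 0)}
          zero_mem' := by
            intro u
            refine ⟨zero_mem _, fun h1 => ?_⟩
            rw [hzero] at h1
            have h2 : u = 0 := Subtype.ext h1.symm
            rw [h2, map_zero]
          add_mem' := by
            intro a b ha hb u
            refine ⟨add_mem (ha u).1 (hb u).1, fun h1 => ?_⟩
            rw [hadd a (ha u).1 b (hb u).1] at h1
            have h2 : u = ⟨φ a, hmem a (ha u).1⟩ + ⟨φ b, hmem b (hb u).1⟩ := Subtype.ext h1.symm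
            rw [h2, map_add, (ha _).2 rfl, (hb _).2 rfl, add_zero]
          neg_mem' := by
            intro a ha
            rw [hneg]
            exact ha }
      have h1 : S0 X ≤ M := span M fun i j u => ⟨chi_mem i j, fun h2 => by
        have h3 : u = e i j := Subtype.ext h2.symm
        rw [h3, hψ]⟩
      ext u
      exact ((h1 (hrep u)) u).2 (hrep' u)
  apply exists_inj_grp hconf hX hX' A hne
  intro a b hab K hK
  obtain ⟨γ, hγ⟩ := hact a b hab
  refine ZInj.conj_mem N A hA (ZSymp.transv (ZSymp.bil E) hconf.alt (e a b)) ⟨γ, fun v => ?_⟩ K hK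
  rw [ZSymp.transv_apply, ZSymp.bil_apply, hEe v (rep v) (hrep v) (hrep' v)]
  rw [← hrep' v, hγ _ (hrep v), swap_eq, hadd _ (hrep v) _ (hsm _ _ (chi_mem a b)), hrep']
  rcases ZOrd.zmod_two (rep v a + rep v b) with h1 | h1
  · rw [h1, zero_smul, zero_smul, hzero, add_zero, add_zero]
  · rw [h1, one_smul, one_smul]
    rfl

end Main

end Pool.Agent.Lib.MP_89bcae_ag.Xs.Amp
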